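import Mathlib
import Pool.Agent.H637R2.Leo.Final

set_option autoImplicit false

/-!
# Leopoldt's conjecture in polynomial families: definitions and statements of the tasks
-/

namespace Pool.Agent.H33R4

open Polynomial NumberField Pool.Agent.H637R2.Leo

/-- `P(x, Y)` for a polynomial `P(T, Y)` (the outer variable is `Y`). -/
noncomputable def spec {A : Type} [CommRing A] (x : A) (P : ℤ[X][X]) : A[X] :=
  P.map (Polynomial.eval₂RingHom (Int.castRingHom A) x)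

/-- `P(x, y)` for a polynomial `P(T, Y)`. -/
noncomputable def ev2 {A : Type} [CommRing A] (x y : A) (P : ℤ[X][X]) : A :=
  (spec x P).eval y

/-- `l` is a `p`-adic logarithm of `x`. -/
def IsLog (p : ℕ) {B : Type} [CommRing B] (x l : B) : Prop :=
  ∀ k : ℕ, (p : B) ^ (2 * k) ∣ x ^ (p ^ k) - 1 - (p : B) ^ k * l

/-- torsion-free, separated, complete for the `p`-adic topology -/
structure PGood (p : ℕ) (B : Type) [CommRing B] : Prop where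
  tf : ∀ b : B, (p : B) * b = 0 → b = 0
  sep : ∀ b : B, (∀ k : ℕ, (p : B) ^ k ∣ b) → b = 0
  cmpl : ∀ e : ℕ → B, (∀ k, (p : B) ^ k ∣ e (k + 1) - e k) → ∃ l : B, ∀ k, (p : B) ^ k ∣ l - e k

/-! ### p-adic logarithms -/

/-- LOGEX -/
def LogEx : Prop := ∀ (p : ℕ), p.Prime → ∀ (B : Type) [CommRing B], PGood p B →
  ∀ x : B, (p : B) ∣ x - 1 → ∃ l, IsLog p x l

/-- LOGB -/
def LogB : Prop := ∀ (p : ℕ), p.Prime → ∀ (B : Type) [CommRing B],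
  (IsLog p (1 : B) 0) ∧
  (∀ x y l m : B, IsLog p x l → IsLog p y m → IsLog p (x * y) (l + m)) ∧
  (∀ x y l : B, IsLog p x l → x * y = 1 → IsLog p y (-l)) ∧
  (∀ (B' : Type) [CommRing B'] (φ : B →+* B') (x l : B), IsLog p x l → IsLog p (φ x) (φ l)) ∧
  ((∀ b : B, (p : B) * b = 0 → b = 0) → (∀ b : B, (∀ k : ℕ, (p : B) ^ k ∣ b) → b = 0) →
    (∀ x l m : B, IsLog p x l → IsLog p x m → l = m) ∧
    (∀ x l : B, IsLog p x l → ∀ N, 1 ≤ N → (p : B) ^ N ∣ x - 1 → (p : B) ^ N ∣ l) ∧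
    (∀ x l : B, IsLog p x l → ∀ D : Derivation ℤ B B, D x = x * D l))

/-! ### p-adically complete rings -/

/-- GOOD1 -/
def Good1 : Prop := (∀ (p : ℕ) [Fact p.Prime], PGood p ℤ_[p]) ∧
  (∀ (p : ℕ) (R : Type) [CommRing R], PGood p R → PGood p (PowerSeries R))

/-- GOOD2 -/
def Good2 : Prop := ∀ (p : ℕ) (R : Type) [CommRing R] (F : R[X]), F.Monic → PGood p R →
  PGood p (AdjoinRoot F)

/-! ### power series over ℤ_p -/

/-- `φ` is evaluation of power series over `ℤ_p` at `s` -/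
def IsEval (p : ℕ) [Fact p.Prime] (s : ℤ_[p]) (φ : PowerSeries ℤ_[p] →+* ℤ_[p]) : Prop :=
  φ PowerSeries.X = s ∧ ∀ a, φ (PowerSeries.C a) = a

/-- EVZ -/
def EvZ : Prop := ∀ (p : ℕ) [Fact p.Prime],
  (∀ s : ℤ_[p], (p : ℤ_[p]) ∣ s → ∃ φ, IsEval p s φ) ∧
  (∀ h : PowerSeries ℤ_[p], h ≠ 0 →
    {s : ℤ_[p] | (p : ℤ_[p]) ∣ s ∧ ∃ φ, IsEval p s φ ∧ φ h = 0}.Finite)

/-- DUAL -/
def Dual : Prop := ∀ (R : Type) [CommRing R] [IsDomain R] (F : R[X]), F.Monic → ∀ (r : ℕ)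
  (L : Fin r → AdjoinRoot F), (∀ h : Fin r → R, ∑ i, AdjoinRoot.of F (h i) * L i = 0 → h = 0) →
  ∃ h : R, h ≠ 0 ∧ ∀ (S : Type) [CommRing S] (φ : R →+* S) (w : Fin r → S),
    ∑ i, AdjoinRoot.of (F.map φ) (w i) * AdjoinRoot.map φ F (F.map φ) dvd_rfl (L i) = 0 →
    ∀ i, φ h * w i = 0

/-! ### from Leopoldt's conjecture to a relation between logarithms -/

/-- PARTB -/
def PartB : Prop := ∀ (p : ℕ) [Fact p.Prime] (g : ℤ[X]), g.Monic → ∀ (r : ℕ) (U W : Fin r → ℤ[X]),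
  (∀ i, g ∣ U i * W i - 1) → ∀ (K : Type) [Field K] [NumberField K] (θ : K), aeval θ g = 0 →
  Module.finrank ℚ K = g.natDegree → IntermediateField.adjoin ℚ {θ} = ⊤ → Units.rank K = r →
  ¬ Leopoldt K p → ∀ (M : ℕ), 0 < M → ∀ l : Fin r → AdjoinRoot (g.map (Int.castRingHom ℤ_[p])),
  (∀ i, IsLog p ((AdjoinRoot.mk (g.map (Int.castRingHom ℤ_[p]))
    ((U i).map (Int.castRingHom ℤ_[p]))) ^ M) (l i)) →
  ∃ w : Fin r → ℤ_[p], w ≠ 0 ∧ ∑ i, AdjoinRoot.of _ (w i) * l i = 0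

/-! ### logarithmic derivatives -/

/-- DERL -/
def DerL : Prop := ∀ (R : Type) [CommRing R] (d : Derivation ℤ R R) (F g : R[X]) (δ : R),
  F ∣ derivative F * g - C δ → ∃ D : Derivation ℤ (AdjoinRoot F) (AdjoinRoot F),
    ∀ a, D (AdjoinRoot.of F a) = AdjoinRoot.of F (δ * d a)

/-- DLOG -/
def DLog : Prop := ∀ (p : ℕ), p.Prime → ∀ (R : Type) [CommRing R] [IsDomain R] (F : R[X]), F.Monic →
  PGood p R → ∀ (d : Derivation ℤ R R) (Ω : Type) [Field Ω] (j : R →+* Ω), Function.Injective j →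
  (F.map j).Separable → ∀ DΩ : Derivation ℤ Ω Ω, (∀ a, DΩ (j a) = j (d a)) →
  ∀ σ : AdjoinRoot F →+* Ω, (∀ a, σ (AdjoinRoot.of F a) = j a) →
  ∀ x l : AdjoinRoot F, IsLog p x l → DΩ (σ x) = σ x * DΩ (σ l)

/-! ### functional independence -/

/-- LEMA -/
def LemA : Prop := ∀ (Ω : Type) [Field Ω] [CharZero Ω] (D : Derivation ℤ Ω Ω) (K : Subfield Ω),
  (∀ x ∈ K, D x ∈ K) → (∀ x, D x = 0 → x ∈ K) → ∀ (ι : Type) [Fintype ι] (y : ι → Ω),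
  (∀ i, D (y i) ∈ K) → ∀ lam : ι → ℤ,
  (∀ c : ι → Ω, (∀ i, D (c i) = 0) → ∑ i, c i * y i ∈ K → ∑ i, c i * (lam i : Ω) = 0) →
  ∀ (d : ℕ) (P : MvPolynomial ι ℚ), P.IsHomogeneous d → MvPolynomial.aeval y P = 0 →
  MvPolynomial.aeval (fun i => (lam i : ℚ)) P = 0

/-! ### residues at infinity -/

/-- EUL -/
def Eul : Prop := ∀ (k : Type) [Field k] [CharZero k],
  ∃ E : Derivation ℤ (LaurentSeries k) (LaurentSeries k),
    (∀ a m, (E a).coeff m = (m : k) * a.coeff m) ∧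
    (∀ (ι : Type) [Fintype ι] (c : ι → k) (u : ι → LaurentSeries k) (g : LaurentSeries k),
      (∀ i, u i ≠ 0) → ∑ i, HahnSeries.C (c i) * (E (u i) / u i) = E g →
      ∑ i, c i * ((HahnSeries.order (u i) : ℤ) : k) = 0)

/-- REL -/
def Rel : Prop := ∀ (Ω : Type) [Field Ω] [CharZero Ω] (D : Derivation ℤ Ω Ω) (T : Ω) (q : ℕ),
  0 < q → D T = q → ∀ (f : ℤ[X][X]), f.Monic → ∀ (n : ℕ) (θ : Fin n → Ω),
  spec T f = ∏ j, (X - C (θ j)) →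
  ∀ (F : Type) [Field F] [CharZero F] (e : ℕ), 0 < e → ∀ (ϑ : Fin n → LaurentSeries F),
  Function.Injective ϑ →
  spec (HahnSeries.single (-(e : ℤ)) (1 : F)) f = ∏ j, (X - C (ϑ j)) →
  ∃ π : Equiv.Perm (Fin n), ∀ (ι : Type) [Fintype ι] (v : ι → ℤ[X][X]) (j : ι → Fin n),
    (∀ i, ev2 T (θ (j i)) (v i) ≠ 0) → ∀ (c : ι → Ω), (∀ i, D (c i) = 0) →
    ∀ g ∈ Subfield.closure ({x : Ω | D x = 0} ∪ {T} ∪ Set.range θ),
    ∑ i, c i * (D (ev2 T (θ (j i)) (v i)) / ev2 T (θ (j i)) (v i)) = D g →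
    ∑ i, c i * ((HahnSeries.order (ev2 (HahnSeries.single (-(e : ℤ)) (1 : F)) (ϑ (π (j i))) (v i))
      : ℤ) : Ω) = 0

/-! ### the explicit families of every signature -/

/-- the `r₁ + r₂` factors -/
noncomputable def fac {r₁ r₂ : ℕ} (a : Fin r₁ → ℤ) (b c : Fin r₂ → ℤ) : Fin r₁ ⊕ Fin r₂ → ℤ[X][X]
  | Sum.inl i => X - C (C (a i) * X)
  | Sum.inr k => (X - C (C (b k) * X)) ^ 2 + C (C (c k) * X ^ 2)

/-- the family `∏ (Y - a_i T) ∏ ((Y - b_k T)² + c_k T²) - 1` -/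
noncomputable def fam {r₁ r₂ : ℕ} (a : Fin r₁ → ℤ) (b c : Fin r₂ → ℤ) : ℤ[X][X] :=
  ∏ i, fac a b c i - 1

/-- INF: expansions at infinity of the explicit family -/
def Inf : Prop := ∀ (r₁ r₂ : ℕ) (a : Fin r₁ → ℤ) (b c : Fin r₂ → ℤ), Function.Injective a →
  Function.Injective (fun k => (b k, c k)) → (∀ k, 0 < c k) → 1 ≤ r₁ + r₂ →
  ∃ ϑ : Fin (r₁ + 2 * r₂) → LaurentSeries ℂ, Function.Injective ϑ ∧
    spec (HahnSeries.single (-((1 : ℕ) : ℤ)) (1 : ℂ)) (fam a b c) = ∏ j, (X - C (ϑ j)) ∧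
    ∀ i₀ : Fin r₁ ⊕ Fin r₂, ∀ x : Fin r₁ ⊕ Fin r₂ → ℚ, x i₀ = 0 →
      (∀ j, ∑ i, x i * ((HahnSeries.order (ev2 (HahnSeries.single (-((1 : ℕ) : ℤ)) (1 : ℂ)) (ϑ j)
        (fac a b c i)) : ℤ) : ℚ) = 0) → x = 0

/-- IRR: irreducibility for large `t` -/
def Irr : Prop := ∀ (r₁ r₂ : ℕ) (a : Fin r₁ → ℤ) (b c : Fin r₂ → ℤ), Function.Injective a →
  Function.Injective (fun k => (b k, c k)) → (∀ k, 0 < c k) → 1 ≤ r₁ + r₂ →
  ∃ T₀ : ℕ, ∀ t : ℤ, (T₀ : ℤ) ≤ |t| → Irreducible (spec t (fam a b c))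

/-- SIG: signature for large `t` -/
def Sig : Prop := ∀ (r₁ r₂ : ℕ) (a : Fin r₁ → ℤ) (b c : Fin r₂ → ℤ), Function.Injective a →
  Function.Injective (fun k => (b k, c k)) → (∀ k, 0 < c k) →
  ∃ T₀ : ℕ, ∀ t : ℤ, (T₀ : ℤ) ≤ |t| →
    (((spec t (fam a b c)).map (Int.castRingHom ℝ)).roots.toFinset.card = r₁)

/-- PLACES: the signature of a number field from the real roots of a defining polynomial -/
def Places : Prop := ∀ (g : ℤ[X]), g.Monic → Irreducible g → ∀ (K : Type) [Field K] [NumberField K]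
  (θ : K), aeval θ g = 0 → IntermediateField.adjoin ℚ {θ} = ⊤ →
  Module.finrank ℚ K = g.natDegree ∧
    InfinitePlace.nrRealPlaces K = ((g.map (Int.castRingHom ℝ)).roots.toFinset.card)

end Pool.Agent.H33R4
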