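import Mathlib
import Pool.Agent.H33R4.Spec

set_option autoImplicit false

namespace Pool.Agent.H33R4

open Polynomial

/-- task DERL: a derivation on `AdjoinRoot F` -/
theorem derL_proof : DerL := by
  intro R _ d F g δ h
  letI : Differential R := ⟨d⟩
  have hC : ∀ a : R, Differential.mapCoeffs (C a : R[X]) = C (d a) :=
    fun a => Differential.mapCoeffs_C a
  let D0 : Derivation ℤ R[X] R[X] :=
    (C δ) • Differential.mapCoeffs - (Differential.mapCoeffs F * g) •
      ((Polynomial.derivative' : Derivation R R[X] R[X]).restrictScalars ℤ)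
  have hD0 : ∀ P : R[X], D0 P = C δ * Differential.mapCoeffs P
      - Differential.mapCoeffs F * g * derivative P := by
    intro P
    simp [D0]
  let f : R[X] →ₐ[ℤ] AdjoinRoot F := (AdjoinRoot.mk F).toIntAlgHom
  have hf : Function.Surjective f := AdjoinRoot.mk_surjective
  have hd : ∀ x, f x = 0 → f (D0 x) = 0 := by
    intro x hx
    have hx' : F ∣ x := AdjoinRoot.mk_eq_zero.1 hx
    obtain ⟨q, rfl⟩ := hx'
    obtain ⟨r, hr⟩ := h
    refine AdjoinRoot.mk_eq_zero.2 ?_
    rw [Derivation.leibniz, smul_eq_mul, smul_eq_mul]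
    refine dvd_add (dvd_mul_right _ _) (Dvd.dvd.mul_left ?_ _)
    rw [hD0]
    refine ⟨- Differential.mapCoeffs F * r, ?_⟩
    linear_combination (-Differential.mapCoeffs F) * hr
  refine ⟨Derivation.liftOfSurjective hf hd, fun a => ?_⟩
  have h1 := Derivation.liftOfSurjective_apply hf hd (C a)
  have h2 : f (C a) = AdjoinRoot.of F a := rfl
  rw [h2] at h1
  rw [h1, hD0, hC]
  simp only [derivative_C, mul_zero, sub_zero]
  rw [← C_mul]
  rfl

end Pool.Agent.H33R4
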