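import Mathlib
import Pool.Agent.H33R4.Spec

set_option autoImplicit false

/-!
# DLOG: logarithmic derivatives of `p`-adic logarithms
-/

namespace Pool.Agent.H33R4

open Polynomial

/-- clearing denominators in a Bezout identity -/
lemma dlog_bezout {R : Type} [CommRing R] [IsDomain R] (F : R[X]) {Ω : Type} [Field Ω] (j : R →+* Ω)
    (hj : Function.Injective j) (hs : (F.map j).Separable) :
    ∃ (δ : R) (g : R[X]), δ ≠ 0 ∧ F ∣ derivative F * g - C δ := by
  let K := FractionRing R
  let ι : K →+* Ω := IsFractionRing.lift hj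
  have hι : ι.comp (algebraMap R K) = j := by
    ext a
    exact IsFractionRing.lift_algebraMap hj a
  have h1 : (F.map (algebraMap R K)).Separable := by
    rw [← Polynomial.separable_map ι, Polynomial.map_map, hι]
    exact hs
  obtain ⟨a, b, hab⟩ := h1
  obtain ⟨ca, hca0, hca⟩ := IsLocalization.integerNormalization_spec (nonZeroDivisors R) a
  obtain ⟨cb, hcb0, hcb⟩ := IsLocalization.integerNormalization_spec (nonZeroDivisors R) b
  set a' := IsLocalization.integerNormalization (nonZeroDivisors R) a
  set b' := IsLocalization.integerNormalization (nonZeroDivisors R) b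
  have hinj : Function.Injective (Polynomial.map (algebraMap R K)) :=
    Polynomial.map_injective _ (IsFractionRing.injective R K)
  have hca' : a'.map (algebraMap R K) = C (algebraMap R K ca) * a := by
    rw [hca, Algebra.smul_def]
    rfl
  have hcb' : b'.map (algebraMap R K) = C (algebraMap R K cb) * b := by
    rw [hcb, Algebra.smul_def]
    rfl
  refine ⟨ca * cb, C (ca : R) * b', mul_ne_zero (nonZeroDivisors.ne_zero hca0) (nonZeroDivisors.ne_zero hcb0), ?_⟩
  refine ⟨-(C (cb : R) * a'), hinj ?_⟩
  have hab' : a * F.map (algebraMap R K) + b * (derivative F).map (algebraMap R K) = 1 := by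
    rw [← hab, Polynomial.derivative_map]
  simp only [Polynomial.map_sub, Polynomial.map_mul, Polynomial.map_neg, Polynomial.map_C, map_mul, hca', hcb']
  linear_combination (C (algebraMap R K ca) * C (algebraMap R K cb)) * hab'

theorem dLog_of (hB : LogB) (h2 : Good2) (hD : DerL) : DLog := by
  intro p hp R _ _ F hF hR d Ω _ j hj hs DΩ hDΩ σ hσ x l hxl
  obtain ⟨δ, g, hδ, hg⟩ := dlog_bezout F j hj hs
  obtain ⟨D, hDof⟩ := hD R d F g δ hg
  have hgood := h2 p R F hF hR
  have hlog := ((hB p hp (AdjoinRoot F)).2.2.2.2 hgood.tf hgood.sep).2.2 x l hxl D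
  set θ : Ω := σ (AdjoinRoot.root F) with hθ
  have hσmk : ∀ P : R[X], σ (AdjoinRoot.mk F P) = P.eval₂ j θ := by
    intro P
    induction P using Polynomial.induction_on' with
    | add P Q hP hQ => rw [map_add, map_add, hP, hQ, Polynomial.eval₂_add]
    | monomial n a =>
      rw [← Polynomial.C_mul_X_pow_eq_monomial, map_mul, map_pow, AdjoinRoot.mk_C, AdjoinRoot.mk_X, map_mul,
        hσ, map_pow, Polynomial.eval₂_mul, Polynomial.eval₂_C, Polynomial.eval₂_pow, Polynomial.eval₂_X]
  -- the difference of the two derivations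
  have hE : ∀ P : R[X], σ (D (AdjoinRoot.mk F P)) - j δ * DΩ (σ (AdjoinRoot.mk F P)) =
      (derivative P).eval₂ j θ * (σ (D (AdjoinRoot.root F)) - j δ * DΩ θ) := by
    intro P
    induction P using Polynomial.induction_on' with
    | add P Q hP hQ =>
      rw [map_add, map_add, map_add, map_add, map_add, derivative_add, Polynomial.eval₂_add, add_mul, ← hP, ← hQ]
      ring
    | monomial n a =>
      have h1 : AdjoinRoot.mk F (monomial n a) = AdjoinRoot.of F a * AdjoinRoot.root F ^ n := by
        rw [← Polynomial.C_mul_X_pow_eq_monomial, map_mul, map_pow, AdjoinRoot.mk_C, AdjoinRoot.mk_X]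
      rw [h1, D.leibniz, D.leibniz_pow, hDof, map_mul σ, hσ, map_pow, DΩ.leibniz, DΩ.leibniz_pow, hDΩ,
        Polynomial.derivative_monomial, Polynomial.eval₂_monomial]
      simp only [smul_eq_mul, nsmul_eq_mul, map_add, map_mul, map_pow, map_natCast, hσ]
      rw [← hθ]
      ring
  have hroot : F.eval₂ j θ = 0 := by
    rw [← hσmk, AdjoinRoot.mk_self, map_zero]
  have hder : (derivative F).eval₂ j θ ≠ 0 := by
    have h3 := hs.eval₂_derivative_ne_zero (RingHom.id Ω) (x := θ) (by
      rw [Polynomial.eval₂_map, RingHom.id_comp]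
      exact hroot)
    rw [Polynomial.derivative_map, Polynomial.eval₂_map, RingHom.id_comp] at h3
    exact h3
  have hE0 : σ (D (AdjoinRoot.root F)) - j δ * DΩ θ = 0 := by
    have h4 := hE F
    rw [AdjoinRoot.mk_self, map_zero, map_zero, map_zero, mul_zero, sub_zero] at h4
    exact (mul_eq_zero.1 h4.symm).resolve_left hder
  have hcomp : ∀ b : AdjoinRoot F, σ (D b) = j δ * DΩ (σ b) := by
    intro b
    obtain ⟨P, rfl⟩ := AdjoinRoot.mk_surjective b
    have h5 := hE P
    rw [hE0, mul_zero] at h5
    exact sub_eq_zero.1 h5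
  have h6 := congrArg σ hlog
  rw [map_mul] at h6
  have h8 : j δ * DΩ (σ x) = σ x * (j δ * DΩ (σ l)) :=
    (hcomp x).symm.trans (h6.trans (congrArg (σ x * ·) (hcomp l)))
  have h7 : j δ ≠ 0 := by
    intro h0
    apply hδ
    apply hj
    rw [h0, map_zero]
  apply mul_left_cancel₀ h7
  rw [h8]
  ring

end Pool.Agent.H33R4
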