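import Mathlib
import Pool.Agent.H33R4.Spec

/-!
# DUAL: dual elements with a common denominator
-/

set_option autoImplicit false

namespace Pool.Agent.H33R4

open Polynomial

namespace DUAL

/-- linearly independent rows over a domain have a right inverse with a common denominator -/
theorem exists_dual {R : Type} [CommRing R] [IsDomain R] {r n : ℕ} (Lam : Fin r → Fin n → R)
    (hL : ∀ h : Fin r → R, (∀ j, ∑ i, h i * Lam i j = 0) → h = 0) :
    ∃ (h : R) (G : Fin n → Fin r → R), h ≠ 0 ∧
      ∀ i k, ∑ j, Lam i j * G j k = if i = k then h else 0 := by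
  classical
  have h1 : LinearIndependent R (fun i => fun j => algebraMap R (FractionRing R) (Lam i j)) := by
    rw [Fintype.linearIndependent_iff]
    intro c hc
    have h2 : c = 0 := by
      apply hL
      intro j
      have h3 := congrFun hc j
      rw [Finset.sum_apply] at h3
      simp only [Pi.smul_apply, Pi.zero_apply, Algebra.smul_def, ← map_mul] at h3
      rw [← map_sum] at h3
      exact (IsFractionRing.injective R (FractionRing R)) (by rw [h3, map_zero])
    intro i
    rw [h2]; rfl
  have h2 : LinearIndependent (FractionRing R)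
      (fun i => fun j => algebraMap R (FractionRing R) (Lam i j)) :=
    (LinearIndependent.iff_fractionRing R (FractionRing R)).1 h1
  set f : (Fin r → FractionRing R) →ₗ[FractionRing R] (Fin n → FractionRing R) :=
    Fintype.linearCombination (FractionRing R)
      (fun i => fun j => algebraMap R (FractionRing R) (Lam i j)) with hf
  have h3 : LinearMap.ker f = ⊥ := by
    rw [Fintype.linearIndependent_iff] at h2
    rw [LinearMap.ker_eq_bot']
    intro c hc
    rw [hf, Fintype.linearCombination_apply] at hc
    exact funext (h2 c hc)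
  obtain ⟨g, hg⟩ := LinearMap.exists_leftInverse_of_injective f h3
  have h4 : ∀ i l, ∑ j, algebraMap R (FractionRing R) (Lam i j) * g (Pi.single j 1) l =
      if i = l then 1 else 0 := by
    intro i l
    have h5 := congrFun (congrArg (fun φ => φ (Pi.single i (1 : FractionRing R))) hg) l
    simp only [LinearMap.comp_apply, LinearMap.id_apply] at h5
    have h6 : f (Pi.single i (1 : FractionRing R)) =
        ∑ j, algebraMap R (FractionRing R) (Lam i j) •
          (Pi.single j (1 : FractionRing R) : Fin n → FractionRing R) := by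
      rw [hf, Fintype.linearCombination_apply_single, one_smul]
      funext k
      rw [Finset.sum_apply]
      simp [Pi.single_apply]
    rw [h6, map_sum, Finset.sum_apply] at h5
    simp only [map_smul, Pi.smul_apply, smul_eq_mul] at h5
    rw [h5, Pi.single_apply]
    by_cases h : i = l
    · simp [h]
    · simp [h, Ne.symm h]
  obtain ⟨b, hb⟩ := IsLocalization.exist_integer_multiples_of_finite (nonZeroDivisors R)
    (fun p : Fin n × Fin r => g (Pi.single p.1 1) p.2)
  choose G hG using hb
  refine ⟨(b : R), fun j k => G (j, k), nonZeroDivisors.ne_zero b.2, ?_⟩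
  intro i k
  apply IsFractionRing.injective R (FractionRing R)
  rw [map_sum]
  simp only [map_mul]
  have h5 : ∀ j, algebraMap R (FractionRing R) (Lam i j) * algebraMap R (FractionRing R) (G (j, k)) =
      algebraMap R (FractionRing R) b * (algebraMap R (FractionRing R) (Lam i j) *
        g (Pi.single j 1) k) := by
    intro j
    rw [hG (j, k), Algebra.smul_def]
    ring
  rw [Finset.sum_congr rfl fun j _ => h5 j, ← Finset.mul_sum, h4]
  by_cases h : i = k
  · rw [if_pos h, if_pos h, mul_one]
  · rw [if_neg h, if_neg h, mul_zero, map_zero]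

end DUAL

/-- DUAL: dual elements with a common denominator. -/
theorem dual_proof : Dual := by
  intro R _ _ F hF r L hL
  obtain ⟨P, hP⟩ : ∃ P : Fin r → R[X], P = fun i => AdjoinRoot.modByMonicHom hF (L i) := ⟨_, rfl⟩
  have hPL : ∀ i, AdjoinRoot.mk F (P i) = L i := by
    intro i
    rw [hP]
    exact AdjoinRoot.mk_leftInverse hF (L i)
  have hPd : ∀ i j, F.natDegree ≤ j → (P i).coeff j = 0 := by
    intro i j hj
    apply coeff_eq_zero_of_degree_lt
    obtain ⟨Q, hQ⟩ := AdjoinRoot.mk_surjective (L i)
    rw [hP]
    simp only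
    rw [← hQ, AdjoinRoot.modByMonicHom_mk]
    refine (degree_modByMonic_lt Q hF).trans_le ?_
    rw [degree_eq_natDegree hF.ne_zero]
    exact_mod_cast hj
  obtain ⟨h, G, hh, hG⟩ := DUAL.exists_dual (n := F.natDegree)
    (fun i (j : Fin F.natDegree) => (P i).coeff j) (by
      intro c hc
      apply hL
      have h1 : ∑ i, C (c i) * P i = 0 := by
        ext j
        rw [finsetSum_coeff, coeff_zero]
        simp only [coeff_C_mul]
        by_cases hj : j < F.natDegree
        · exact hc ⟨j, hj⟩
        · exact Finset.sum_eq_zero fun i _ => by rw [hPd i j (by omega), mul_zero]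
      have h2 := congrArg (AdjoinRoot.mk F) h1
      rw [map_sum, map_zero] at h2
      simp only [map_mul, AdjoinRoot.mk_C, hPL] at h2
      exact h2)
  refine ⟨h, hh, ?_⟩
  intro S _ φ w hw k
  rcases subsingleton_or_nontrivial S with hS | hS
  · exact Subsingleton.elim _ _
  have hmk : ∀ i, AdjoinRoot.map φ F (F.map φ) dvd_rfl (L i) =
      AdjoinRoot.mk (F.map φ) ((P i).map φ) := by
    intro i
    rw [← hPL i]
    refine Polynomial.induction_on (P i) ?_ ?_ ?_
    · intro a
      rw [AdjoinRoot.mk_C, AdjoinRoot.map_of, map_C, AdjoinRoot.mk_C]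
    · intro f g hf hg
      rw [map_add, map_add, Polynomial.map_add, map_add, hf, hg]
    · intro n a _
      rw [map_mul, map_pow, AdjoinRoot.mk_C, AdjoinRoot.mk_X, map_mul, map_pow, AdjoinRoot.map_of,
        AdjoinRoot.map_root, Polynomial.map_mul, Polynomial.map_pow, map_C, map_X, map_mul, map_pow,
        AdjoinRoot.mk_C, AdjoinRoot.mk_X]
  have h1 : AdjoinRoot.mk (F.map φ) (∑ i, C (w i) * (P i).map φ) = 0 := by
    rw [map_sum]
    simp only [map_mul, AdjoinRoot.mk_C, ← hmk]
    exact hw
  rw [AdjoinRoot.mk_eq_zero] at h1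
  have h2 : ∑ i, C (w i) * (P i).map φ = 0 := by
    by_contra hne
    have h3 : (∑ i, C (w i) * (P i).map φ).degree < (F.map φ).degree := by
      rw [hF.degree_map, degree_eq_natDegree hF.ne_zero]
      rw [degree_lt_iff_coeff_zero]
      intro j hj
      rw [finsetSum_coeff]
      exact Finset.sum_eq_zero fun i _ => by rw [coeff_C_mul, coeff_map, hPd i j hj, map_zero,
        mul_zero]
    exact (hF.map φ).not_dvd_of_degree_lt hne h3 h1
  have h3 : ∀ j : Fin F.natDegree, ∑ i, w i * φ ((P i).coeff j) = 0 := by
    intro j
    have h4 := congrArg (fun Q : S[X] => Q.coeff j) h2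
    simp only [finsetSum_coeff, coeff_C_mul, coeff_map, coeff_zero] at h4
    exact h4
  have h4 : ∑ j : Fin F.natDegree, (∑ i, w i * φ ((P i).coeff j)) * φ (G j k) = 0 :=
    Finset.sum_eq_zero fun j _ => by rw [h3 j, zero_mul]
  simp only [Finset.sum_mul] at h4
  rw [Finset.sum_comm] at h4
  have h5 : ∀ i, ∑ j : Fin F.natDegree, w i * φ ((P i).coeff j) * φ (G j k) =
      w i * φ (if i = k then h else 0) := by
    intro i
    rw [← hG i k, map_sum, Finset.mul_sum]
    refine Finset.sum_congr rfl fun j _ => ?_
    rw [map_mul]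
    ring
  rw [Finset.sum_congr rfl fun i _ => h5 i, Finset.sum_eq_single k] at h4
  · rw [if_pos rfl] at h4
    rw [mul_comm]
    exact h4
  · intro i _ hik
    rw [if_neg hik, map_zero, mul_zero]
  · intro hk
    exact absurd (Finset.mem_univ k) hk

end Pool.Agent.H33R4
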