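import Mathlib
import Pool.Agent.H33R4.Spec

set_option autoImplicit false

/-!
# The Euler derivation on Laurent series and residues
-/

namespace Pool.Agent.H33R4

open Finset

namespace EulAux

variable {k : Type} [Field k]

/-- the Euler operator `τ d/dτ` on Laurent series -/
noncomputable def E0 (a : LaurentSeries k) : LaurentSeries k :=
  ⟨fun m => (m : k) * a.coeff m, a.isPWO_support.mono (by
    intro m hm
    simp only [Function.mem_support, ne_eq] at hm
    simp only [HahnSeries.mem_support, ne_eq]
    intro h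
    exact hm (by rw [h, mul_zero]))⟩

lemma E0_coeff (a : LaurentSeries k) (m : ℤ) : (E0 a).coeff m = (m : k) * a.coeff m := rfl

lemma E0_supp (a : LaurentSeries k) : (E0 a).support ⊆ a.support := by
  intro m hm
  simp only [HahnSeries.mem_support, ne_eq, E0_coeff] at hm ⊢
  intro h
  exact hm (by rw [h, mul_zero])

lemma E0_mul (a b : LaurentSeries k) : E0 (a * b) = a * E0 b + b * E0 a := by
  ext m
  rw [E0_coeff, HahnSeries.coeff_add, mul_comm b (E0 a),
    HahnSeries.coeff_mul_right' b.isPWO_support (E0_supp b),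
    HahnSeries.coeff_mul_left' a.isPWO_support (E0_supp a), HahnSeries.coeff_mul,
    ← Finset.sum_add_distrib, Finset.mul_sum]
  refine Finset.sum_congr rfl fun ij hij => ?_
  have h : ij.1 + ij.2 = m := (Finset.mem_antidiagonal.1 hij).2.2
  rw [E0_coeff, E0_coeff, ← h]
  push_cast
  ring

lemma E0_add (a b : LaurentSeries k) : E0 (a + b) = E0 a + E0 b := by
  ext m
  simp only [E0_coeff, HahnSeries.coeff_add]
  ring

lemma E0_int (n : ℤ) : E0 ((n : LaurentSeries k)) = 0 := by
  ext m
  rw [E0_coeff, ← map_intCast (HahnSeries.C (Γ := ℤ) (R := k)) n, HahnSeries.C_apply,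
    HahnSeries.coeff_single]
  split_ifs with h
  · rw [h]; simp
  · simp

/-- the Euler derivation -/
noncomputable def E : Derivation ℤ (LaurentSeries k) (LaurentSeries k) where
  toFun := E0
  map_add' := E0_add
  map_smul' n a := by
    rw [Algebra.smul_def, eq_intCast, E0_mul, E0_int, mul_zero, add_zero, RingHom.id_apply,
      zsmul_eq_mul]
  map_one_eq_zero' := by
    change E0 (1 : LaurentSeries k) = 0
    have h := E0_int (k := k) 1
    rwa [Int.cast_one] at h
  leibniz' a b := by
    change E0 (a * b) = a • E0 b + b • E0 a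
    rw [E0_mul, smul_eq_mul, smul_eq_mul]

lemma E_coeff (a : LaurentSeries k) (m : ℤ) : (E a).coeff m = (m : k) * a.coeff m := rfl

lemma res (u : LaurentSeries k) (hu : u ≠ 0) :
    (E u / u).coeff 0 = ((HahnSeries.order u : ℤ) : k) := by
  set m : ℤ := HahnSeries.order u with hm
  set w : LaurentSeries k := E u - HahnSeries.C ((m : ℤ) : k) * u with hw
  have hwc : ∀ j, w.coeff j = ((j : k) - (m : k)) * u.coeff j := by
    intro j
    rw [hw, HahnSeries.coeff_sub, E_coeff, HahnSeries.C_mul_eq_smul, HahnSeries.coeff_smul,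
      smul_eq_mul]
    ring
  have h1 : E u / u = HahnSeries.C ((m : ℤ) : k) + w / u := by
    rw [hw]; field_simp; ring
  rw [h1, HahnSeries.coeff_add]
  have h2 : (HahnSeries.C ((m : ℤ) : k) : LaurentSeries k).coeff 0 = (m : k) := by
    rw [HahnSeries.C_apply, HahnSeries.coeff_single_same]
  have h3 : (w / u).coeff 0 = 0 := by
    by_cases h0 : w = 0
    · rw [h0]; simp
    · have hq : w / u ≠ 0 := div_ne_zero h0 hu
      have h4 : (w / u) * u = w := div_mul_cancel₀ _ hu
      have h5 : HahnSeries.order (w / u) + m = HahnSeries.order w := by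
        rw [hm, ← HahnSeries.order_mul hq hu, h4]
      have h6 : m < HahnSeries.order w := by
        by_contra hle
        push Not at hle
        have h7 : w.coeff (HahnSeries.order w) ≠ 0 := HahnSeries.coeff_order_eq_zero.not.2 h0
        apply h7
        rw [hwc]
        rcases hle.eq_or_lt with h | h
        · rw [h]; ring
        · rw [HahnSeries.coeff_eq_zero_of_lt_order (x := u) (by rw [← hm]; exact h), mul_zero]
      apply HahnSeries.coeff_eq_zero_of_lt_order
      omega
  rw [h2, h3, add_zero]

end EulAux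

theorem eul_proof : Eul := by
  intro k _ _
  refine ⟨EulAux.E, EulAux.E_coeff, ?_⟩
  intro ι _ c u g hu h
  have h1 := congrArg (fun x : LaurentSeries k => x.coeff 0) h
  simp only [EulAux.E_coeff] at h1
  rw [Int.cast_zero, zero_mul] at h1
  rw [← h1]
  have h2 : ∀ (s : Finset ι) (f : ι → LaurentSeries k),
      (∑ i ∈ s, f i).coeff 0 = ∑ i ∈ s, (f i).coeff 0 := by
    intro s f
    exact map_sum (HahnSeries.coeff.addMonoidHom (0 : ℤ)) f s
  rw [h2]
  refine Finset.sum_congr rfl fun i _ => ?_
  rw [HahnSeries.C_mul_eq_smul, HahnSeries.coeff_smul, smul_eq_mul, EulAux.res (u i) (hu i)]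

end Pool.Agent.H33R4
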