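import Mathlib
import Pool.Agent.H33R4.Spec

set_option autoImplicit false

/-! EVZ: evaluation and zeros of power series over `ℤ_p` (helper477). -/

namespace Pool.Agent.H33R4

open Polynomial NumberField Pool.Agent.H637R2.Leo

namespace EVZaux

theorem dist {p : ℕ} [Fact p.Prime] {s : ℤ_[p]} (hs : (p : ℤ_[p]) ∣ s) :
    (X - C s : ℤ_[p][X]).IsDistinguishedAt (IsLocalRing.maximalIdeal ℤ_[p]) := by
  refine { mem := ?_, monic := monic_X_sub_C s }
  intro n hn
  rw [natDegree_X_sub_C] at hn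
  obtain rfl : n = 0 := by omega
  rw [PadicInt.maximalIdeal_eq_span_p, Ideal.mem_span_singleton]
  simpa using hs

theorem exists_eval {p : ℕ} [Fact p.Prime] {s : ℤ_[p]} (hs : (p : ℤ_[p]) ∣ s) :
    ∃ φ, IsEval p s φ := by
  let e := (dist hs).algEquivQuotient
  let q := quotientSpanXSubCAlgEquiv s
  let m : PowerSeries ℤ_[p] →ₐ[ℤ_[p]] (PowerSeries ℤ_[p] ⧸
      Ideal.span {((X - C s : ℤ_[p][X]) : PowerSeries ℤ_[p])}) := Ideal.Quotient.mkₐ ℤ_[p] _
  let φ : PowerSeries ℤ_[p] →ₐ[ℤ_[p]] ℤ_[p] := (q.toAlgHom.comp e.symm.toAlgHom).comp m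
  have hC : ∀ a, φ (PowerSeries.C a) = a := fun a => φ.commutes a
  have h0 : φ ((X - C s : ℤ_[p][X]) : PowerSeries ℤ_[p]) = 0 := by
    have : m ((X - C s : ℤ_[p][X]) : PowerSeries ℤ_[p]) = 0 := by
      have := Ideal.Quotient.eq_zero_iff_mem.mpr
        (Ideal.mem_span_singleton_self ((X - C s : ℤ_[p][X]) : PowerSeries ℤ_[p]))
      exact this
    show q (e.symm (m _)) = 0
    rw [this, map_zero, map_zero]
  refine ⟨φ.toRingHom, ?_, fun a => hC a⟩
  have h1 : ((X - C s : ℤ_[p][X]) : PowerSeries ℤ_[p]) = PowerSeries.X - PowerSeries.C s := by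
    simp
  rw [h1, map_sub, hC] at h0
  exact sub_eq_zero.mp h0

theorem eval_poly {p : ℕ} [Fact p.Prime] {s : ℤ_[p]} {φ : PowerSeries ℤ_[p] →+* ℤ_[p]}
    (h : IsEval p s φ) (P : ℤ_[p][X]) : φ (P : PowerSeries ℤ_[p]) = P.eval s := by
  have : φ.comp (Polynomial.coeToPowerSeries.ringHom) = Polynomial.evalRingHom s := by
    refine Polynomial.ringHom_ext (fun a => ?_) ?_
    · simp [h.2 a]
    · simp [h.1]
  exact congrArg (fun f : ℤ_[p][X] →+* ℤ_[p] => f P) this

theorem factor {p : ℕ} [Fact p.Prime] (h : PowerSeries ℤ_[p]) (hh : h ≠ 0) :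
    ∃ (a : ℕ) (h1 : PowerSeries ℤ_[p]), h = PowerSeries.C ((p : ℤ_[p]) ^ a) * h1 ∧
      h1.map (IsLocalRing.residue ℤ_[p]) ≠ 0 := by
  classical
  have hex : ∃ n, PowerSeries.coeff n h ≠ 0 := by
    by_contra hc
    push Not at hc
    exact hh (PowerSeries.ext fun n => by simpa using hc n)
  have hex2 : ∃ a n, PowerSeries.coeff n h ≠ 0 ∧ (PowerSeries.coeff n h).valuation = a := by
    obtain ⟨n, hn⟩ := hex
    exact ⟨_, n, hn, rfl⟩
  let a := Nat.find hex2
  obtain ⟨n₀, hn₀, hval⟩ := Nat.find_spec hex2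
  have hmin : ∀ n, PowerSeries.coeff n h ≠ 0 → a ≤ (PowerSeries.coeff n h).valuation := by
    intro n hn
    exact Nat.find_min' hex2 ⟨n, hn, rfl⟩
  have hdvd : ∀ n, (p : ℤ_[p]) ^ a ∣ PowerSeries.coeff n h := by
    intro n
    by_cases hn : PowerSeries.coeff n h = 0
    · rw [hn]
      exact dvd_zero _
    · have := (PadicInt.mem_span_pow_iff_le_valuation _ hn a).mpr (hmin n hn)
      rwa [Ideal.mem_span_singleton] at this
  choose c hc using hdvd
  refine ⟨a, PowerSeries.mk c, ?_, ?_⟩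
  · ext n
    rw [PowerSeries.coeff_C_mul, PowerSeries.coeff_mk]
    exact hc n
  · intro h0
    have h1 : IsLocalRing.residue ℤ_[p] (c n₀) = 0 := by
      have := congrArg (PowerSeries.coeff n₀) h0
      simpa using this
    rw [IsLocalRing.residue_eq_zero_iff, PadicInt.maximalIdeal_eq_span_p,
      Ideal.mem_span_singleton] at h1
    obtain ⟨d, hd⟩ := h1
    have h2 : PowerSeries.coeff n₀ h = (p : ℤ_[p]) ^ (a + 1) * d := by
      rw [hc n₀, hd, pow_succ, mul_assoc]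
    have h3 : a + 1 ≤ (PowerSeries.coeff n₀ h).valuation := by
      rw [← PadicInt.mem_span_pow_iff_le_valuation _ hn₀, Ideal.mem_span_singleton]
      exact ⟨d, h2⟩
    rw [hval] at h3
    exact absurd h3 (by simp [a])

end EVZaux

open EVZaux in
theorem evZ_proof : EvZ := by
  classical
  intro p _
  refine ⟨fun s hs => exists_eval hs, ?_⟩
  intro h hh
  obtain ⟨a, h1, hfac, hres⟩ := factor h hh
  obtain ⟨P, u, hW⟩ := PowerSeries.exists_isWeierstrassFactorization hres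
  have hP : P ≠ 0 := hW.isDistinguishedAt.monic.ne_zero
  refine (P.roots.toFinset.finite_toSet).subset ?_
  rintro s ⟨hs, φ, hφ, h0⟩
  have hp0 : ((p : ℤ_[p]) ^ a) ≠ 0 := pow_ne_zero _ (NeZero.ne _)
  rw [hfac, map_mul, hφ.2] at h0
  have h2 : φ h1 = 0 := (mul_eq_zero.mp h0).resolve_left hp0
  rw [hW.eq_mul, map_mul] at h2
  have h3 : φ u ≠ 0 := (hW.isUnit.map φ).ne_zero
  have h4 := (mul_eq_zero.mp h2).resolve_right h3
  rw [eval_poly hφ] at h4
  simp only [Finset.mem_coe, Multiset.mem_toFinset, Polynomial.mem_roots hP]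
  exact h4

end Pool.Agent.H33R4
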