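import Mathlib
import Pool.Agent.H33R4.Spec

set_option autoImplicit false

namespace Pool.Agent.H33R4

open Polynomial NumberField

lemma spec_map {A B : Type} [CommRing A] [CommRing B] (φ : A →+* B) (x : A) (P : ℤ[X][X]) :
    (spec x P).map φ = spec (φ x) P := by
  unfold spec
  rw [Polynomial.map_map]
  congr 1
  apply Polynomial.ringHom_ext
  · intro a; simp
  · simp

lemma spec_monic {A : Type} [CommRing A] (x : A) {P : ℤ[X][X]} (h : P.Monic) : (spec x P).Monic :=
  h.map _

lemma ev2_map {A B : Type} [CommRing A] [CommRing B] (φ : A →+* B) (x y : A) (P : ℤ[X][X]) :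
    φ (ev2 x y P) = ev2 (φ x) (φ y) P := by
  unfold ev2
  rw [← spec_map φ, Polynomial.eval_map, Polynomial.eval₂_at_apply]

lemma ev2_add {A : Type} [CommRing A] (x y : A) (P Q : ℤ[X][X]) :
    ev2 x y (P + Q) = ev2 x y P + ev2 x y Q := by
  simp [ev2, spec]

lemma ev2_mul {A : Type} [CommRing A] (x y : A) (P Q : ℤ[X][X]) :
    ev2 x y (P * Q) = ev2 x y P * ev2 x y Q := by
  simp [ev2, spec]

lemma ev2_C {A : Type} [CommRing A] (x y : A) (P : ℤ[X]) :
    ev2 x y (C P) = P.eval₂ (Int.castRingHom A) x := by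
  unfold ev2 spec
  rw [Polynomial.map_C, Polynomial.eval_C]
  rfl

lemma ev2_X {A : Type} [CommRing A] (x y : A) : ev2 x y X = y := by
  simp [ev2, spec]

lemma ev2_one {A : Type} [CommRing A] (x y : A) : ev2 x y 1 = 1 := by
  simp [ev2, spec]

lemma ev2_mem {Ω : Type} [Field Ω] (K : Subfield Ω) {T y : Ω} (hT : T ∈ K) (hy : y ∈ K)
    (P : ℤ[X][X]) : ev2 T y P ∈ K := by
  have := ev2_map K.subtype ⟨T, hT⟩ ⟨y, hy⟩ P
  rw [show T = K.subtype ⟨T, hT⟩ from rfl, show y = K.subtype ⟨y, hy⟩ from rfl, ← this]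
  exact (ev2 (⟨T, hT⟩ : K) ⟨y, hy⟩ P).2

/-- the derivative of a polynomial in `T` -/
lemma D_eval {Ω : Type} [Field Ω] (D : Derivation ℤ Ω Ω) (T : Ω) (P : ℤ[X]) :
    D (P.eval₂ (Int.castRingHom Ω) T) = P.derivative.eval₂ (Int.castRingHom Ω) T * D T := by
  induction P using Polynomial.induction_on' with
  | add p q hp hq => simp only [Polynomial.eval₂_add, map_add, hp, hq, add_mul]
  | monomial n a =>
    simp only [Polynomial.eval₂_monomial, Polynomial.derivative_monomial, Derivation.leibniz,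
      Derivation.leibniz_pow, smul_eq_mul, eq_intCast, nsmul_eq_mul]
    have : D ((a : Ω)) = 0 := D.map_intCast a
    rw [this]
    push_cast
    ring

lemma D_ev2 {Ω : Type} [Field Ω] (D : Derivation ℤ Ω Ω) (K : Subfield Ω) {T y : Ω} (hT : T ∈ K)
    (hy : y ∈ K) (hDT : D T ∈ K) (P : ℤ[X][X]) :
    D (ev2 T y P) - ev2 T y (derivative P) * D y ∈ K := by
  induction P using Polynomial.induction_on' with
  | add p q hp hq =>
    rw [Polynomial.derivative_add, ev2_add, ev2_add, map_add]
    have := K.add_mem hp hq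
    convert this using 1
    ring
  | monomial n a =>
    have h1 : ∀ (m : ℕ) (b : ℤ[X]), ev2 T y (monomial m b) = b.eval₂ (Int.castRingHom Ω) T * y ^ m := by
      intro m b
      rw [← Polynomial.C_mul_X_pow_eq_monomial, ev2_mul, ev2_C]
      congr 1
      simp [ev2, spec]
    rw [Polynomial.derivative_monomial, h1, h1]
    simp only [Derivation.leibniz, Derivation.leibniz_pow, smul_eq_mul, nsmul_eq_mul]
    rw [D_eval, Polynomial.eval₂_mul, Polynomial.eval₂_natCast]
    have h2 : a.eval₂ (Int.castRingHom Ω) T * (n * (y ^ (n - 1) * D y))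
        + y ^ n * (a.derivative.eval₂ (Int.castRingHom Ω) T * D T)
        - a.eval₂ (Int.castRingHom Ω) T * n * y ^ (n - 1) * D y
        = y ^ n * (a.derivative.eval₂ (Int.castRingHom Ω) T * D T) := by ring
    rw [h2]
    have h3 : ∀ b : ℤ[X], b.eval₂ (Int.castRingHom Ω) T ∈ K := by
      intro b
      have := ev2_mem K hT hy (C b)
      rwa [ev2_C] at this
    exact K.mul_mem (K.pow_mem hy n) (K.mul_mem (h3 _) hDT)


/-- formal part, step 1: the linear algebra around `LemA` -/
lemma no_rel (hA : LemA) {Ω : Type} [Field Ω] [CharZero Ω] (D : Derivation ℤ Ω Ω) (K : Subfield Ω)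
    (hK : ∀ x ∈ K, D x ∈ K) (hC : ∀ x, D x = 0 → x ∈ K) {r n : ℕ} (y : Fin r → Fin n → Ω)
    (hy : ∀ i j, D (y i j) ∈ K) (lam : Fin r → Fin n → ℤ)
    (hlam : ∀ c : Fin r × Fin n → Ω, (∀ i, D (c i) = 0) → ∑ i, c i * y i.1 i.2 ∈ K →
      ∑ i, c i * (lam i.1 i.2 : Ω) = 0)
    (hrank : LinearIndependent ℚ (fun i j => (lam i j : ℚ)))
    (h : Fin r → Ω) (hh : ∀ j, ∑ i, h i * y i j = 0) : h = 0 := by
  by_contra hne
  -- right inverse of `lam`
  set f : (Fin r → ℚ) →ₗ[ℚ] (Fin n → ℚ) := Fintype.linearCombination ℚ (fun i j => (lam i j : ℚ)) with hf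
  have h3 : LinearMap.ker f = ⊥ := by
    have h2 := hrank
    rw [Fintype.linearIndependent_iff] at h2
    rw [LinearMap.ker_eq_bot']
    intro c hc
    rw [hf, Fintype.linearCombination_apply] at hc
    exact funext (h2 c hc)
  obtain ⟨g, hg⟩ := LinearMap.exists_leftInverse_of_injective f h3
  have h4 : ∀ i l, ∑ j, (lam i j : ℚ) * g (Pi.single j 1) l = if i = l then 1 else 0 := by
    intro i l
    have h5 := congrFun (congrArg (fun φ => φ (Pi.single i (1 : ℚ))) hg) l
    simp only [LinearMap.comp_apply, LinearMap.id_apply] at h5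
    have h6 : f (Pi.single i (1 : ℚ)) = ∑ j, (lam i j : ℚ) • (Pi.single j (1 : ℚ) : Fin n → ℚ) := by
      rw [hf, Fintype.linearCombination_apply_single, one_smul]
      funext k
      rw [Finset.sum_apply]
      simp [Pi.single_apply]
    rw [h6, map_sum, Finset.sum_apply] at h5
    simp only [map_smul, Pi.smul_apply, smul_eq_mul] at h5
    rw [h5, Pi.single_apply]
    by_cases h : i = l
    · simp [h]
    · simp [h, Ne.symm h]
  set G : Fin n → Fin r → ℚ := fun j l => g (Pi.single j 1) l with hG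
  set P : MvPolynomial (Fin r × Fin n) ℚ :=
    (Matrix.of fun (i l : Fin r) => ∑ j, MvPolynomial.X (i, j) * MvPolynomial.C (G j l)).det with hP
  have hPhom : P.IsHomogeneous r := by
    rw [hP, Matrix.det_apply]
    apply MvPolynomial.IsHomogeneous.sum
    intro σ _
    have h5 : (∏ i, (Matrix.of fun (i l : Fin r) => ∑ j, (MvPolynomial.X (i, j) : MvPolynomial (Fin r × Fin n) ℚ) * MvPolynomial.C (G j l)) (σ i) i).IsHomogeneous (∑ _i : Fin r, 1) := by
      apply MvPolynomial.IsHomogeneous.prod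
      intro i _
      simp only [Matrix.of_apply]
      apply MvPolynomial.IsHomogeneous.sum
      intro j _
      have := (MvPolynomial.isHomogeneous_X ℚ ((σ i, j) : Fin r × Fin n)).mul (MvPolynomial.isHomogeneous_C (Fin r × Fin n) (G j i))
      simpa using this
    have h6 : (∑ _i : Fin r, 1) = r := by simp
    rw [h6] at h5
    rcases Int.units_eq_one_or (Equiv.Perm.sign σ) with h7 | h7
    · rw [h7, one_smul]; exact h5
    · rw [h7, Units.neg_smul, one_smul]; exact h5.neg
  have hval : ∀ (A : Type) [CommRing A] [Algebra ℚ A] (z : Fin r × Fin n → A),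
      MvPolynomial.aeval z P = (Matrix.of fun (i l : Fin r) => ∑ j, z (i, j) * algebraMap ℚ A (G j l)).det := by
    intro A _ _ z
    rw [hP, AlgHom.map_det]
    congr 1
    ext i l
    simp [Matrix.map_apply]
  have h0 : MvPolynomial.aeval (fun i : Fin r × Fin n => y i.1 i.2) P = 0 := by
    rw [hval]
    apply Matrix.exists_vecMul_eq_zero_iff.1
    refine ⟨h, hne, ?_⟩
    funext l
    simp only [Matrix.vecMul, dotProduct, Matrix.of_apply, Pi.zero_apply]
    have h8 : ∀ i, h i * ∑ j, y i j * algebraMap ℚ Ω (G j l) = ∑ j, (h i * y i j) * algebraMap ℚ Ω (G j l) := by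
      intro i
      rw [Finset.mul_sum]
      refine Finset.sum_congr rfl fun j _ => by ring
    rw [Finset.sum_congr rfl fun i _ => h8 i, Finset.sum_comm]
    apply Finset.sum_eq_zero
    intro j _
    rw [← Finset.sum_mul, hh j, zero_mul]
  have h1 := hA Ω D K hK hC (Fin r × Fin n) (fun i => y i.1 i.2) (fun i => hy _ _)
    (fun i => lam i.1 i.2) hlam r P hPhom h0
  rw [hval] at h1
  have h2 : (Matrix.of fun (i l : Fin r) => ∑ j, ((lam i j : ℤ) : ℚ) * algebraMap ℚ ℚ (G j l)) = 1 := by
    ext i l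
    rw [Matrix.of_apply, Matrix.one_apply]
    exact h4 i l
  rw [h2, Matrix.det_one] at h1
  exact one_ne_zero h1

end Pool.Agent.H33R4
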