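import Mathlib
import Pool.Agent.H33R4.Form

set_option autoImplicit false

namespace Pool.Agent.H33R4

open Polynomial NumberField

/-- the parameter `t₁ + p s` in `ℤ_p[[s]]` -/
noncomputable def par (p : ℕ) [Fact p.Prime] (t₁ : ℤ) : PowerSeries ℤ_[p] :=
  (t₁ : PowerSeries ℤ_[p]) + (p : PowerSeries ℤ_[p]) * PowerSeries.X

lemma par_map (p : ℕ) [Fact p.Prime] (t₁ : ℤ) {S : Type} [CommRing S] (φ : PowerSeries ℤ_[p] →+* S) :
    φ (par p t₁) = (t₁ : S) + (p : S) * φ PowerSeries.X := by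
  unfold par
  rw [map_add, map_mul, map_intCast, map_natCast]

lemma exists_exponent (p : ℕ) [Fact p.Prime] (f : ℤ[X][X]) (hf : f.Monic) (t₁ : ℤ) (r : ℕ)
    (u w : Fin r → ℤ[X][X]) (huw : ∀ i, f ∣ u i * w i - 1) :
    ∃ M : ℕ, 0 < M ∧ ∀ i, (p : AdjoinRoot (spec (par p t₁) f)) ∣
      (AdjoinRoot.mk (spec (par p t₁) f) (spec (par p t₁) (u i))) ^ M - 1 := by
  set B := AdjoinRoot (spec (par p t₁) f) with hB
  set I : Ideal B := Ideal.span {(p : B)} with hI
  let q : B →+* B ⧸ I := Ideal.Quotient.mk I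
  have hqp : q (p : B) = 0 := Ideal.Quotient.eq_zero_iff_mem.2 (Ideal.mem_span_singleton_self _)
  have hp0 : ∀ a ∈ Ideal.span {(p : ℤ)}, (Int.castRingHom (B ⧸ I)) a = 0 := by
    intro a ha
    rw [Ideal.mem_span_singleton] at ha
    obtain ⟨b, rfl⟩ := ha
    rw [map_mul]
    have : (Int.castRingHom (B ⧸ I)) (p : ℤ) = 0 := by
      have h1 : q ((p : ℕ) : B) = ((p : ℕ) : B ⧸ I) := map_natCast q p
      simp only [map_natCast]
      rw [← h1, hqp]
    rw [this, zero_mul]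
  let c : ZMod p →+* B ⧸ I := (Ideal.Quotient.lift (Ideal.span {(p : ℤ)}) (Int.castRingHom (B ⧸ I)) hp0).comp
    (Int.quotientSpanNatEquivZMod p).symm.toRingHom
  have hq : ∀ P : ℤ[X][X], q (AdjoinRoot.mk _ (spec (par p t₁) P))
      = ev2 ((t₁ : ℤ) : B ⧸ I) (q (AdjoinRoot.root _)) P := by
    intro P
    have h1 : AdjoinRoot.mk (spec (par p t₁) f) (spec (par p t₁) P)
        = ev2 (AdjoinRoot.of (spec (par p t₁) f) (par p t₁)) (AdjoinRoot.root _) P := by
      unfold ev2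
      rw [← spec_map, Polynomial.eval_map]
      conv_rhs => rw [← AdjoinRoot.lift_mk (f := spec (par p t₁) f) (i := AdjoinRoot.of (spec (par p t₁) f))
        (a := AdjoinRoot.root (spec (par p t₁) f)) (AdjoinRoot.eval₂_root _)]
      have h2 : AdjoinRoot.lift (AdjoinRoot.of (spec (par p t₁) f)) (AdjoinRoot.root (spec (par p t₁) f))
        (AdjoinRoot.eval₂_root _) = RingHom.id _ := by
        apply AdjoinRoot.ringHom_ext
        · ext a; simp
        · simp
      rw [h2, RingHom.id_apply]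
    rw [h1, ev2_map]
    congr 1
    rw [par_map, map_add, map_mul, map_intCast]
    have h3 : q ((p : ℕ) : B) = 0 := hqp
    rw [h3, zero_mul, add_zero]
  have hc : c ((t₁ : ℤ) : ZMod p) = ((t₁ : ℤ) : B ⧸ I) := map_intCast c t₁
  set f0 : (ZMod p)[X] := spec ((t₁ : ℤ) : ZMod p) f with hf0
  have hf0m : f0.Monic := spec_monic _ hf
  have hlift : f0.eval₂ c (q (AdjoinRoot.root _)) = 0 := by
    rw [← Polynomial.eval_map, hf0, spec_map, hc]
    have := hq f
    rw [AdjoinRoot.mk_self, map_zero] at this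
    exact this.symm
  let ψ : AdjoinRoot f0 →+* B ⧸ I := AdjoinRoot.lift c _ hlift
  have hψ : ∀ P : ℤ[X][X], ψ (AdjoinRoot.mk f0 (spec ((t₁ : ℤ) : ZMod p) P))
      = q (AdjoinRoot.mk _ (spec (par p t₁) P)) := by
    intro P
    rw [hq]
    show AdjoinRoot.lift c _ hlift _ = _
    rw [AdjoinRoot.lift_mk, ← Polynomial.eval_map, spec_map, hc]
    rfl
  have _ : Module.Finite (ZMod p) (AdjoinRoot f0) := hf0m.finite_adjoinRoot
  have _ : Finite (AdjoinRoot f0) := Module.finite_of_finite (ZMod p)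
  have _ : Finite (AdjoinRoot f0)ˣ := inferInstance
  refine ⟨Nat.card (AdjoinRoot f0)ˣ, Nat.card_pos, fun i => ?_⟩
  -- the unit
  have hmul : AdjoinRoot.mk f0 (spec ((t₁ : ℤ) : ZMod p) (u i))
      * AdjoinRoot.mk f0 (spec ((t₁ : ℤ) : ZMod p) (w i)) = 1 := by
    obtain ⟨g, hg⟩ := huw i
    have h1 : u i * w i = f * g + 1 := by rw [← hg]; ring
    have h2 := congrArg (fun P => AdjoinRoot.mk f0 (spec ((t₁ : ℤ) : ZMod p) P)) h1
    simp only [spec, Polynomial.map_mul, Polynomial.map_add, Polynomial.map_one, map_mul, map_add,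
      map_one] at h2
    have h3 : AdjoinRoot.mk f0 (Polynomial.map (Polynomial.eval₂RingHom (Int.castRingHom (ZMod p)) ((t₁ : ℤ) : ZMod p)) f) = 0 := by
      rw [AdjoinRoot.mk_eq_zero]
      exact dvd_rfl
    rw [h3, zero_mul, zero_add] at h2
    exact h2
  let U : (AdjoinRoot f0)ˣ := ⟨_, _, hmul, by rw [mul_comm]; exact hmul⟩
  have hU : U ^ Nat.card (AdjoinRoot f0)ˣ = 1 := pow_card_eq_one'
  have hU2 : (AdjoinRoot.mk f0 (spec ((t₁ : ℤ) : ZMod p) (u i))) ^ Nat.card (AdjoinRoot f0)ˣ = 1 := by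
    have := congrArg Units.val hU
    rw [Units.val_pow_eq_pow_val, Units.val_one] at this
    exact this
  have h4 := congrArg ψ hU2
  rw [map_pow, hψ, map_one, ← map_pow, ← sub_eq_zero, ← map_one q, ← map_sub] at h4
  exact Ideal.mem_span_singleton.1 (Ideal.Quotient.eq_zero_iff_mem.1 h4)

end Pool.Agent.H33R4
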