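import Mathlib
import Pool.Agent.H33R4.Form

set_option autoImplicit false

namespace Pool.Agent.H33R4

open Polynomial NumberField

lemma inj_of_der {Ω : Type} [Field Ω] [CharZero Ω] (D : Derivation ℤ Ω Ω) (T : Ω) (hT : D T ≠ 0) :
    Function.Injective (Polynomial.eval₂RingHom (Int.castRingHom Ω) T) := by
  rw [injective_iff_map_eq_zero]
  intro P hP
  by_contra hne
  -- minimal degree
  have hex : ∃ n, ∃ P : ℤ[X], P ≠ 0 ∧ P.eval₂ (Int.castRingHom Ω) T = 0 ∧ P.natDegree = n :=
    ⟨_, P, hne, hP, rfl⟩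
  classical
  obtain ⟨Q, hQ0, hQ, hQd⟩ := Nat.find_spec hex
  have hmin := fun m hm => Nat.find_min hex (m := m) hm
  have h1 := D_eval D T Q
  rw [hQ, map_zero] at h1
  have h2 : Q.derivative.eval₂ (Int.castRingHom Ω) T = 0 := by
    rcases mul_eq_zero.1 h1.symm with h | h
    · exact h
    · exact absurd h hT
  by_cases hd : Q.natDegree = 0
  · rw [Polynomial.eq_C_of_natDegree_eq_zero hd, Polynomial.eval₂_C] at hQ
    apply hQ0
    rw [Polynomial.eq_C_of_natDegree_eq_zero hd]
    have : Q.coeff 0 = 0 := by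
      have h3 : ((Q.coeff 0 : ℤ) : Ω) = 0 := hQ
      exact_mod_cast h3
    rw [this, Polynomial.C_0]
  · have h3 : Q.derivative.natDegree < Q.natDegree := Polynomial.natDegree_derivative_lt hd
    apply hmin Q.derivative.natDegree (by rw [← hQd]; exact h3)
    refine ⟨Q.derivative, ?_, h2, rfl⟩
    intro h4
    exact hd (Polynomial.derivative_eq_zero.1 h4)

/-- separability transfers between two transcendental specialisations -/
lemma sep_transfer {Ω Ω' : Type} [Field Ω] [Field Ω'] {T : Ω} {T' : Ω'}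
    (hT : Function.Injective (Polynomial.eval₂RingHom (Int.castRingHom Ω) T))
    (hT' : Function.Injective (Polynomial.eval₂RingHom (Int.castRingHom Ω') T'))
    (f : ℤ[X][X]) (h : (spec T f).Separable) : (spec T' f).Separable := by
  have e1 : spec T f = (f.map (algebraMap ℤ[X] (FractionRing ℤ[X]))).map
      (IsFractionRing.lift hT : FractionRing ℤ[X] →+* Ω) := by
    unfold spec
    rw [Polynomial.map_map]
    congr 1
    ext x
    · simp
    · simp
  have e2 : spec T' f = (f.map (algebraMap ℤ[X] (FractionRing ℤ[X]))).map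
      (IsFractionRing.lift hT' : FractionRing ℤ[X] →+* Ω') := by
    unfold spec
    rw [Polynomial.map_map]
    congr 1
    ext x
    · simp
    · simp
  rw [e1, Polynomial.separable_map] at h
  rw [e2, Polynomial.separable_map]
  exact h

lemma exists_enum {α : Type} (s : Multiset α) (n : ℕ) (hs : s.card = n) :
    ∃ θ : Fin n → α, s = Multiset.map θ Finset.univ.val := by
  obtain ⟨l, rfl⟩ : ∃ l : List α, (l : Multiset α) = s := Quotient.exists_rep s
  rw [Multiset.coe_card] at hs
  subst hs
  refine ⟨fun i => l.get i, ?_⟩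
  have : (Finset.univ : Finset (Fin l.length)).val = (List.finRange l.length : Multiset _) := rfl
  rw [this, Multiset.map_coe]
  simp

/-- a subfield generated by a set on which `D` has values in it is stable under `D` -/
lemma closure_stable {Ω : Type} [Field Ω] (D : Derivation ℤ Ω Ω) (S : Set Ω)
    (hS : ∀ x ∈ S, D x ∈ Subfield.closure S) : ∀ x ∈ Subfield.closure S, D x ∈ Subfield.closure S := by
  intro x hx
  induction hx using Subfield.closure_induction with
  | mem x hx => exact hS x hx
  | one => rw [D.map_one_eq_zero]; exact zero_mem _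
  | add x y hx hy h1 h2 => rw [map_add]; exact add_mem h1 h2
  | neg x hx h1 => rw [map_neg]; exact neg_mem h1
  | inv x hx h1 =>
    rw [Derivation.leibniz_inv]
    simp only [smul_eq_mul]
    exact mul_mem (neg_mem (pow_mem (inv_mem hx) _)) h1
  | mul x y hx hy h1 h2 =>
    rw [Derivation.leibniz]
    simp only [smul_eq_mul]
    exact add_mem (mul_mem hx h2) (mul_mem hy h1)


/-- the embedding of `ℤ_p[[s]]` into Laurent series over `ℚ_p` -/
noncomputable def j0 (p : ℕ) [Fact p.Prime] : PowerSeries ℤ_[p] →+* LaurentSeries ℚ_[p] :=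
  (HahnSeries.ofPowerSeries ℤ ℚ_[p]).comp (PowerSeries.map (algebraMap ℤ_[p] ℚ_[p]))

lemma j0_inj (p : ℕ) [Fact p.Prime] : Function.Injective (j0 p) := by
  have h1 : Function.Injective (HahnSeries.ofPowerSeries ℤ ℚ_[p]) :=
    HahnSeries.ofPowerSeries_injective
  have h2 : Function.Injective (PowerSeries.map (algebraMap ℤ_[p] ℚ_[p])) := by
    intro a b hab
    ext m
    have := congrArg (PowerSeries.coeff m) hab
    rw [PowerSeries.coeff_map, PowerSeries.coeff_map] at this
    exact_mod_cast (IsFractionRing.injective ℤ_[p] ℚ_[p]) this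
  intro a b hab
  exact h2 (h1 hab)

/-- the derivation of `ℤ_p[[s]]` -/
noncomputable def dR (p : ℕ) [Fact p.Prime] : Derivation ℤ (PowerSeries ℤ_[p]) (PowerSeries ℤ_[p]) :=
  (PowerSeries.derivative ℤ_[p]).restrictScalars ℤ

lemma ops_coeff (k : Type) [Field k] (b : PowerSeries k) (m : ℤ) :
    (HahnSeries.ofPowerSeries ℤ k b).coeff m = if m < 0 then 0 else PowerSeries.coeff m.natAbs b :=
  PowerSeries.coeff_coe b m

lemma j0_coeff (p : ℕ) [Fact p.Prime] (a : PowerSeries ℤ_[p]) (m : ℤ) :
    (j0 p a).coeff m = if m < 0 then 0 else algebraMap ℤ_[p] ℚ_[p] (PowerSeries.coeff m.natAbs a) := by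
  have h := ops_coeff ℚ_[p] (PowerSeries.map (algebraMap ℤ_[p] ℚ_[p]) a) m
  rw [PowerSeries.coeff_map] at h
  rw [← h]
  rfl

lemma exists_DQ (hE : Eul) (p : ℕ) [Fact p.Prime] :
    ∃ D : Derivation ℤ (LaurentSeries ℚ_[p]) (LaurentSeries ℚ_[p]), ∀ a, D (j0 p a) = j0 p (dR p a) := by
  obtain ⟨E, hE1, _⟩ := hE ℚ_[p]
  refine ⟨(HahnSeries.single (-1 : ℤ) (1 : ℚ_[p])) • E, fun a => ?_⟩
  have h1 : E (j0 p a) = j0 p (PowerSeries.X * dR p a) := by
    ext m
    rw [hE1, j0_coeff, j0_coeff]
    split_ifs with hm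
    · simp
    · obtain ⟨k, rfl⟩ := Int.eq_ofNat_of_zero_le (not_lt.1 hm)
      rw [Int.natAbs_natCast]
      cases k with
      | zero => simp
      | succ k =>
        rw [mul_comm PowerSeries.X, PowerSeries.coeff_succ_mul_X]
        have : PowerSeries.coeff k (dR p a) = PowerSeries.coeff (k + 1) a * (k + 1) := by
          show PowerSeries.coeff k (PowerSeries.derivative ℤ_[p] a) = _
          rw [PowerSeries.coeff_derivative]
        rw [this, map_mul]
        push_cast
        simp [mul_comm]
  rw [Derivation.smul_apply, h1, map_mul, smul_eq_mul, ← mul_assoc]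
  have h2 : (HahnSeries.single (-1 : ℤ) (1 : ℚ_[p])) * j0 p PowerSeries.X = 1 := by
    have : j0 p PowerSeries.X = HahnSeries.single (1 : ℤ) (1 : ℚ_[p]) := by
      unfold j0
      rw [RingHom.comp_apply, PowerSeries.map_X]
      exact HahnSeries.ofPowerSeries_X
    rw [this, HahnSeries.single_mul_single]
    simp
  rw [h2, one_mul]

end Pool.Agent.H33R4
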