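import Mathlib
import Pool.Agent.H33R4.Form2

set_option autoImplicit false

namespace Pool.Agent.H33R4

open Polynomial NumberField

lemma exists_der {Q : Type} [CommRing Q] (d : Q → Q) (hadd : ∀ a b, d (a + b) = d a + d b)
    (hmul : ∀ a b, d (a * b) = a * d b + b * d a) : ∃ D : Derivation ℤ Q Q, ∀ a, D a = d a := by
  have h0 : d 0 = 0 := by
    have := hadd 0 0
    rw [add_zero] at this
    exact (left_eq_add.1 this)
  refine ⟨Derivation.mk' (AddMonoidHom.toIntLinearMap ⟨⟨d, h0⟩, hadd⟩) ?_, fun a => rfl⟩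
  intro a b
  exact hmul a b

lemma exists_Q (hE : Eul) (p : ℕ) [Fact p.Prime] :
    ∃ (Q : Type) (_ : Field Q) (_ : CharZero Q) (D : Derivation ℤ Q Q)
      (j : PowerSeries ℤ_[p] →+* Q), Function.Injective j ∧ ∀ a, D (j a) = j (dR p a) := by
  obtain ⟨DQ, hDQ⟩ := exists_DQ hE p
  obtain ⟨D, hD⟩ := exists_der (Q := LaurentSeries ℚ_[p]) (fun a => DQ a) (fun a b => map_add DQ a b)
    (fun a b => DQ.leibniz a b)
  refine ⟨LaurentSeries ℚ_[p], inferInstance,
    charZero_of_injective_algebraMap (algebraMap ℚ_[p] (LaurentSeries ℚ_[p])).injective, D, j0 p,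
    j0_inj p, fun a => ?_⟩
  rw [hD]
  exact hDQ a

lemma exists_Om {Q : Type} [Field Q] [CharZero Q] (DQ : Derivation ℤ Q Q) (G : Q[X]) :
    ∃ (Ω : Type) (_ : Field Ω) (_ : CharZero Ω) (D : Derivation ℤ Ω Ω) (i : Q →+* Ω),
      (∀ a, D (i a) = i (DQ a)) ∧ (G.map i).Splits := by
  let Ω := SplittingField G
  let _ : Differential Q := ⟨DQ⟩
  let _ : Differential Ω := Differential.differentialFiniteDimensional Q Ω
  have _ : DifferentialAlgebra Q Ω := Differential.differentialAlgebraFiniteDimensional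
  refine ⟨Ω, inferInstance, charZero_of_injective_algebraMap (algebraMap Q Ω).injective,
    Differential.deriv, algebraMap Q Ω, fun a => deriv_algebraMap a, SplittingField.splits G⟩

lemma E_inj (hE : Eul) (F : Type) [Field F] [CharZero F] (e : ℕ) (he : 0 < e) :
    Function.Injective (Polynomial.eval₂RingHom (Int.castRingHom (LaurentSeries F))
      (HahnSeries.single (-(e : ℤ)) (1 : F))) := by
  obtain ⟨E, hE1, _⟩ := hE F
  have _ : CharZero (LaurentSeries F) :=
    charZero_of_injective_algebraMap (algebraMap F (LaurentSeries F)).injective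
  obtain ⟨D, hD⟩ := exists_der (Q := LaurentSeries F) (fun a => E a) (fun a b => map_add E a b)
    (fun a b => E.leibniz a b)
  apply inj_of_der D
  intro h3
  rw [hD] at h3
  have h4 := congrArg (fun z => HahnSeries.coeff z (-(e : ℤ))) h3
  simp only [hE1, HahnSeries.coeff_single_same, HahnSeries.coeff_zero, mul_one] at h4
  push_cast at h4
  rw [neg_eq_zero] at h4
  have : e = 0 := by exact_mod_cast h4
  omega

/-- The formal part: the logarithms of the units are linearly independent over `ℤ_p[[s]]`. -/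
theorem form (hA : LemA) (hR : Rel) (hE : Eul) (hD : DLog) (h1 : Good1)
    (p : ℕ) [Fact p.Prime] (n r : ℕ) (f : ℤ[X][X]) (hf : f.Monic) (u w : Fin r → ℤ[X][X])
    (huw : ∀ i, f ∣ u i * w i - 1) (F : Type) [Field F] [CharZero F] (e : ℕ) (he : 0 < e)
    (ϑ : Fin n → LaurentSeries F) (hinj : Function.Injective ϑ)
    (hsplit : spec (HahnSeries.single (-(e : ℤ)) (1 : F)) f = ∏ j, (X - C (ϑ j)))
    (hrank : LinearIndependent ℚ (fun (i : Fin r) (j : Fin n) =>
      ((HahnSeries.order (ev2 (HahnSeries.single (-(e : ℤ)) (1 : F)) (ϑ j) (u i)) : ℤ) : ℚ)))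
    (T₁ : PowerSeries ℤ_[p]) (hT₁ : dR p T₁ = p)
    (M : ℕ) (hM : 0 < M) (L : Fin r → AdjoinRoot (spec T₁ f))
    (hL : ∀ i, IsLog p ((AdjoinRoot.mk _ (spec T₁ (u i))) ^ M) (L i))
    (h : Fin r → PowerSeries ℤ_[p]) (hh : ∑ i, AdjoinRoot.of _ (h i) * L i = 0) : h = 0 := by
  have hp : p.Prime := Fact.out
  obtain ⟨Q, _, _, DQ, jQ, hjQ, hDQ⟩ := exists_Q hE p
  obtain ⟨Ω, _, _, D, iΩ, hDi, hsp0⟩ := exists_Om DQ ((spec T₁ f).map jQ)
  let j : PowerSeries ℤ_[p] →+* Ω := iΩ.comp jQ
  have hj : Function.Injective j := iΩ.injective.comp hjQ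
  have hDj : ∀ a, D (j a) = j (dR p a) := by
    intro a
    show D (iΩ (jQ a)) = _
    rw [hDi, hDQ]
    rfl
  let T : Ω := j T₁
  have hDT : D T = p := by
    show D (j T₁) = _
    rw [hDj, hT₁, map_natCast]
  have hDT0 : D T ≠ 0 := by
    rw [hDT]
    exact_mod_cast hp.ne_zero
  have hspec : (spec T₁ f).map j = spec T f := spec_map j T₁ f
  -- roots
  have hfn : f.natDegree = n := by
    have h2 : (spec (HahnSeries.single (-(e : ℤ)) (1 : F)) f).natDegree = f.natDegree :=
      hf.natDegree_map _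
    rw [← h2, hsplit, Polynomial.natDegree_prod_of_monic _ _ (fun j _ => monic_X_sub_C _)]
    simp
  have hmon : (spec T f).Monic := spec_monic _ hf
  have hsp : (spec T f).Splits := by
    rw [← hspec, ← Polynomial.map_map]
    exact hsp0
  have hcard : (spec T f).roots.card = n := by
    rw [← hsp.natDegree_eq_card_roots]
    rw [show (spec T f).natDegree = f.natDegree from hf.natDegree_map _, hfn]
  obtain ⟨θ, hθ⟩ := exists_enum _ n hcard
  have hprod : spec T f = ∏ j, (X - C (θ j)) := by
    have h2 := hsp.eq_prod_roots_of_monic hmon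
    rw [h2, hθ, Multiset.map_map]
    rfl
  have hroot : ∀ i, ev2 T (θ i) f = 0 := by
    intro i
    unfold ev2
    rw [hprod, Polynomial.eval_prod]
    exact Finset.prod_eq_zero (Finset.mem_univ i) (by simp)
  -- separability
  have hsep : (spec T f).Separable := by
    apply sep_transfer (E_inj hE F e he) (inj_of_der D T hDT0) f
    rw [hsplit]
    exact Polynomial.separable_prod_X_sub_C_iff.2 hinj
  obtain ⟨π, hπ⟩ := hR Ω D T p hp.pos hDT f hf n θ hprod F e he ϑ hinj hsplit
  -- the subfield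
  set K : Subfield Ω := Subfield.closure ({x : Ω | D x = 0} ∪ {T} ∪ Set.range θ) with hKdef
  have hC : ∀ x, D x = 0 → x ∈ K := fun x hx => Subfield.subset_closure (Or.inl (Or.inl hx))
  have hTK : T ∈ K := Subfield.subset_closure (Or.inl (Or.inr rfl))
  have hθK : ∀ i, θ i ∈ K := fun i => Subfield.subset_closure (Or.inr ⟨i, rfl⟩)
  have hDTK : D T ∈ K := by rw [hDT]; exact natCast_mem K p
  have hDθ : ∀ i, D (θ i) ∈ K := by
    intro i
    have h2 := D_ev2 D K hTK (hθK i) hDTK f
    rw [hroot i, map_zero, zero_sub] at h2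
    have h3 : ev2 T (θ i) (derivative f) ≠ 0 := by
      have h4 := hsep.eval₂_derivative_ne_zero (RingHom.id Ω) (x := θ i) (by
        rw [Polynomial.eval₂_id]; exact hroot i)
      rw [Polynomial.eval₂_id] at h4
      have h5 : derivative (spec T f) = spec T (derivative f) := by
        unfold spec
        rw [Polynomial.derivative_map]
      rw [h5] at h4
      exact h4
    have h4 : D (θ i) = -(-(ev2 T (θ i) (derivative f) * D (θ i))) * (ev2 T (θ i) (derivative f))⁻¹ := by
      field_simp
    rw [h4]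
    exact K.mul_mem (K.neg_mem h2) (K.inv_mem (ev2_mem K hTK (hθK i) _))
  have hK : ∀ x ∈ K, D x ∈ K := by
    apply closure_stable
    rintro x ((hx | hx) | ⟨i, rfl⟩)
    · rw [show D x = 0 from hx]; exact zero_mem _
    · rw [Set.mem_singleton_iff] at hx
      subst hx
      exact hDTK
    · exact hDθ i
  -- evaluation maps
  have hev : ∀ i, (spec T₁ f).eval₂ j (θ i) = 0 := by
    intro i
    rw [← Polynomial.eval_map, hspec]
    exact hroot i
  let σ : Fin n → (AdjoinRoot (spec T₁ f) →+* Ω) := fun i => AdjoinRoot.lift j (θ i) (hev i)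
  have hσof : ∀ i a, σ i (AdjoinRoot.of _ a) = j a := fun i a => AdjoinRoot.lift_of _
  have hσmk : ∀ i P, σ i (AdjoinRoot.mk _ (spec T₁ P)) = ev2 T (θ i) P := by
    intro i P
    show AdjoinRoot.lift j (θ i) (hev i) _ = _
    rw [AdjoinRoot.lift_mk, ← Polynomial.eval_map, spec_map]
    rfl
  have hune : ∀ i l, ev2 T (θ l) (u i) ≠ 0 := by
    intro i l h0
    obtain ⟨q, hq⟩ := huw i
    have h2 := congrArg (ev2 T (θ l)) hq
    rw [ev2_mul, hroot, zero_mul] at h2
    have h3 : ev2 T (θ l) (u i * w i - 1) = ev2 T (θ l) (u i) * ev2 T (θ l) (w i) - 1 := by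
      have h4 : u i * w i = (u i * w i - 1) + 1 := by ring
      have h5 := congrArg (ev2 T (θ l)) h4
      rw [ev2_add, ev2_one, ev2_mul] at h5
      rw [h5]; ring
    rw [h3, h0] at h2
    simp at h2
  -- logarithmic derivatives
  have hM0 : (M : Ω) ≠ 0 := by exact_mod_cast hM.ne'
  have hlog : ∀ i l, D (σ l (L i)) = M * (D (ev2 T (θ l) (u i)) / ev2 T (θ l) (u i)) := by
    intro i l
    obtain ⟨d', hd'⟩ := exists_der (Q := PowerSeries ℤ_[p]) (fun a => dR p a)
      (fun a b => map_add (dR p) a b) (fun a b => (dR p).leibniz a b)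
    have h2 := hD p hp (PowerSeries ℤ_[p]) (spec T₁ f) (spec_monic _ hf) (h1.2 p _ (h1.1 p))
      d' Ω j hj (by rw [hspec]; exact hsep) D (fun a => by rw [hd']; exact hDj a) (σ l) (hσof l)
      _ _ (hL i)
    rw [map_pow, hσmk, Derivation.leibniz_pow] at h2
    simp only [smul_eq_mul, nsmul_eq_mul] at h2
    have h3 := hune i l
    have h4 : (ev2 T (θ l) (u i)) ^ M = (ev2 T (θ l) (u i)) ^ (M - 1) * ev2 T (θ l) (u i) := by
      rw [← pow_succ]
      congr 1
      omega
    rw [h4] at h2
    have h5 : (ev2 T (θ l) (u i)) ^ (M - 1) ≠ 0 := pow_ne_zero _ h3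
    field_simp
    apply mul_left_cancel₀ h5
    linear_combination -h2
  have hy : ∀ i l, D (σ l (L i)) ∈ K := by
    intro i l
    rw [hlog]
    have h2 := ev2_mem K hTK (hθK l) (u i)
    exact K.mul_mem (natCast_mem K M) (K.div_mem (hK _ h2) h2)
  -- conclusion
  have hfin := no_rel hA D K hK hC (fun i l => σ l (L i)) hy
    (fun i l => HahnSeries.order (ev2 (HahnSeries.single (-(e : ℤ)) (1 : F)) (ϑ (π l)) (u i)))
    (by
      intro c hc hsum
      have h2 := hπ (Fin r × Fin n) (fun i => u i.1) (fun i => i.2) (fun i => hune i.1 i.2)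
        (fun i => M * c i) (fun i => by
          rw [Derivation.leibniz]
          simp only [smul_eq_mul]
          rw [hc i]
          have : D ((M : ℕ) : Ω) = 0 := D.map_natCast M
          rw [this]; ring) _ hsum (by
          rw [map_sum]
          refine Finset.sum_congr rfl fun i _ => ?_
          rw [Derivation.leibniz]
          simp only [smul_eq_mul]
          rw [hc i, hlog]
          ring)
      have h3 : (M : Ω) * ∑ i : Fin r × Fin n, c i * ((HahnSeries.order (ev2 (HahnSeries.single (-(e : ℤ)) (1 : F)) (ϑ (π i.2)) (u i.1)) : ℤ) : Ω) = 0 := by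
        rw [Finset.mul_sum, ← h2]
        refine Finset.sum_congr rfl fun i _ => by ring
      exact (mul_eq_zero.1 h3).resolve_left hM0)
    (by
      have h2 := hrank.map' (LinearEquiv.funCongrLeft ℚ ℚ π).toLinearMap
        (LinearEquiv.ker _)
      exact h2)
    (fun i => j (h i)) (by
      intro l
      have h2 := congrArg (σ l) hh
      rw [map_sum, map_zero] at h2
      rw [← h2]
      refine Finset.sum_congr rfl fun i _ => ?_
      rw [map_mul, hσof])
  funext i
  have h2 := congrFun hfin i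
  apply hj
  rw [Pi.zero_apply, map_zero]
  exact h2

end Pool.Agent.H33R4
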