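import Mathlib
import Pool.Agent.H33R4.Fin1
import Pool.Agent.H33R4.Form3

set_option autoImplicit false

namespace Pool.Agent.H33R4

open Polynomial NumberField Pool.Agent.H637R2.Leo

lemma dR_par (p : ℕ) [Fact p.Prime] (t₁ : ℤ) : dR p (par p t₁) = p := by
  unfold par
  rw [map_add, Derivation.leibniz, Derivation.map_natCast, Derivation.map_intCast]
  simp only [smul_eq_mul]
  have : dR p PowerSeries.X = 1 := PowerSeries.derivative_X (R := ℤ_[p])
  rw [this]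
  ring

/-- `t` is bad for `f`, rank `r` and `p` -/
def Bad (p : ℕ) [Fact p.Prime] (n r : ℕ) (f : ℤ[X][X]) (t : ℤ) : Prop :=
  ∃ (K : Type) (_ : Field K) (_ : NumberField K) (θ : K), aeval θ (spec t f) = 0 ∧
    Module.finrank ℚ K = n ∧ IntermediateField.adjoin ℚ {θ} = ⊤ ∧ Units.rank K = r ∧
    ¬ Leopoldt K p

/-- PartB for a propositionally equal polynomial -/
lemma partB' (hPB : PartB) (p : ℕ) [Fact p.Prime] (g : ℤ[X]) (hg : g.Monic) (r : ℕ)
    (U W : Fin r → ℤ[X]) (hUW : ∀ i, g ∣ U i * W i - 1) (K : Type) [Field K] [NumberField K] (θ : K)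
    (hθ : aeval θ g = 0) (hd : Module.finrank ℚ K = g.natDegree)
    (hgen : IntermediateField.adjoin ℚ {θ} = ⊤) (hr : Units.rank K = r) (hL : ¬ Leopoldt K p)
    (M : ℕ) (hM : 0 < M) (G : ℤ_[p][X]) (hG : G = g.map (Int.castRingHom ℤ_[p]))
    (l : Fin r → AdjoinRoot G)
    (hl : ∀ i, IsLog p ((AdjoinRoot.mk G ((U i).map (Int.castRingHom ℤ_[p]))) ^ M) (l i)) :
    ∃ w : Fin r → ℤ_[p], w ≠ 0 ∧ ∑ i, AdjoinRoot.of _ (w i) * l i = 0 := by
  subst hG
  exact hPB p g hg r U W hUW K θ hθ hd hgen hr hL M hM l hl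

theorem fin_class (hA : LemA) (hR : Rel) (hE : Eul) (hD : DLog) (h1 : Good1) (h2 : Good2)
    (hLE : LogEx) (hLB : LogB) (hZ : EvZ) (hDu : Dual) (hPB : PartB)
    (p : ℕ) [Fact p.Prime] (n r : ℕ) (f : ℤ[X][X]) (hf : f.Monic) (u w : Fin r → ℤ[X][X])
    (huw : ∀ i, f ∣ u i * w i - 1) (F : Type) [Field F] [CharZero F] (e : ℕ) (he : 0 < e)
    (ϑ : Fin n → LaurentSeries F) (hinj : Function.Injective ϑ)
    (hsplit : spec (HahnSeries.single (-(e : ℤ)) (1 : F)) f = ∏ j, (X - C (ϑ j)))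
    (hrank : LinearIndependent ℚ (fun (i : Fin r) (j : Fin n) =>
      ((HahnSeries.order (ev2 (HahnSeries.single (-(e : ℤ)) (1 : F)) (ϑ j) (u i)) : ℤ) : ℚ)))
    (t₁ : ℤ) : {t : ℤ | (p : ℤ) ^ 2 ∣ t - t₁ ∧ Bad p n r f t}.Finite := by
  have hp : p.Prime := Fact.out
  have hfn : f.natDegree = n := by
    have h2 : (spec (HahnSeries.single (-(e : ℤ)) (1 : F)) f).natDegree = f.natDegree :=
      hf.natDegree_map _
    rw [← h2, hsplit, Polynomial.natDegree_prod_of_monic _ _ (fun j _ => monic_X_sub_C _)]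
    simp
  set T₁ := par p t₁ with hT₁
  have hgood : PGood p (PowerSeries ℤ_[p]) := h1.2 p _ (h1.1 p)
  have hgoodB : PGood p (AdjoinRoot (spec T₁ f)) := h2 p _ _ (spec_monic _ hf) hgood
  obtain ⟨M, hM, hMu⟩ := exists_exponent p f hf t₁ r u w huw
  choose L hL using fun i => hLE p hp _ hgoodB _ (hMu i)
  obtain ⟨h, hh0, hh⟩ := hDu (PowerSeries ℤ_[p]) (spec T₁ f) (spec_monic _ hf) r L
    (fun h hh => form hA hR hE hD h1 p n r f hf u w huw F e he ϑ hinj hsplit hrank T₁ (dR_par p t₁)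
      M hM L hL h hh)
  have hfin := (hZ p).2 h hh0
  -- the map
  have hkey : ∀ t ∈ {t : ℤ | (p : ℤ) ^ 2 ∣ t - t₁ ∧ Bad p n r f t},
      ((((t - t₁) / p : ℤ)) : ℤ_[p]) ∈ {s : ℤ_[p] | (p : ℤ_[p]) ∣ s ∧ ∃ φ, IsEval p s φ ∧ φ h = 0} := by
    rintro t ⟨⟨m, hm⟩, K, _, _, θ, hθ, hKn, hgen, hKr, hL0⟩
    have hp0 : (p : ℤ) ≠ 0 := by exact_mod_cast hp.ne_zero
    have hs : (t - t₁) / p = p * m := by
      rw [hm, pow_two, mul_assoc, Int.mul_ediv_cancel_left _ hp0]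
    have hdvd : (p : ℤ_[p]) ∣ ((((t - t₁) / p : ℤ)) : ℤ_[p]) := by
      rw [hs]
      push_cast
      exact dvd_mul_right _ _
    obtain ⟨φ, hφ⟩ := (hZ p).1 _ hdvd
    refine ⟨hdvd, φ, hφ, ?_⟩
    have hφT : φ T₁ = ((t : ℤ) : ℤ_[p]) := by
      rw [hT₁, par_map, hφ.1, hs]
      have : t = t₁ + p * (p * m) := by
        have := hm
        rw [pow_two] at this
        linarith
      rw [this]
      push_cast
      ring
    have hmap : ∀ P : ℤ[X][X], (spec T₁ P).map φ = (spec t P).map (Int.castRingHom ℤ_[p]) := by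
      intro P
      rw [spec_map, spec_map, hφT]
      rfl
    obtain ⟨wv, hw0, hw⟩ := partB' hPB p (spec t f) (spec_monic _ hf) r (fun i => spec t (u i))
      (fun i => spec t (w i)) (fun i => by
        have := Polynomial.map_dvd (Polynomial.eval₂RingHom (Int.castRingHom ℤ) t) (huw i)
        simpa [spec] using this) K θ hθ
      (by rw [hKn, ← hfn]; exact (hf.natDegree_map _).symm) hgen hKr hL0 M hM
      ((spec T₁ f).map φ) (hmap f)
      (fun i => AdjoinRoot.map φ _ _ dvd_rfl (L i)) (fun i => by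
        have h3 := (hLB p hp _).2.2.2.1 _ (AdjoinRoot.map φ (spec T₁ f) ((spec T₁ f).map φ) dvd_rfl)
          _ _ (hL i)
        rw [map_pow, AdjoinRoot.map, AdjoinRoot.lift_mk] at h3
        have h4 : Polynomial.eval₂ ((AdjoinRoot.of ((spec T₁ f).map φ)).comp φ)
            (AdjoinRoot.root ((spec T₁ f).map φ)) (spec T₁ (u i))
            = AdjoinRoot.mk ((spec T₁ f).map φ) ((spec t (u i)).map (Int.castRingHom ℤ_[p])) := by
          rw [← hmap, ← Polynomial.eval₂_map]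
          exact AdjoinRoot.aeval_eq _
        rw [h4] at h3
        exact h3)
    obtain ⟨i, hi⟩ := Function.ne_iff.1 hw0
    have h5 := hh ℤ_[p] φ wv hw i
    exact (mul_eq_zero.1 h5).resolve_right hi
  refine Set.Finite.of_finite_image (f := fun t : ℤ => ((((t - t₁) / p : ℤ)) : ℤ_[p]))
    (hfin.subset ?_) ?_
  · rintro _ ⟨t, ht, rfl⟩
    exact hkey t ht
  · rintro t ⟨⟨m, hm⟩, _⟩ t' ⟨⟨m', hm'⟩, _⟩ heq
    have hp0 : (p : ℤ) ≠ 0 := by exact_mod_cast hp.ne_zero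
    simp only [Int.cast_inj] at heq
    rw [hm, hm', pow_two, mul_assoc, mul_assoc, Int.mul_ediv_cancel_left _ hp0,
      Int.mul_ediv_cancel_left _ hp0] at heq
    have : t - t₁ = t' - t₁ := by
      rw [hm, hm', pow_two, mul_assoc, mul_assoc, heq]
    linarith

theorem fin_all (hA : LemA) (hR : Rel) (hE : Eul) (hD : DLog) (h1 : Good1) (h2 : Good2)
    (hLE : LogEx) (hLB : LogB) (hZ : EvZ) (hDu : Dual) (hPB : PartB)
    (p : ℕ) [Fact p.Prime] (n r : ℕ) (f : ℤ[X][X]) (hf : f.Monic) (u w : Fin r → ℤ[X][X])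
    (huw : ∀ i, f ∣ u i * w i - 1) (F : Type) [Field F] [CharZero F] (e : ℕ) (he : 0 < e)
    (ϑ : Fin n → LaurentSeries F) (hinj : Function.Injective ϑ)
    (hsplit : spec (HahnSeries.single (-(e : ℤ)) (1 : F)) f = ∏ j, (X - C (ϑ j)))
    (hrank : LinearIndependent ℚ (fun (i : Fin r) (j : Fin n) =>
      ((HahnSeries.order (ev2 (HahnSeries.single (-(e : ℤ)) (1 : F)) (ϑ j) (u i)) : ℤ) : ℚ))) :
    {t : ℤ | Bad p n r f t}.Finite := by
  have hp : p.Prime := Fact.out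
  have hfin : (⋃ t₁ ∈ (Finset.range (p ^ 2)), {t : ℤ | (p : ℤ) ^ 2 ∣ t - (t₁ : ℤ) ∧ Bad p n r f t}).Finite := by
    apply Set.Finite.biUnion (Finset.finite_toSet _)
    intro t₁ _
    exact fin_class hA hR hE hD h1 h2 hLE hLB hZ hDu hPB p n r f hf u w huw F e he ϑ hinj hsplit
      hrank t₁
  refine hfin.subset ?_
  intro t ht
  simp only [Set.mem_iUnion]
  have hpos : (0 : ℤ) < (p : ℤ) ^ 2 := by
    have : (0 : ℤ) < p := by exact_mod_cast hp.pos
    positivity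
  refine ⟨(t % (p : ℤ) ^ 2).toNat, ?_, ?_, ht⟩
  · rw [Finset.mem_range]
    have h3 := Int.emod_lt_of_pos t hpos
    have h4 := Int.emod_nonneg t hpos.ne'
    zify
    rw [Int.toNat_of_nonneg h4]
    exact h3
  · rw [Int.toNat_of_nonneg (Int.emod_nonneg t hpos.ne')]
    exact Int.dvd_self_sub_emod

end Pool.Agent.H33R4
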