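import Mathlib
import Pool.Agent.H33R4.Spec

namespace Pool.Agent.H33R4

open PowerSeries in
private theorem good1_dvd (p : ℕ) (R : Type) [CommRing R] (k : ℕ) (b : PowerSeries R) :
    (p : PowerSeries R) ^ k ∣ b ↔ ∀ n, (p : R) ^ k ∣ PowerSeries.coeff n b := by
  have hC : ((p : PowerSeries R)) ^ k = PowerSeries.C ((p : R) ^ k) := by
    rw [map_pow, map_natCast]
  rw [hC]
  constructor
  · rintro ⟨c, rfl⟩ n
    rw [PowerSeries.coeff_C_mul]
    exact Dvd.intro _ rfl
  · intro h
    choose c hc using h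
    refine ⟨PowerSeries.mk c, ?_⟩
    ext n
    rw [PowerSeries.coeff_C_mul, PowerSeries.coeff_mk]
    exact hc n

private theorem good1_zp (p : ℕ) [Fact p.Prime] : PGood p ℤ_[p] := by
  have hp0 : (p : ℤ_[p]) ≠ 0 := by
    exact_mod_cast (Fact.out : p.Prime).ne_zero
  refine ⟨?_, ?_, ?_⟩
  · intro b hb
    rcases mul_eq_zero.mp hb with h | h
    · exact absurd h hp0
    · exact h
  · intro b hb
    have h1 : ∀ k : ℕ, ‖b‖ ≤ ((p : ℝ)⁻¹) ^ k := by
      intro k
      have h2 : b ∈ Ideal.span {(p : ℤ_[p]) ^ k} := Ideal.mem_span_singleton.mpr (hb k)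
      rw [← PadicInt.norm_le_pow_iff_mem_span_pow] at h2
      rwa [zpow_neg, zpow_natCast, ← inv_pow] at h2
    have hp1 : (1 : ℝ) < p := by exact_mod_cast (Fact.out : p.Prime).one_lt
    have h3 : Filter.Tendsto (fun k : ℕ => ((p : ℝ)⁻¹) ^ k) Filter.atTop (nhds 0) :=
      tendsto_pow_atTop_nhds_zero_of_lt_one (by positivity) (inv_lt_one_of_one_lt₀ hp1)
    have h4 : ‖b‖ ≤ 0 := ge_of_tendsto' h3 h1
    exact norm_le_zero_iff.mp h4
  · intro e he
    have hmem : ∀ (n : ℕ) (x : ℤ_[p]),
        x ∈ ((IsLocalRing.maximalIdeal ℤ_[p]) ^ n • (⊤ : Submodule ℤ_[p] ℤ_[p])) ↔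
          (p : ℤ_[p]) ^ n ∣ x := by
      intro n x
      rw [PadicInt.maximalIdeal_eq_span_p, Ideal.span_singleton_pow, smul_eq_mul, Ideal.mul_top,
        Ideal.mem_span_singleton]
    have hcauchy : ∀ m n : ℕ, m ≤ n → (p : ℤ_[p]) ^ m ∣ e n - e m := by
      intro m n hmn
      induction n, hmn using Nat.le_induction with
      | base => simp
      | succ n hmn ih =>
        have h1 : (p : ℤ_[p]) ^ m ∣ e (n + 1) - e n := (pow_dvd_pow _ hmn).trans (he n)
        have := dvd_add h1 ih
        simpa using this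
    obtain ⟨l, hl⟩ := IsPrecomplete.prec (I := IsLocalRing.maximalIdeal ℤ_[p]) (M := ℤ_[p])
      inferInstance (f := e) (by
        intro m n hmn
        rw [SModEq.sub_mem, hmem]
        have := hcauchy m n hmn
        rw [← neg_sub]
        exact (dvd_neg).mpr this)
    refine ⟨l, fun k => ?_⟩
    have := hl k
    rw [SModEq.sub_mem, hmem] at this
    rw [← neg_sub]
    exact (dvd_neg).mpr this

theorem good1_proof : Good1 := by
  refine ⟨fun p _ => good1_zp p, ?_⟩
  intro p R _ hR
  refine ⟨?_, ?_, ?_⟩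
  · intro b hb
    ext n
    have h1 := congrArg (PowerSeries.coeff n) hb
    have hC : (p : PowerSeries R) = PowerSeries.C (p : R) := (map_natCast PowerSeries.C p).symm
    rw [hC, PowerSeries.coeff_C_mul, map_zero] at h1
    rw [hR.tf _ h1, map_zero]
  · intro b hb
    ext n
    rw [map_zero]
    exact hR.sep _ fun k => (good1_dvd p R k b).mp (hb k) n
  · intro e he
    have h1 : ∀ n, ∃ l : R, ∀ k, (p : R) ^ k ∣ l - PowerSeries.coeff n (e k) := by
      intro n
      refine hR.cmpl (fun k => PowerSeries.coeff n (e k)) fun k => ?_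
      have := (good1_dvd p R k _).mp (he k) n
      simpa using this
    choose l hl using h1
    refine ⟨PowerSeries.mk l, fun k => (good1_dvd p R k _).mpr fun n => ?_⟩
    rw [map_sub, PowerSeries.coeff_mk]
    exact hl n k

end Pool.Agent.H33R4
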