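import Mathlib
import Pool.Agent.H33R4.Spec

set_option autoImplicit false

namespace Pool.Agent.H33R4

open Polynomial

theorem good2_proof : Good2 := by
  intro p R _ F hF hR
  obtain ⟨n, e⟩ : ∃ n : ℕ, Nonempty (AdjoinRoot F ≃ₗ[R] (Fin n → R)) :=
    ⟨_, ⟨(AdjoinRoot.powerBasis' hF).basis.equivFun⟩⟩
  obtain ⟨e⟩ := e
  have hmul : ∀ (k : ℕ) (x : AdjoinRoot F), (p : AdjoinRoot F) ^ k * x = (p : R) ^ k • x := by
    intro k x
    rw [Algebra.smul_def, map_pow, map_natCast]
  have hdvd : ∀ (k : ℕ) (x : AdjoinRoot F), (p : AdjoinRoot F) ^ k ∣ x ↔ ∀ i, (p : R) ^ k ∣ e x i := by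
    intro k x
    constructor
    · rintro ⟨y, rfl⟩ i
      rw [hmul, map_smul, Pi.smul_apply, smul_eq_mul]
      exact Dvd.intro _ rfl
    · intro h
      choose y hy using h
      refine ⟨e.symm y, ?_⟩
      apply e.injective
      rw [hmul, map_smul, LinearEquiv.apply_symm_apply]
      funext i
      rw [Pi.smul_apply, smul_eq_mul]
      exact hy i
  refine ⟨?_, ?_, ?_⟩
  · intro b hb
    have h1 : (p : AdjoinRoot F) ^ 1 * b = 0 := by rw [pow_one]; exact hb
    rw [hmul, pow_one] at h1
    apply e.injective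
    rw [map_zero]
    funext i
    have h2 : e ((p : R) • b) i = 0 := by rw [h1, map_zero]; rfl
    rw [map_smul, Pi.smul_apply, smul_eq_mul] at h2
    exact hR.tf _ h2
  · intro b hb
    apply e.injective
    rw [map_zero]
    funext i
    exact hR.sep _ (fun k => (hdvd k b).mp (hb k) i)
  · intro u hu
    have h1 : ∀ i : Fin n, ∃ l : R, ∀ k, (p : R) ^ k ∣ l - e (u k) i := by
      intro i
      refine hR.cmpl (fun k => e (u k) i) ?_
      intro k
      have := (hdvd k _).mp (hu k) i
      rwa [map_sub, Pi.sub_apply] at this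
    choose l hl using h1
    refine ⟨e.symm l, ?_⟩
    intro k
    rw [hdvd]
    intro i
    rw [map_sub, LinearEquiv.apply_symm_apply, Pi.sub_apply]
    exact hl i k

end Pool.Agent.H33R4
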