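import Mathlib
import Pool.Agent.H33R4.Spec

set_option autoImplicit false

namespace Pool.Agent.H33R4

open Polynomial

namespace IRR

/-- the norm of `F(θ)` is an integer -/
theorem int_prod (g F : ℤ[X]) (hg : g.Monic) :
    ∃ N : ℤ, (((g.map (Int.castRingHom ℂ)).roots).map
      (fun θ => (F.map (Int.castRingHom ℂ)).eval θ)).prod = (N : ℂ) := by
  refine ⟨resultant g F g.natDegree F.natDegree, ?_⟩
  have hm : (g.map (Int.castRingHom ℂ)).Monic := hg.map _
  have h := resultant_eq_prod_eval (g.map (Int.castRingHom ℂ)) (F.map (Int.castRingHom ℂ))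
    F.natDegree natDegree_map_le (IsAlgClosed.splits _)
  rw [hm.leadingCoeff, one_pow, one_mul, hg.natDegree_map, resultant_map_map] at h
  rw [← h]
  simp

/-- The roots of a nonconstant monic factor `g` of `∏ F_i - 1` come close to the roots of
every `F_i`. -/
theorem near {ι : Type} [Fintype ι] (F : ι → ℤ[X]) (g : ℤ[X]) (hg : g.Monic)
    (hd : 0 < g.natDegree) (hdvd : g ∣ ∏ i, F i - 1) (i₀ : ι) :
    ∃ θ ∈ (g.map (Int.castRingHom ℂ)).roots, ‖((F i₀).map (Int.castRingHom ℂ)).eval θ‖ ≤ 1 := by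
  classical
  by_contra hno
  push Not at hno
  set R := (g.map (Int.castRingHom ℂ)).roots with hR
  have hm : (g.map (Int.castRingHom ℂ)).Monic := hg.map _
  have hprod1 : ∀ θ ∈ R, ∏ i, ((F i).map (Int.castRingHom ℂ)).eval θ = 1 := by
    intro θ hθ
    have h1 : (g.map (Int.castRingHom ℂ)).eval θ = 0 := (mem_roots hm.ne_zero).mp hθ
    obtain ⟨q, hq⟩ := hdvd
    have h2 : ((∏ i, F i - 1).map (Int.castRingHom ℂ)).eval θ = 0 := by
      rw [hq, Polynomial.map_mul, eval_mul, h1, zero_mul]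
    rw [Polynomial.map_sub, Polynomial.map_prod, Polynomial.map_one, eval_sub, eval_prod,
      eval_one, sub_eq_zero] at h2
    exact h2
  have hne : ∀ i, ∀ θ ∈ R, ((F i).map (Int.castRingHom ℂ)).eval θ ≠ 0 := by
    intro i θ hθ h0
    have := hprod1 θ hθ
    rw [Finset.prod_eq_zero (Finset.mem_univ i) h0] at this
    exact zero_ne_one this
  -- each norm is at least one
  have hN : ∀ i, 1 ≤ (R.map (fun θ => ‖((F i).map (Int.castRingHom ℂ)).eval θ‖)).prod := by
    intro i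
    obtain ⟨N, hN⟩ := int_prod g (F i) hg
    have h1 : (R.map (fun θ => ‖((F i).map (Int.castRingHom ℂ)).eval θ‖)).prod = ‖(N : ℂ)‖ := by
      rw [← hN]
      have := map_multiset_prod (normHom : ℂ →*₀ ℝ)
        (R.map (fun θ => ((F i).map (Int.castRingHom ℂ)).eval θ))
      rw [Multiset.map_map] at this
      exact this.symm
    rw [h1, Complex.norm_intCast]
    have hN0 : N ≠ 0 := by
      intro h0
      rw [h0, Int.cast_zero, Multiset.prod_eq_zero_iff, Multiset.mem_map] at hN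
      obtain ⟨θ, hθ, h⟩ := hN
      exact hne i θ hθ h
    exact_mod_cast Int.one_le_abs hN0
  -- total product
  have htot : ∏ i, (R.map (fun θ => ‖((F i).map (Int.castRingHom ℂ)).eval θ‖)).prod = 1 := by
    rw [← Multiset.prod_map_prod]
    apply Multiset.prod_eq_one
    intro y hy
    obtain ⟨θ, hθ, rfl⟩ := Multiset.mem_map.mp hy
    rw [← norm_prod, hprod1 θ hθ, norm_one]
  -- the factor `i₀` is larger than one
  have hcard : 0 < R.card := by
    rw [hR, ← (IsAlgClosed.splits (g.map (Int.castRingHom ℂ))).natDegree_eq_card_roots,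
      hg.natDegree_map]
    exact hd
  have hgt : ∀ S : Multiset ℂ, (∀ θ ∈ S, 1 < ‖((F i₀).map (Int.castRingHom ℂ)).eval θ‖) →
      0 < S.card → 1 < (S.map (fun θ => ‖((F i₀).map (Int.castRingHom ℂ)).eval θ‖)).prod := by
    intro S
    induction S using Multiset.induction_on with
    | empty => intro _ h; simp at h
    | cons θ S ih =>
      intro h _
      rw [Multiset.map_cons, Multiset.prod_cons]
      have h1 := h θ (Multiset.mem_cons_self _ _)
      rcases Nat.eq_zero_or_pos S.card with h0 | h0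
      · rw [Multiset.card_eq_zero] at h0
        rw [h0]; simpa using h1
      · have h2 := ih (fun θ' hθ' => h θ' (Multiset.mem_cons_of_mem hθ')) h0
        nlinarith
  have h1 := hgt R hno hcard
  rw [← Finset.mul_prod_erase Finset.univ _ (Finset.mem_univ i₀)] at htot
  have h2 : 1 ≤ ∏ i ∈ Finset.univ.erase i₀,
      (R.map (fun θ => ‖((F i).map (Int.castRingHom ℂ)).eval θ‖)).prod :=
    Finset.prod_induction _ (fun x : ℝ => 1 ≤ x) (fun _ _ ha hb => one_le_mul_of_one_le_of_one_le ha hb)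
      le_rfl (fun i _ => hN i)
  nlinarith

/-- indices of the complex roots -/
abbrev J (r₁ r₂ : ℕ) : Type := Fin r₁ ⊕ (Fin r₂ × Bool)

/-- the slopes of the complex roots -/
noncomputable def al {r₁ r₂ : ℕ} (a : Fin r₁ → ℤ) (b c : Fin r₂ → ℤ) : J r₁ r₂ → ℂ
  | Sum.inl i => ⟨(a i : ℝ), 0⟩
  | Sum.inr (k, s) => ⟨(b k : ℝ), (if s then 1 else -1) * Real.sqrt (c k : ℝ)⟩

theorem al_inj {r₁ r₂ : ℕ} (a : Fin r₁ → ℤ) (b c : Fin r₂ → ℤ) (ha : Function.Injective a)
    (hbc : Function.Injective (fun k => (b k, c k))) (hc : ∀ k, 0 < c k) :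
    Function.Injective (al a b c) := by
  have hpos : ∀ k, 0 < Real.sqrt (c k : ℝ) := fun k => Real.sqrt_pos.mpr (by exact_mod_cast hc k)
  rintro (i | ⟨k, s⟩) (i' | ⟨k', s'⟩) h
  · have h1 := congrArg Complex.re h
    simp only [al] at h1
    have h2 : a i = a i' := by exact_mod_cast h1
    exact congrArg Sum.inl (ha h2)
  · have h1 := congrArg Complex.im h
    simp only [al] at h1
    have := hpos k'
    cases s' <;> simp at h1 <;> linarith
  · have h1 := congrArg Complex.im h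
    simp only [al] at h1
    have := hpos k
    cases s <;> simp at h1 <;> linarith
  · have h1 := congrArg Complex.im h
    have h2 := congrArg Complex.re h
    simp only [al] at h1 h2
    have hk := hpos k
    have hk' := hpos k'
    have hb : b k = b k' := by exact_mod_cast h2
    have hsq : Real.sqrt (c k : ℝ) = Real.sqrt (c k' : ℝ) ∧ s = s' := by
      cases s <;> cases s' <;> simp at h1 ⊢ <;> linarith
    have hcc : (c k : ℝ) = (c k' : ℝ) := by
      have e1 := Real.sq_sqrt (show (0:ℝ) ≤ (c k : ℝ) by exact_mod_cast (hc k).le)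
      have e2 := Real.sq_sqrt (show (0:ℝ) ≤ (c k' : ℝ) by exact_mod_cast (hc k').le)
      rw [← e1, ← e2, hsq.1]
    have hcc' : c k = c k' := by exact_mod_cast hcc
    have : k = k' := hbc (by simp [hb, hcc'])
    rw [this, hsq.2]

/-- the specialised factors -/
noncomputable def Ft {r₁ r₂ : ℕ} (a : Fin r₁ → ℤ) (b c : Fin r₂ → ℤ) (t : ℤ) :
    Fin r₁ ⊕ Fin r₂ → ℤ[X] :=
  fun i => spec t (fac a b c i)

theorem Ft_inl {r₁ r₂ : ℕ} (a : Fin r₁ → ℤ) (b c : Fin r₂ → ℤ) (t : ℤ) (i : Fin r₁) :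
    Ft a b c t (Sum.inl i) = X - C (a i * t) := by
  simp [Ft, spec, fac]

theorem Ft_inr {r₁ r₂ : ℕ} (a : Fin r₁ → ℤ) (b c : Fin r₂ → ℤ) (t : ℤ) (k : Fin r₂) :
    Ft a b c t (Sum.inr k) = (X - C (b k * t)) ^ 2 + C (c k * t ^ 2) := by
  simp [Ft, spec, fac]

theorem spec_fam {r₁ r₂ : ℕ} (a : Fin r₁ → ℤ) (b c : Fin r₂ → ℤ) (t : ℤ) :
    spec t (fam a b c) = ∏ i, Ft a b c t i - 1 := by
  simp only [spec, fam, Polynomial.map_sub, Polynomial.map_prod, Polynomial.map_one, Ft]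

theorem Ft_monic {r₁ r₂ : ℕ} (a : Fin r₁ → ℤ) (b c : Fin r₂ → ℤ) (t : ℤ)
    (i : Fin r₁ ⊕ Fin r₂) : (Ft a b c t i).Monic := by
  cases i with
  | inl i => rw [Ft_inl]; exact monic_X_sub_C _
  | inr k =>
    rw [Ft_inr]
    apply Monic.add_of_left ((monic_X_sub_C _).pow 2)
    refine lt_of_le_of_lt degree_C_le ?_
    rw [degree_pow, degree_X_sub_C]
    norm_num

theorem Ft_natDegree {r₁ r₂ : ℕ} (a : Fin r₁ → ℤ) (b c : Fin r₂ → ℤ) (t : ℤ) :
    (∏ i, Ft a b c t i).natDegree = r₁ + 2 * r₂ := by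
  rw [natDegree_prod_of_monic _ _ (fun i _ => Ft_monic a b c t i), Fintype.sum_sum_type]
  have h1 : ∀ i, (Ft a b c t (Sum.inl i)).natDegree = 1 := fun i => by
    rw [Ft_inl, natDegree_X_sub_C]
  have h2 : ∀ k, (Ft a b c t (Sum.inr k)).natDegree = 2 := fun k => by
    rw [Ft_inr, natDegree_add_C, natDegree_pow, natDegree_X_sub_C]
  simp [h1, h2, mul_comm]

theorem Ft_eval_inl {r₁ r₂ : ℕ} (a : Fin r₁ → ℤ) (b c : Fin r₂ → ℤ) (t : ℤ) (i : Fin r₁) (θ : ℂ) :
    ((Ft a b c t (Sum.inl i)).map (Int.castRingHom ℂ)).eval θ =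
      θ - t * al a b c (Sum.inl i) := by
  have h : al a b c (Sum.inl i) = (a i : ℂ) := by
    apply Complex.ext <;> simp [al]
  rw [Ft_inl, h]
  simp [mul_comm]

theorem Ft_eval_inr {r₁ r₂ : ℕ} (a : Fin r₁ → ℤ) (b c : Fin r₂ → ℤ) (t : ℤ) (k : Fin r₂)
    (hc : 0 < c k) (θ : ℂ) :
    ((Ft a b c t (Sum.inr k)).map (Int.castRingHom ℂ)).eval θ =
      (θ - t * al a b c (Sum.inr (k, true))) * (θ - t * al a b c (Sum.inr (k, false))) := by
  have h1 : al a b c (Sum.inr (k, true)) = (b k : ℂ) + (Real.sqrt (c k : ℝ) : ℂ) * Complex.I := by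
    apply Complex.ext <;> simp [al]
  have h2 : al a b c (Sum.inr (k, false)) = (b k : ℂ) - (Real.sqrt (c k : ℝ) : ℂ) * Complex.I := by
    apply Complex.ext <;> simp [al]
  have h3 : ((Real.sqrt (c k : ℝ) : ℝ) : ℂ) ^ 2 = (c k : ℂ) := by
    rw [← Complex.ofReal_pow, Real.sq_sqrt (by exact_mod_cast hc.le)]
    simp
  rw [Ft_inr, h1, h2]
  have h4 : (((X - C (b k * t)) ^ 2 + C (c k * t ^ 2) : ℤ[X]).map (Int.castRingHom ℂ)).eval θ =
      (θ - (b k : ℂ) * (t : ℂ)) ^ 2 + (c k : ℂ) * (t : ℂ) ^ 2 := by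
    simp only [Polynomial.map_add, Polynomial.map_pow, Polynomial.map_sub, map_X,
      eval_add, eval_pow, eval_sub, eval_X, Polynomial.map_C, eval_C]
    simp
  rw [h4]
  linear_combination (-(t : ℂ) ^ 2) * h3 +
    (t : ℂ) ^ 2 * (Real.sqrt (c k : ℝ) : ℂ) ^ 2 * Complex.I_sq

theorem conj_root (g : ℤ[X]) (hg : g.Monic) {θ : ℂ}
    (h : θ ∈ (g.map (Int.castRingHom ℂ)).roots) :
    (starRingEnd ℂ) θ ∈ (g.map (Int.castRingHom ℂ)).roots := by
  have hm : (g.map (Int.castRingHom ℂ)).Monic := hg.map _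
  rw [mem_roots hm.ne_zero, IsRoot.def] at h ⊢
  rw [eval_map] at h ⊢
  have h1 := hom_eval₂ g (Int.castRingHom ℂ) (starRingEnd ℂ) θ
  rw [h, map_zero, RingHom.ext_int ((starRingEnd ℂ).comp (Int.castRingHom ℂ)) (Int.castRingHom ℂ)]
    at h1
  exact h1.symm

theorem al_conj {r₁ r₂ : ℕ} (a : Fin r₁ → ℤ) (b c : Fin r₂ → ℤ) (k : Fin r₂) (s : Bool) :
    (starRingEnd ℂ) (al a b c (Sum.inr (k, s))) = al a b c (Sum.inr (k, !s)) := by
  apply Complex.ext
  · simp [al]
  · cases s <;> simp [al]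

/-- the degree of a nonconstant factor -/
theorem deg_le {r₁ r₂ : ℕ} (a : Fin r₁ → ℤ) (b c : Fin r₂ → ℤ) (hc : ∀ k, 0 < c k) (t : ℤ)
    (ht : ∀ j j' : J r₁ r₂, j ≠ j' → 2 < |(t : ℝ)| * ‖al a b c j - al a b c j'‖)
    (g : ℤ[X]) (hg : g.Monic) (hd : 0 < g.natDegree) (hdvd : g ∣ ∏ i, Ft a b c t i - 1) :
    r₁ + 2 * r₂ ≤ g.natDegree := by
  classical
  set R := (g.map (Int.castRingHom ℂ)).roots with hR
  have hconj : ∀ (k : Fin r₂) (s : Bool), (∃ θ ∈ R, ‖θ - t * al a b c (Sum.inr (k, s))‖ ≤ 1) →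
      ∃ θ ∈ R, ‖θ - t * al a b c (Sum.inr (k, !s))‖ ≤ 1 := by
    rintro k s ⟨θ, hθ, h⟩
    refine ⟨(starRingEnd ℂ) θ, conj_root g hg hθ, ?_⟩
    rw [← al_conj]
    have : (starRingEnd ℂ) θ - t * (starRingEnd ℂ) (al a b c (Sum.inr (k, s))) =
        (starRingEnd ℂ) (θ - t * al a b c (Sum.inr (k, s))) := by
      rw [map_sub, map_mul, map_intCast]
    rw [this, Complex.norm_conj]
    exact h
  have hall : ∀ j : J r₁ r₂, ∃ θ ∈ R, ‖θ - t * al a b c j‖ ≤ 1 := by
    rintro (i | ⟨k, s⟩)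
    · obtain ⟨θ, hθ, h⟩ := near (Ft a b c t) g hg hd hdvd (Sum.inl i)
      rw [Ft_eval_inl] at h
      exact ⟨θ, hθ, h⟩
    · obtain ⟨θ, hθ, h⟩ := near (Ft a b c t) g hg hd hdvd (Sum.inr k)
      rw [Ft_eval_inr a b c t k (hc k), norm_mul] at h
      have h1 : ‖θ - t * al a b c (Sum.inr (k, true))‖ ≤ 1 ∨
          ‖θ - t * al a b c (Sum.inr (k, false))‖ ≤ 1 := by
        by_contra hno
        push Not at hno
        nlinarith [hno.1, hno.2]
      have h2 : ∃ s', ∃ θ ∈ R, ‖θ - t * al a b c (Sum.inr (k, s'))‖ ≤ 1 := by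
        rcases h1 with h1 | h1
        · exact ⟨true, θ, hθ, h1⟩
        · exact ⟨false, θ, hθ, h1⟩
      obtain ⟨s', hs'⟩ := h2
      rcases Bool.eq_or_eq_not s s' with rfl | rfl
      · exact hs'
      · exact hconj k s' hs'
  choose ρ hρ hρ1 using hall
  have hinj : Function.Injective ρ := by
    intro j j' h
    by_contra hne
    have h1 := ht j j' hne
    have h2 : (t : ℂ) * (al a b c j - al a b c j') =
        (ρ j' - t * al a b c j') - (ρ j - t * al a b c j) := by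
      rw [h]; ring
    have h3 : |(t : ℝ)| * ‖al a b c j - al a b c j'‖ ≤ 2 := by
      calc |(t : ℝ)| * ‖al a b c j - al a b c j'‖ = ‖(t : ℂ) * (al a b c j - al a b c j')‖ := by
            rw [norm_mul, Complex.norm_intCast]
        _ ≤ ‖ρ j' - t * al a b c j'‖ + ‖ρ j - t * al a b c j‖ := by
            rw [h2]; exact norm_sub_le _ _
        _ ≤ 2 := by linarith [hρ1 j, hρ1 j']
    linarith
  have hcard : Fintype.card (J r₁ r₂) ≤ R.toFinset.card := by
    rw [← Finset.card_univ, ← Finset.card_image_of_injective Finset.univ hinj]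
    apply Finset.card_le_card
    intro x hx
    obtain ⟨j, -, rfl⟩ := Finset.mem_image.mp hx
    exact Multiset.mem_toFinset.mpr (hρ j)
  have h1 : R.toFinset.card ≤ R.card := Multiset.toFinset_card_le R
  have h2 : R.card = g.natDegree := by
    rw [hR, ← (IsAlgClosed.splits (g.map (Int.castRingHom ℂ))).natDegree_eq_card_roots,
      hg.natDegree_map]
  have h3 : Fintype.card (J r₁ r₂) = r₁ + 2 * r₂ := by
    simp [J, mul_comm]
  omega

end IRR

open IRR in
theorem irr_proof : Irr := by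
  classical
  intro r₁ r₂ a b c ha hbc hc hr
  have hinj := al_inj a b c ha hbc hc
  -- separation of the roots
  have hsep : ∀ q : J r₁ r₂ × J r₁ r₂, ∃ N : ℕ, q.1 ≠ q.2 →
      2 < (N : ℝ) * ‖al a b c q.1 - al a b c q.2‖ := by
    intro q
    by_cases h : q.1 = q.2
    · exact ⟨0, fun h' => (h' h).elim⟩
    · have hpos : 0 < ‖al a b c q.1 - al a b c q.2‖ :=
        norm_pos_iff.mpr (sub_ne_zero.mpr (fun h' => h (hinj h')))
      obtain ⟨N, hN⟩ := exists_nat_gt (2 / ‖al a b c q.1 - al a b c q.2‖)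
      exact ⟨N, fun _ => (div_lt_iff₀ hpos).mp hN⟩
  choose N hN using hsep
  refine ⟨∑ q, N q, ?_⟩
  intro t ht
  have htsep : ∀ j j' : J r₁ r₂, j ≠ j' → 2 < |(t : ℝ)| * ‖al a b c j - al a b c j'‖ := by
    intro j j' hne
    have h1 := hN (j, j') hne
    have h2 : N (j, j') ≤ ∑ q, N q := Finset.single_le_sum (f := N) (fun _ _ => Nat.zero_le _)
      (Finset.mem_univ (j, j'))
    have h3 : ((N (j, j') : ℕ) : ℝ) ≤ |(t : ℝ)| := by
      have h4 : ((N (j, j') : ℕ) : ℤ) ≤ |t| := le_trans (by exact_mod_cast h2) ht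
      have h5 : (((N (j, j') : ℕ) : ℤ) : ℝ) ≤ ((|t| : ℤ) : ℝ) := by exact_mod_cast h4
      simpa using h5
    exact lt_of_lt_of_le h1 (mul_le_mul_of_nonneg_right h3 (norm_nonneg _))
  rw [spec_fam]
  have hmon0 : (∏ i, Ft a b c t i).Monic := monic_prod_of_monic _ _ (fun i _ => Ft_monic a b c t i)
  have hdeg0 := Ft_natDegree a b c t
  have hmon : (∏ i, Ft a b c t i - 1).Monic := by
    apply hmon0.sub_of_left
    rw [degree_one, degree_eq_natDegree hmon0.ne_zero, hdeg0]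
    exact_mod_cast (by omega : 0 < r₁ + 2 * r₂)
  have hdeg : (∏ i, Ft a b c t i - 1).natDegree = r₁ + 2 * r₂ := by
    rw [← hdeg0]
    have h1 : (1 : ℤ[X]) = C 1 := by simp
    rw [h1, natDegree_sub_C]
  rw [hmon.irreducible_iff_natDegree]
  refine ⟨?_, ?_⟩
  · intro h
    rw [h, natDegree_one] at hdeg
    omega
  · intro f g hf hg hfg
    by_contra hno
    push Not at hno
    have h1 := deg_le a b c hc t htsep f hf (Nat.pos_of_ne_zero hno.1) ⟨g, hfg.symm⟩
    have h2 := deg_le a b c hc t htsep g hg (Nat.pos_of_ne_zero hno.2)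
      ⟨f, by rw [mul_comm]; exact hfg.symm⟩
    have h3 : f.natDegree + g.natDegree = r₁ + 2 * r₂ := by
      rw [← hf.natDegree_mul hg, hfg, hdeg]
    omega

end Pool.Agent.H33R4
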