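import Mathlib
import Pool.Agent.H33R4.Spec

set_option autoImplicit false

namespace Pool.Agent.H33R4
open Polynomial

theorem inf_hensel {J : Type} [Fintype J] [DecidableEq J] (α : J → ℂ) (hα : Function.Injective α)
    (n : ℕ) (hn : n = Fintype.card J) (hn1 : 1 ≤ n) (j : J) :
    ∃ w : PowerSeries ℂ, ∏ l, (w - PowerSeries.C (α l)) = PowerSeries.X ^ n ∧
      PowerSeries.constantCoeff w = α j := by
  classical
  set R := PowerSeries ℂ with hR
  set I : Ideal R := Ideal.span {PowerSeries.X} with hI
  have : IsAdicComplete I R := by rw [hI]; infer_instance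
  have : HenselianRing R I := inferInstance
  set f : R[X] := ∏ l, (X - C (PowerSeries.C (α l))) - C (PowerSeries.X ^ n) with hf
  have hmon0 : (∏ l : J, (X - C (PowerSeries.C (α l)) : R[X])).Monic :=
    monic_prod_of_monic _ _ fun l _ => monic_X_sub_C _
  have hdeg0 : (∏ l : J, (X - C (PowerSeries.C (α l)) : R[X])).natDegree = n := by
    rw [natDegree_prod_of_monic _ _ fun l _ => monic_X_sub_C _]
    simp [hn]
  have hmon : f.Monic := by
    apply hmon0.sub_of_left
    apply lt_of_le_of_lt degree_C_le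
    rw [degree_eq_natDegree hmon0.ne_zero, hdeg0]
    exact_mod_cast hn1
  have heval : ∀ w : R, f.eval w = ∏ l, (w - PowerSeries.C (α l)) - PowerSeries.X ^ n := by
    intro w
    simp [hf, eval_prod]
  have hXI : (PowerSeries.X : R) ∈ I := Ideal.subset_span rfl
  have hXn : (PowerSeries.X : R) ^ n ∈ I := Ideal.pow_mem_of_mem I hXI n hn1
  have h0 : f.eval (PowerSeries.C (α j)) ∈ I := by
    rw [heval, Finset.prod_eq_zero (Finset.mem_univ j) (sub_self _)]
    exact I.sub_mem I.zero_mem hXn
  have hd : IsUnit (Ideal.Quotient.mk I (f.derivative.eval (PowerSeries.C (α j)))) := by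
    apply IsUnit.map
    rw [PowerSeries.isUnit_iff_constantCoeff]
    have : f.derivative.eval (PowerSeries.C (α j)) =
        ∏ l ∈ Finset.univ.erase j, (PowerSeries.C (α j) - PowerSeries.C (α l)) := by
      rw [hf, derivative_sub, derivative_C, sub_zero, derivative_prod_finset, eval_finsetSum]
      rw [Finset.sum_eq_single j]
      · simp [eval_prod]
      · intro b _ hb
        rw [eval_mul, eval_prod, Finset.prod_eq_zero (i := j)]
        · simp
        · simp [hb.symm]
        · simp
      · simp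
    rw [this, map_prod]
    rw [isUnit_iff_ne_zero, Finset.prod_ne_zero_iff]
    intro l hl
    rw [map_sub, PowerSeries.constantCoeff_C, PowerSeries.constantCoeff_C, sub_ne_zero]
    exact fun h => (Finset.ne_of_mem_erase hl) (hα h).symm
  obtain ⟨w, hw1, hw2⟩ := HenselianRing.is_henselian f hmon _ h0 hd
  refine ⟨w, ?_, ?_⟩
  · have := hw1
    rw [IsRoot.def, heval, sub_eq_zero] at this
    exact this
  · rw [hI, Ideal.mem_span_singleton, PowerSeries.X_dvd_iff, map_sub,
      PowerSeries.constantCoeff_C, sub_eq_zero] at hw2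
    exact hw2


/-- the variable at infinity -/
noncomputable abbrev xinf : LaurentSeries ℂ := HahnSeries.single (-((1 : ℕ) : ℤ)) (1 : ℂ)

theorem xinf_ne : xinf ≠ 0 := by
  simp [xinf]

theorem xinf_order : HahnSeries.order xinf = -1 := by
  rw [xinf, HahnSeries.order_single one_ne_zero]
  norm_num

theorem order_fprod {L : Type} (s : Finset L) (f : L → LaurentSeries ℂ) (hf : ∀ l ∈ s, f l ≠ 0) :
    HahnSeries.order (∏ l ∈ s, f l) = ∑ l ∈ s, HahnSeries.order (f l) := by
  classical
  induction s using Finset.induction_on with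
  | empty => simp
  | insert a s ha ih =>
    rw [Finset.prod_insert ha, Finset.sum_insert ha, HahnSeries.order_mul
      (hf a (Finset.mem_insert_self a s))
      (Finset.prod_ne_zero_iff.mpr fun l hl => hf l (Finset.mem_insert_of_mem hl)),
      ih fun l hl => hf l (Finset.mem_insert_of_mem hl)]

theorem order_unit (w : PowerSeries ℂ) (hw : PowerSeries.constantCoeff w ≠ 0) :
    HahnSeries.order (HahnSeries.ofPowerSeries ℤ ℂ w) = 0 := by
  have hne : HahnSeries.ofPowerSeries ℤ ℂ w ≠ 0 := by
    rw [Ne, map_eq_zero_iff _ HahnSeries.ofPowerSeries_injective]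
    rintro rfl
    simp at hw
  apply le_antisymm
  · apply HahnSeries.order_le_of_coeff_ne_zero
    have := PowerSeries.coeff_coe (R := ℂ) w (0 : ℤ)
    rw [this]
    simpa using hw
  · by_contra h
    push Not at h
    have h1 : (HahnSeries.ofPowerSeries ℤ ℂ w).coeff
      (HahnSeries.order (HahnSeries.ofPowerSeries ℤ ℂ w)) ≠ 0 :=
      HahnSeries.coeff_order_eq_zero.not.mpr hne
    have := PowerSeries.coeff_coe (R := ℂ) w (HahnSeries.order (HahnSeries.ofPowerSeries ℤ ℂ w))
    rw [if_pos h] at this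
    exact h1 this

theorem inf_core {ι J : Type} [Fintype J] [DecidableEq J] [DecidableEq ι] (g : J → ι)
    (α : J → ℂ) (hα : Function.Injective α) (n : ℕ) (hn : n = Fintype.card J) (hn1 : 1 ≤ n) :
    ∃ ϑ : J → LaurentSeries ℂ, Function.Injective ϑ ∧
      (∏ l, (X - C (HahnSeries.C (α l) * xinf)) - 1 : (LaurentSeries ℂ)[X]) = ∏ j, (X - C (ϑ j)) ∧
      ∀ j i, HahnSeries.order (∏ l with g l = i, (ϑ j - HahnSeries.C (α l) * xinf)) =
        - ((Finset.univ.filter fun l => g l = i).card : ℤ) + if g j = i then (n : ℤ) else 0 := by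
  classical
  choose z hz1 hz2 using fun j => inf_hensel α hα n hn hn1 j
  set ι' := HahnSeries.ofPowerSeries ℤ ℂ with hι
  have hinj : Function.Injective ι' := HahnSeries.ofPowerSeries_injective
  have hsub : ∀ j l, ι' (z j) * xinf - HahnSeries.C (α l) * xinf =
      ι' (z j - PowerSeries.C (α l)) * xinf := by
    intro j l
    rw [map_sub, sub_mul, hι, HahnSeries.ofPowerSeries_C]
  have hne : ∀ j l, z j - PowerSeries.C (α l) ≠ 0 := by
    intro j l h
    have h1 := hz1 j
    rw [Finset.prod_eq_zero (Finset.mem_univ l) h] at h1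
    exact pow_ne_zero n PowerSeries.X_ne_zero h1.symm
  have hne' : ∀ j l, ι' (z j - PowerSeries.C (α l)) ≠ 0 := by
    intro j l h
    exact hne j l (by rwa [map_eq_zero_iff _ hinj] at h)
  have hzinj : Function.Injective fun j => ι' (z j) * xinf := by
    intro j k h
    have h1 : ι' (z j) = ι' (z k) := mul_right_cancel₀ xinf_ne h
    have h2 := hinj h1
    have h3 := congrArg PowerSeries.constantCoeff h2
    rw [hz2, hz2] at h3
    exact hα h3
  have hX : ι' (PowerSeries.X) * xinf = 1 := by
    rw [hι, HahnSeries.ofPowerSeries_X, xinf, HahnSeries.single_mul_single]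
    norm_num
  have hXo : HahnSeries.order (ι' PowerSeries.X) = 1 := by
    rw [hι, HahnSeries.ofPowerSeries_X, HahnSeries.order_single one_ne_zero]
  have hprod : ∀ j, ∏ l, ι' (z j - PowerSeries.C (α l)) = ι' PowerSeries.X ^ n := by
    intro j
    rw [← map_prod, hz1, map_pow]
  have hoff : ∀ j l, l ≠ j → HahnSeries.order (ι' (z j - PowerSeries.C (α l))) = 0 := by
    intro j l hl
    apply order_unit
    rw [map_sub, hz2, PowerSeries.constantCoeff_C, sub_ne_zero]
    exact fun h => hl (hα h).symm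
  have hdiag : ∀ j, HahnSeries.order (ι' (z j - PowerSeries.C (α j))) = n := by
    intro j
    have h1 := congrArg HahnSeries.order (hprod j)
    rw [order_fprod _ _ fun l _ => hne' j l, Finset.sum_eq_single j (fun l _ hl => hoff j l hl)
      (by simp)] at h1
    rw [h1, HahnSeries.order_pow, hXo]
    simp
  refine ⟨fun j => ι' (z j) * xinf, hzinj, ?_, ?_⟩
  · have hm1 : (∏ l, (X - C (HahnSeries.C (α l) * xinf)) : (LaurentSeries ℂ)[X]).Monic :=
      monic_prod_of_monic _ _ fun l _ => monic_X_sub_C _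
    have hd1 : (∏ l, (X - C (HahnSeries.C (α l) * xinf)) : (LaurentSeries ℂ)[X]).natDegree = n := by
      rw [natDegree_prod_of_monic _ _ fun l _ => monic_X_sub_C _]
      simp [hn]
    have hm2 : (∏ j, (X - C (ι' (z j) * xinf)) : (LaurentSeries ℂ)[X]).Monic :=
      monic_prod_of_monic _ _ fun l _ => monic_X_sub_C _
    have hd2 : (∏ j, (X - C (ι' (z j) * xinf)) : (LaurentSeries ℂ)[X]).natDegree = n := by
      rw [natDegree_prod_of_monic _ _ fun l _ => monic_X_sub_C _]
      simp only [natDegree_X_sub_C]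
      simp [hn]
    have hlt : (1 : (LaurentSeries ℂ)[X]).degree <
        (∏ l, (X - C (HahnSeries.C (α l) * xinf)) : (LaurentSeries ℂ)[X]).degree := by
      rw [degree_one, degree_eq_natDegree hm1.ne_zero, hd1]
      exact_mod_cast hn1
    have hm1' := hm1.sub_of_left hlt
    have hd1' : (∏ l, (X - C (HahnSeries.C (α l) * xinf)) - 1 : (LaurentSeries ℂ)[X]).degree =
        (n : WithBot ℕ) := by
      rw [degree_sub_eq_left_of_degree_lt hlt, degree_eq_natDegree hm1.ne_zero, hd1]
    have hd2' : (∏ j, (X - C (ι' (z j) * xinf)) : (LaurentSeries ℂ)[X]).degree =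
        (n : WithBot ℕ) := by
      rw [degree_eq_natDegree hm2.ne_zero, hd2]
    apply Polynomial.eq_of_degree_sub_lt_of_eval_index_eq (v := fun j => ι' (z j) * xinf) Finset.univ
      (hzinj.injOn)
    · have := degree_sub_lt_left (hd1'.trans hd2'.symm) hm1'.ne_zero
        (by rw [hm1'.leadingCoeff, hm2.leadingCoeff])
      rw [hd1'] at this
      rwa [Finset.card_univ, ← hn]
    · intro j _
      rw [eval_sub, eval_prod, eval_one, eval_prod]
      rw [Finset.prod_eq_zero (Finset.mem_univ j) (f := fun k => eval (ι' (z j) * xinf)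
        (X - C (ι' (z k) * xinf))) (by simp)]
      simp only [eval_sub, eval_X, eval_C]
      rw [Finset.prod_congr rfl fun l _ => hsub j l, Finset.prod_mul_distrib, hprod,
        Finset.prod_const, Finset.card_univ, ← hn, ← mul_pow, hX, one_pow, sub_self]
  · intro j i
    rw [Finset.prod_congr rfl fun l _ => hsub j l]
    rw [order_fprod _ _ fun l _ => mul_ne_zero (hne' j l) xinf_ne]
    rw [Finset.sum_congr rfl fun l _ => HahnSeries.order_mul (hne' j l) xinf_ne]
    rw [Finset.sum_add_distrib, Finset.sum_const, xinf_order]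
    have : ∑ l with g l = i, HahnSeries.order (ι' (z j - PowerSeries.C (α l))) =
        if g j = i then (n : ℤ) else 0 := by
      rw [Finset.sum_filter, Finset.sum_eq_single j]
      · rw [hdiag]
      · intro l _ hl
        rw [hoff j l hl]
        simp
      · simp
    rw [this]
    simp [add_comm]

/-- the index set of the roots -/
abbrev JJ (r₁ r₂ : ℕ) : Type := Fin r₁ ⊕ (Fin r₂ × Bool)

/-- the factor of a root -/
def gg (r₁ r₂ : ℕ) : JJ r₁ r₂ → Fin r₁ ⊕ Fin r₂
  | Sum.inl i => Sum.inl i
  | Sum.inr k => Sum.inr k.1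

/-- the slope of a root -/
noncomputable def aa {r₁ r₂ : ℕ} (a : Fin r₁ → ℤ) (b c : Fin r₂ → ℤ) : JJ r₁ r₂ → ℂ
  | Sum.inl i => (a i : ℂ)
  | Sum.inr k => ⟨(b k.1 : ℝ), if k.2 then Real.sqrt (c k.1) else - Real.sqrt (c k.1)⟩

theorem aa_inj {r₁ r₂ : ℕ} (a : Fin r₁ → ℤ) (b c : Fin r₂ → ℤ) (ha : Function.Injective a)
    (hbc : Function.Injective (fun k => (b k, c k))) (hc : ∀ k, 0 < c k) :
    Function.Injective (aa a b c) := by
  have hpos : ∀ k, 0 < Real.sqrt (c k) := fun k => Real.sqrt_pos.mpr (by exact_mod_cast hc k)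
  rintro (i | ⟨k, s⟩) (i' | ⟨k', s'⟩) h
  · simp only [aa] at h
    have h' : a i = a i' := by exact_mod_cast h
    rw [ha h']
  · exfalso
    have h1 := congrArg Complex.im h
    have h2 := hpos k'
    simp only [aa, Complex.intCast_im] at h1
    split_ifs at h1 <;> linarith
  · exfalso
    have h1 := congrArg Complex.im h
    have h2 := hpos k
    simp only [aa, Complex.intCast_im] at h1
    split_ifs at h1 <;> linarith
  · have h1 := congrArg Complex.im h
    have h0 := congrArg Complex.re h
    have h2 := hpos k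
    have h3 := hpos k'
    simp only [aa] at h1 h0
    have hb : b k = b k' := by exact_mod_cast h0
    have hs : s = s' := by
      cases s <;> cases s' <;> simp at h1 ⊢ <;> linarith
    have hsq : Real.sqrt (c k) = Real.sqrt (c k') := by
      subst hs
      cases s <;> simpa using h1
    have hcc : c k = c k' := by
      have h4 : Real.sqrt (c k) ^ 2 = Real.sqrt (c k') ^ 2 := by rw [hsq]
      rw [Real.sq_sqrt (by exact_mod_cast (hc k).le), Real.sq_sqrt (by exact_mod_cast (hc k').le)]
        at h4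
      exact_mod_cast h4
    have hk : k = k' := hbc (by simp [hb, hcc])
    rw [hk, hs]

theorem spec_fac {r₁ r₂ : ℕ} (a : Fin r₁ → ℤ) (b c : Fin r₂ → ℤ) (hc : ∀ k, 0 < c k)
    (i : Fin r₁ ⊕ Fin r₂) :
    spec xinf (fac a b c i) =
      ∏ l with gg r₁ r₂ l = i, (X - C (HahnSeries.C (aa a b c l) * xinf)) := by
  rcases i with i | k
  · have hf : (Finset.univ.filter fun l : JJ r₁ r₂ => gg r₁ r₂ l = Sum.inl i) = {Sum.inl i} := by
      ext l
      simp only [Finset.mem_filter, Finset.mem_univ, true_and, Finset.mem_singleton]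
      rcases l with l | l <;> simp [gg]
    rw [hf, Finset.prod_singleton]
    simp [spec, fac, aa]
  · have hf : (Finset.univ.filter fun l : JJ r₁ r₂ => gg r₁ r₂ l = Sum.inr k) =
        {Sum.inr (k, true), Sum.inr (k, false)} := by
      ext l
      simp only [Finset.mem_filter, Finset.mem_univ, true_and, Finset.mem_insert,
        Finset.mem_singleton]
      rcases l with l | ⟨l, s⟩
      · simp [gg]
      · cases s <;> simp [gg]
    rw [hf, Finset.prod_pair (by simp)]
    have h1 : aa a b c (Sum.inr (k, true)) = (b k : ℂ) + Complex.I * (Real.sqrt (c k) : ℝ) := by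
      apply Complex.ext <;> simp [aa]
    have h2 : aa a b c (Sum.inr (k, false)) = (b k : ℂ) - Complex.I * (Real.sqrt (c k) : ℝ) := by
      apply Complex.ext <;> simp [aa]
    have h3 : (Complex.I * (Real.sqrt (c k) : ℝ)) ^ 2 = - (c k : ℂ) := by
      rw [mul_pow, Complex.I_sq, ← Complex.ofReal_pow, Real.sq_sqrt (by exact_mod_cast (hc k).le)]
      simp
    set q : ℂ := Complex.I * (Real.sqrt (c k) : ℝ) with hq
    have h4 : (C (HahnSeries.C q : LaurentSeries ℂ) : (LaurentSeries ℂ)[X]) ^ 2 =
        - C (HahnSeries.C (c k : ℂ)) := by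
      rw [← map_pow, ← map_pow, h3, map_neg, map_neg]
    rw [h1, h2]
    simp only [spec, fac, Polynomial.map_add, Polynomial.map_sub, Polynomial.map_pow,
      Polynomial.map_X, Polynomial.map_C, coe_eval₂RingHom, eval₂_X, eval₂_C, eval₂_mul, eval₂_pow]
    simp only [map_mul, map_pow, map_add, map_sub]
    have h5 : (C ((Int.castRingHom (LaurentSeries ℂ)) (c k)) : (LaurentSeries ℂ)[X]) =
      C (HahnSeries.C (c k : ℂ)) := by simp
    have h6 : (C ((Int.castRingHom (LaurentSeries ℂ)) (b k)) : (LaurentSeries ℂ)[X]) =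
      C (HahnSeries.C (b k : ℂ)) := by simp
    rw [h5, h6]
    linear_combination (C xinf) ^ 2 * h4

theorem inf_proof : Inf := by
  classical
  intro r₁ r₂ a b c ha hbc hc hr
  have hcard : r₁ + 2 * r₂ = Fintype.card (JJ r₁ r₂) := by
    simp [JJ, mul_comm]
  obtain ⟨ϑ, h1, h2, h3⟩ := inf_core (gg r₁ r₂) (aa a b c) (aa_inj a b c ha hbc hc) (r₁ + 2 * r₂)
    hcard (by omega)
  have e : Fin (r₁ + 2 * r₂) ≃ JJ r₁ r₂ := by
    rw [hcard]
    exact (Fintype.equivFin _).symm
  have hfib : ∀ (f : JJ r₁ r₂ → (LaurentSeries ℂ)[X]), ∏ i, ∏ l with gg r₁ r₂ l = i, f l =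
      ∏ l, f l := fun f => Finset.prod_fiberwise _ _ _
  refine ⟨fun j => ϑ (e j), h1.comp e.injective, ?_, ?_⟩
  · have h4 : spec xinf (fam a b c) = ∏ i, spec xinf (fac a b c i) - 1 := by
      simp only [spec, fam, Polynomial.map_sub, Polynomial.map_one, Polynomial.map_prod]
    rw [h4, Finset.prod_congr rfl fun i _ => spec_fac a b c hc i, hfib, h2]
    exact (Equiv.prod_comp e fun j => (X - C (ϑ j))).symm
  · intro i₀ x hx0 hx
    have hord : ∀ j i, HahnSeries.order (ev2 xinf (ϑ j) (fac a b c i)) =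
        - ((Finset.univ.filter fun l => gg r₁ r₂ l = i).card : ℤ) +
          if gg r₁ r₂ j = i then ((r₁ + 2 * r₂ : ℕ) : ℤ) else 0 := by
      intro j i
      rw [← h3 j i, ev2, spec_fac a b c hc i, eval_prod]
      simp only [eval_sub, eval_X, eval_C]
    have hsum : ∀ j, - ∑ i, x i * ((Finset.univ.filter fun l => gg r₁ r₂ l = i).card : ℚ) +
        ((r₁ + 2 * r₂ : ℕ) : ℚ) * x (gg r₁ r₂ j) = 0 := by
      intro j
      have h8 : ∀ i, ((HahnSeries.order (ev2 (HahnSeries.single (-((1 : ℕ) : ℤ)) (1 : ℂ))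
          ((fun j => ϑ (e j)) (e.symm j)) (fac a b c i)) : ℤ) : ℚ) =
          - ((Finset.univ.filter fun l => gg r₁ r₂ l = i).card : ℚ) +
          if gg r₁ r₂ j = i then ((r₁ + 2 * r₂ : ℕ) : ℚ) else 0 := by
        intro i
        simp only [Equiv.apply_symm_apply]
        rw [hord j i]
        split_ifs <;> push_cast <;> ring
      have h9 : ∑ i, x i * (- ((Finset.univ.filter fun l => gg r₁ r₂ l = i).card : ℚ) +
          if gg r₁ r₂ j = i then ((r₁ + 2 * r₂ : ℕ) : ℚ) else 0) = 0 := by
        refine Eq.trans ?_ (hx (e.symm j))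
        exact Finset.sum_congr rfl fun i _ => by rw [h8 i]
      rw [← h9]
      simp only [mul_add, Finset.sum_add_distrib, mul_neg, Finset.sum_neg_distrib, mul_ite,
        mul_zero, Finset.sum_ite_eq, Finset.mem_univ, if_true]
      ring
    have hsurj : Function.Surjective (gg r₁ r₂) := by
      rintro (i | k)
      · exact ⟨Sum.inl i, rfl⟩
      · exact ⟨Sum.inr (k, true), rfl⟩
    obtain ⟨j₀, hj₀⟩ := hsurj i₀
    have h5 := hsum j₀
    rw [hj₀, hx0, mul_zero, add_zero] at h5
    funext i
    obtain ⟨j, hj⟩ := hsurj i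
    have h6 := hsum j
    rw [h5, zero_add, hj] at h6
    rcases mul_eq_zero.mp h6 with h7 | h7
    · exfalso
      have : r₁ + 2 * r₂ = 0 := by exact_mod_cast h7
      omega
    · exact h7

end Pool.Agent.H33R4
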