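import Mathlib
import Pool.Agent.H33R4.Spec

set_option autoImplicit false

/-!
# LEMA: the functional independence lemma
-/

namespace Pool.Agent.H33R4

namespace LEMAaux

open MvPolynomial

variable {Ω : Type} [Field Ω] {ι : Type}

/-- the derivation acting on coefficients -/
noncomputable def Dc (D : Derivation ℤ Ω Ω) (P : MvPolynomial ι Ω) : MvPolynomial ι Ω :=
  ∑ m ∈ P.support, monomial m (D (coeff m P))

theorem coeff_Dc (D : Derivation ℤ Ω Ω) (P : MvPolynomial ι Ω) (m : ι →₀ ℕ) :
    coeff m (Dc D P) = D (coeff m P) := by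
  classical
  unfold Dc
  rw [coeff_sum]
  by_cases hm : m ∈ P.support
  · rw [Finset.sum_eq_single m]
    · rw [coeff_monomial, if_pos rfl]
    · intro b _ hb
      rw [coeff_monomial, if_neg hb]
    · intro h; exact absurd hm h
  · rw [Finset.sum_eq_zero]
    · rw [notMem_support_iff.1 hm, map_zero]
    · intro b hb
      rw [coeff_monomial, if_neg]
      rintro rfl
      exact hm hb

theorem Dc_add (D : Derivation ℤ Ω Ω) (P Q : MvPolynomial ι Ω) :
    Dc D (P + Q) = Dc D P + Dc D Q := by
  ext m
  rw [coeff_add, coeff_Dc, coeff_Dc, coeff_Dc, coeff_add, map_add]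

theorem Dc_C (D : Derivation ℤ Ω Ω) (a : Ω) : Dc D (C a : MvPolynomial ι Ω) = C (D a) := by
  classical
  ext m
  rw [coeff_Dc, coeff_C, coeff_C]
  split_ifs
  · rfl
  · rw [map_zero]

theorem Dc_mul_X (D : Derivation ℤ Ω Ω) (P : MvPolynomial ι Ω) (i : ι) :
    Dc D (P * X i) = Dc D P * X i := by
  classical
  ext m
  rw [coeff_Dc, coeff_mul_X', coeff_mul_X']
  split_ifs
  · rw [coeff_Dc]
  · rw [map_zero]

theorem D_eval [Fintype ι] (D : Derivation ℤ Ω Ω) (y : ι → Ω) (P : MvPolynomial ι Ω) :
    D (eval y P) = eval y (Dc D P) + ∑ i, D (y i) * eval y (pderiv i P) := by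
  classical
  induction P using MvPolynomial.induction_on with
  | C a =>
    rw [Dc_C, eval_C, eval_C]
    simp
  | add P Q hP hQ =>
    rw [map_add, map_add, hP, hQ, Dc_add, map_add]
    have : ∀ i, D (y i) * eval y (pderiv i (P + Q)) =
        D (y i) * eval y (pderiv i P) + D (y i) * eval y (pderiv i Q) := by
      intro i; rw [map_add, map_add, mul_add]
    rw [Finset.sum_congr rfl fun i _ => this i, Finset.sum_add_distrib]
    ring
  | mul_X P j hP =>
    rw [map_mul (eval y) P, eval_X, Derivation.leibniz, hP, Dc_mul_X, map_mul (eval y), eval_X]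
    have : ∀ i, D (y i) * eval y (pderiv i (P * X j)) =
        y j * (D (y i) * eval y (pderiv i P)) + (if i = j then D (y j) * eval y P else 0) := by
      intro i
      rw [pderiv_mul, map_add, map_mul, map_mul, eval_X, pderiv_X]
      by_cases h : i = j
      · subst h
        simp
        ring
      · rw [if_neg h, Pi.single_eq_of_ne (Ne.symm h)]
        simp
        ring
    rw [Finset.sum_congr rfl fun i _ => this i, Finset.sum_add_distrib, ← Finset.mul_sum,
      Finset.sum_ite_eq']
    simp only [Finset.mem_univ, if_true, smul_eq_mul]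
    ring

theorem weight_eq (m : ι →₀ ℕ) : Finsupp.weight (1 : ι → ℕ) m = m.degree := by
  rw [Finsupp.degree_eq_weight_one]
  rfl

theorem eval_mem (K : Subfield Ω) (f : ι → Ω) (hf : ∀ i, f i ∈ K) (P : MvPolynomial ι Ω)
    (hP : ∀ m, coeff m P ∈ K) : eval f P ∈ K := by
  rw [eval_eq]
  apply sum_mem
  intro m _
  exact mul_mem (hP m) (prod_mem fun i _ => pow_mem (hf i) _)

section main

variable [CharZero Ω] (D : Derivation ℤ Ω Ω) (K : Subfield Ω)
  (hK : ∀ x ∈ K, D x ∈ K) (hC : ∀ x, D x = 0 → x ∈ K) [Fintype ι] (y : ι → Ω)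
  (hy : ∀ i, D (y i) ∈ K) (lam : ι → ℤ)
  (hlam : ∀ c : ι → Ω, (∀ i, D (c i) = 0) → ∑ i, c i * y i ∈ K → ∑ i, c i * (lam i : Ω) = 0)

/-- the statement in degree `d` -/
def Cl (D : Derivation ℤ Ω Ω) (K : Subfield Ω) (y : ι → Ω) (lam : ι → ℤ) (d : ℕ) : Prop :=
  ∀ Q R : MvPolynomial ι Ω, (∀ m, coeff m Q ∈ K) → (∀ m, coeff m R ∈ K) →
    (∀ m, coeff m Q ≠ 0 → m.degree = d) → (∀ m, coeff m R ≠ 0 → m.degree < d) →
    eval y (Q + R) = 0 → eval (fun i => (lam i : Ω)) Q = 0

omit [CharZero Ω] in
theorem D_int (z : ℤ) : D (z : Ω) = 0 := by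
  have := D.map_algebraMap z
  simpa using this

omit [CharZero Ω] in
theorem D_eval_lam (P : MvPolynomial ι Ω) :
    D (eval (fun i => (lam i : Ω)) P) = eval (fun i => (lam i : Ω)) (Dc D P) := by
  rw [D_eval]
  have : ∀ i, D ((lam i : ℤ) : Ω) * eval (fun i => (lam i : Ω)) (pderiv i P) = 0 := by
    intro i; rw [D_int, zero_mul]
  rw [Finset.sum_congr rfl fun i _ => this i]
  simp

omit [CharZero Ω] in
theorem coeff_sum_pderiv (a : ι → Ω) (P : MvPolynomial ι Ω) (m : ι →₀ ℕ) :
    coeff m (∑ i, C (a i) * pderiv i P) =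
      ∑ i, a i * (coeff (m + Finsupp.single i 1) P * (m i + 1)) := by
  rw [coeff_sum]
  refine Finset.sum_congr rfl fun i _ => ?_
  rw [coeff_C_mul, coeff_pderiv]

omit [CharZero Ω] in
theorem mem_sum_pderiv (a : ι → Ω) (ha : ∀ i, a i ∈ K) (P : MvPolynomial ι Ω)
    (hP : ∀ m, coeff m P ∈ K) (m : ι →₀ ℕ) :
    coeff m (∑ i, C (a i) * pderiv i P) ∈ K := by
  rw [coeff_sum_pderiv]
  apply sum_mem
  intro i _
  apply mul_mem (ha i)
  apply mul_mem (hP _)
  exact add_mem (natCast_mem K _) (one_mem K)

omit [CharZero Ω] in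
theorem ne_sum_pderiv (a : ι → Ω) (P : MvPolynomial ι Ω) (m : ι →₀ ℕ)
    (h : coeff m (∑ i, C (a i) * pderiv i P) ≠ 0) :
    ∃ i, coeff (m + Finsupp.single i 1) P ≠ 0 := by
  rw [coeff_sum_pderiv] at h
  by_contra hne
  push Not at hne
  apply h
  apply Finset.sum_eq_zero
  intro i _
  rw [hne i]
  ring

omit [CharZero Ω] in
theorem eval_sum_pderiv (a : ι → Ω) (P : MvPolynomial ι Ω) (f : ι → Ω) :
    eval f (∑ i, C (a i) * pderiv i P) = ∑ i, a i * eval f (pderiv i P) := by
  rw [map_sum]
  refine Finset.sum_congr rfl fun i _ => ?_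
  rw [map_mul, eval_C]

include hK hC hy hlam in
/-- case (A): the coefficients of the top component are constants -/
theorem caseA (d : ℕ) (ih : Cl D K y lam d) (Q R : MvPolynomial ι Ω)
    (hQK : ∀ m, coeff m Q ∈ K) (hRK : ∀ m, coeff m R ∈ K)
    (hQ : ∀ m, coeff m Q ≠ 0 → m.degree = d + 1) (hR : ∀ m, coeff m R ≠ 0 → m.degree < d + 1)
    (h0 : eval y (Q + R) = 0) (hconst : ∀ m, D (coeff m Q) = 0) :
    eval (fun i => (lam i : Ω)) Q = 0 := by
  classical
  set Rd := homogeneousComponent d R with hRd
  set R' := R - Rd with hR'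
  have hsum : Rd + R' = R := by rw [hR']; ring
  have cRd : ∀ m, coeff m Rd = if m.degree = d then coeff m R else 0 := fun m =>
    coeff_homogeneousComponent d R m
  have cR' : ∀ m, coeff m R' = if m.degree = d then 0 else coeff m R := by
    intro m
    rw [hR', coeff_sub, cRd]
    split_ifs <;> ring
  have hRdK : ∀ m, coeff m Rd ∈ K := by
    intro m; rw [cRd]; split_ifs
    · exact hRK m
    · exact zero_mem K
  have hR'K : ∀ m, coeff m R' ∈ K := by
    intro m; rw [cR']; split_ifs
    · exact zero_mem K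
    · exact hRK m
  have hDQ : Dc D Q = 0 := by
    ext m
    rw [coeff_Dc, hconst, coeff_zero]
  have key := ih (Dc D Rd + ∑ i, C (D (y i)) * pderiv i Q)
    (Dc D R' + ∑ i, C (D (y i)) * pderiv i R)
    (by
      intro m
      rw [coeff_add, coeff_Dc]
      exact add_mem (hK _ (hRdK m)) (mem_sum_pderiv K _ hy Q hQK m))
    (by
      intro m
      rw [coeff_add, coeff_Dc]
      exact add_mem (hK _ (hR'K m)) (mem_sum_pderiv K _ hy R hRK m))
    (by
      intro m hm
      rw [coeff_add] at hm
      by_cases h1 : coeff m (∑ i, C (D (y i)) * pderiv i Q) = 0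
      · rw [h1, add_zero, coeff_Dc, cRd] at hm
        by_contra h2
        rw [if_neg h2, map_zero] at hm
        exact hm rfl
      · obtain ⟨i, hi⟩ := ne_sum_pderiv _ Q m h1
        have := hQ _ hi
        rw [map_add, Finsupp.degree_single] at this
        omega)
    (by
      intro m hm
      rw [coeff_add] at hm
      by_cases h1 : coeff m (∑ i, C (D (y i)) * pderiv i R) = 0
      · rw [h1, add_zero, coeff_Dc, cR'] at hm
        by_cases h2 : m.degree = d
        · rw [if_pos h2, map_zero] at hm
          exact absurd rfl hm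
        · rw [if_neg h2] at hm
          have h3 : coeff m R ≠ 0 := by
            intro h4; rw [h4, map_zero] at hm; exact hm rfl
          have := hR m h3
          omega
      · obtain ⟨i, hi⟩ := ne_sum_pderiv _ R m h1
        have := hR _ hi
        rw [map_add, Finsupp.degree_single] at this
        omega)
    (by
      have h1 := D_eval D y (Q + R)
      rw [h0, map_zero, Dc_add, hDQ, zero_add, ← hsum, Dc_add] at h1
      rw [hsum] at h1
      have h2 : ∀ i, D (y i) * eval y (pderiv i (Q + R)) =
          D (y i) * eval y (pderiv i Q) + D (y i) * eval y (pderiv i R) := by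
        intro i; rw [map_add, map_add, mul_add]
      rw [Finset.sum_congr rfl fun i _ => h2 i, Finset.sum_add_distrib, map_add] at h1
      rw [map_add, map_add, map_add, eval_sum_pderiv, eval_sum_pderiv]
      rw [h1]
      ring)
  rw [map_add, eval_sum_pderiv, ← D_eval_lam] at key
  set c : ι → Ω := fun i => eval (fun i => (lam i : Ω)) (pderiv i Q) with hc
  have hc0 : ∀ i, D (c i) = 0 := by
    intro i
    have h1 : Dc D (pderiv i Q) = 0 := by
      ext m
      rw [coeff_Dc, coeff_pderiv, coeff_zero, Derivation.leibniz, hconst, map_add,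
        Derivation.map_one_eq_zero, Derivation.map_natCast]
      simp
    rw [hc]
    simp only
    rw [D_eval_lam, h1, map_zero]
  have hz : D (eval (fun i => (lam i : Ω)) Rd + ∑ i, c i * y i) = 0 := by
    rw [map_add, map_sum]
    have h2 : ∀ i, D (c i * y i) = D (y i) * c i := by
      intro i
      rw [Derivation.leibniz, hc0, smul_eq_mul, smul_eq_mul, mul_zero, add_zero, mul_comm]
    rw [Finset.sum_congr rfl fun i _ => h2 i]
    exact key
  have hz1 := hC _ hz
  have hz2 : eval (fun i => (lam i : Ω)) Rd ∈ K :=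
    eval_mem K _ (fun i => intCast_mem K _) Rd hRdK
  have hz3 : ∑ i, c i * y i ∈ K := by
    have := sub_mem hz1 hz2
    rwa [add_sub_cancel_left] at this
  have hz4 := hlam c hc0 hz3
  have hhom : Q.IsHomogeneous (d + 1) := by
    intro m hm
    rw [weight_eq]
    exact hQ m hm
  have heul := congrArg (eval (fun i => (lam i : Ω))) hhom.sum_X_mul_pderiv
  rw [map_sum] at heul
  have h3 : ∀ i, eval (fun i => (lam i : Ω)) (X i * pderiv i Q) = c i * (lam i : Ω) := by
    intro i
    rw [map_mul, eval_X, mul_comm]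
  rw [Finset.sum_congr rfl fun i _ => h3 i, hz4, map_nsmul, nsmul_eq_mul] at heul
  have h4 : ((d + 1 : ℕ) : Ω) ≠ 0 := Nat.cast_ne_zero.2 (Nat.succ_ne_zero d)
  exact (mul_eq_zero.1 heul.symm).resolve_left h4

include hK hC hy hlam in
theorem step (d : ℕ) (ih : Cl D K y lam d) : Cl D K y lam (d + 1) := by
  classical
  suffices H : ∀ n : ℕ, ∀ Q R : MvPolynomial ι Ω, Q.support.card ≤ n → (∀ m, coeff m Q ∈ K) →
      (∀ m, coeff m R ∈ K) → (∀ m, coeff m Q ≠ 0 → m.degree = d + 1) →
      (∀ m, coeff m R ≠ 0 → m.degree < d + 1) → eval y (Q + R) = 0 →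
      eval (fun i => (lam i : Ω)) Q = 0 by
    intro Q R h1 h2 h3 h4 h5
    exact H _ Q R le_rfl h1 h2 h3 h4 h5
  intro n
  induction n with
  | zero =>
    intro Q R hn _ _ _ _ _
    have : Q = 0 := by
      rw [← MvPolynomial.support_eq_empty]
      exact Finset.card_eq_zero.1 (Nat.le_zero.1 hn)
    rw [this, map_zero]
  | succ n ihn =>
    intro Q R hn hQK hRK hQ hR h0
    by_cases hQ0 : Q = 0
    · rw [hQ0, map_zero]
    obtain ⟨μ, hμ⟩ := MvPolynomial.exists_coeff_ne_zero hQ0
    set a := coeff μ Q with ha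
    have haK : a⁻¹ ∈ K := inv_mem (hQK μ)
    have ha' : a⁻¹ ≠ 0 := inv_ne_zero hμ
    suffices hs : eval (fun i => (lam i : Ω)) (C a⁻¹ * Q) = 0 by
      rw [map_mul, eval_C] at hs
      exact (mul_eq_zero.1 hs).resolve_left ha'
    obtain ⟨Q1, hQ1⟩ : ∃ Q1, Q1 = C a⁻¹ * Q := ⟨_, rfl⟩
    obtain ⟨R1, hR1⟩ : ∃ R1, R1 = C a⁻¹ * R := ⟨_, rfl⟩
    rw [← hQ1]
    have cQ1 : ∀ m, coeff m Q1 = a⁻¹ * coeff m Q := fun m => by rw [hQ1, coeff_C_mul]
    have cR1 : ∀ m, coeff m R1 = a⁻¹ * coeff m R := fun m => by rw [hR1, coeff_C_mul]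
    have hQ1K : ∀ m, coeff m Q1 ∈ K := fun m => by rw [cQ1]; exact mul_mem haK (hQK m)
    have hR1K : ∀ m, coeff m R1 ∈ K := fun m => by rw [cR1]; exact mul_mem haK (hRK m)
    have hQ1d : ∀ m, coeff m Q1 ≠ 0 → m.degree = d + 1 := by
      intro m hm; rw [cQ1] at hm; exact hQ m (right_ne_zero_of_mul hm)
    have hR1d : ∀ m, coeff m R1 ≠ 0 → m.degree < d + 1 := by
      intro m hm; rw [cR1] at hm; exact hR m (right_ne_zero_of_mul hm)
    have h10 : eval y (Q1 + R1) = 0 := by
      rw [hQ1, hR1, ← mul_add, map_mul, h0, mul_zero]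
    have hμ1 : coeff μ Q1 = 1 := by rw [cQ1]; exact inv_mul_cancel₀ hμ
    have hsupp : Q1.support ⊆ Q.support := by
      intro m hm
      rw [mem_support_iff] at hm ⊢
      rw [cQ1] at hm
      exact right_ne_zero_of_mul hm
    have hμs : μ ∈ Q.support := mem_support_iff.2 hμ
    have hcard : (Q.support.erase μ).card ≤ n := by
      rw [Finset.card_erase_of_mem hμs]
      omega
    -- the derivative
    obtain ⟨T, hT⟩ : ∃ T, T = Dc D Q1 := ⟨_, rfl⟩
    obtain ⟨L, hL⟩ : ∃ L, L = (∑ i, C (D (y i)) * pderiv i Q1) +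
      (Dc D R1 + ∑ i, C (D (y i)) * pderiv i R1) := ⟨_, rfl⟩
    have cT : ∀ m, coeff m T = D (coeff m Q1) := fun m => by rw [hT, coeff_Dc]
    have hTK : ∀ m, coeff m T ∈ K := fun m => by rw [cT]; exact hK _ (hQ1K m)
    have hLK : ∀ m, coeff m L ∈ K := by
      intro m
      rw [hL, coeff_add, coeff_add, coeff_Dc]
      exact add_mem (mem_sum_pderiv K _ hy Q1 hQ1K m)
        (add_mem (hK _ (hR1K m)) (mem_sum_pderiv K _ hy R1 hR1K m))
    have hTd : ∀ m, coeff m T ≠ 0 → m.degree = d + 1 := by
      intro m hm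
      apply hQ1d m
      intro h; rw [cT, h, map_zero] at hm; exact hm rfl
    have hLd : ∀ m, coeff m L ≠ 0 → m.degree < d + 1 := by
      intro m hm
      rw [hL, coeff_add, coeff_add, coeff_Dc] at hm
      by_cases h1 : coeff m (∑ i, C (D (y i)) * pderiv i Q1) = 0
      · by_cases h2 : coeff m (∑ i, C (D (y i)) * pderiv i R1) = 0
        · rw [h1, h2, zero_add, add_zero] at hm
          apply hR1d m
          intro h; rw [h, map_zero] at hm; exact hm rfl
        · obtain ⟨i, hi⟩ := ne_sum_pderiv _ R1 m h2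
          have := hR1d _ hi
          rw [map_add, Finsupp.degree_single] at this
          omega
      · obtain ⟨i, hi⟩ := ne_sum_pderiv _ Q1 m h1
        have := hQ1d _ hi
        rw [map_add, Finsupp.degree_single] at this
        omega
    have hTL : eval y (T + L) = 0 := by
      have h1 := D_eval D y (Q1 + R1)
      rw [h10, map_zero, Dc_add] at h1
      have h2 : ∀ i, D (y i) * eval y (pderiv i (Q1 + R1)) =
          D (y i) * eval y (pderiv i Q1) + D (y i) * eval y (pderiv i R1) := by
        intro i; rw [map_add, map_add, mul_add]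
      rw [Finset.sum_congr rfl fun i _ => h2 i, Finset.sum_add_distrib, map_add] at h1
      rw [hL, map_add, map_add, map_add, eval_sum_pderiv, eval_sum_pderiv, hT, h1]
      ring
    have hTs : T.support ⊆ Q.support.erase μ := by
      intro m hm
      rw [mem_support_iff] at hm
      rw [Finset.mem_erase]
      constructor
      · rintro rfl
        rw [cT, hμ1, Derivation.map_one_eq_zero] at hm
        exact hm rfl
      · apply hsupp
        rw [mem_support_iff]
        intro h; rw [cT, h, map_zero] at hm; exact hm rfl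
    have hTlam := ihn T L ((Finset.card_le_card hTs).trans hcard) hTK hLK hTd hLd hTL
    by_cases hT0 : T = 0
    · apply caseA D K hK hC y hy lam hlam d ih Q1 R1 hQ1K hR1K hQ1d hR1d h10
      intro m
      rw [← cT, hT0, coeff_zero]
    · obtain ⟨ν, hν⟩ := MvPolynomial.exists_coeff_ne_zero hT0
      obtain ⟨q, hq⟩ : ∃ q, q = coeff ν Q1 / coeff ν T := ⟨_, rfl⟩
      have hqK : q ∈ K := by rw [hq]; exact div_mem (hQ1K ν) (hTK ν)
      have hνQ1 : ν ∈ Q1.support := by
        rw [mem_support_iff]
        intro h; rw [cT, h, map_zero] at hν; exact hν rfl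
      have hνQ : ν ∈ Q.support := hsupp hνQ1
      have hs2 : (Q1 - C q * T).support ⊆ Q.support.erase ν := by
        intro m hm
        rw [mem_support_iff, coeff_sub, coeff_C_mul] at hm
        rw [Finset.mem_erase]
        constructor
        · rintro rfl
          apply hm
          rw [hq, div_mul_cancel₀ _ hν, sub_self]
        · by_contra h
          have h1 : m ∉ Q1.support := fun h2 => h (hsupp h2)
          have h3 : m ∉ T.support := fun h2 => h (Finset.mem_of_mem_erase (hTs h2))
          rw [notMem_support_iff] at h1 h3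
          rw [h1, h3, mul_zero, sub_zero] at hm
          exact hm rfl
      have hcard2 : (Q.support.erase ν).card ≤ n := by
        rw [Finset.card_erase_of_mem hνQ]
        omega
      have h2 := ihn (Q1 - C q * T) (R1 - C q * L) ((Finset.card_le_card hs2).trans hcard2)
        (fun m => by
          rw [coeff_sub, coeff_C_mul]
          exact sub_mem (hQ1K m) (mul_mem hqK (hTK m)))
        (fun m => by
          rw [coeff_sub, coeff_C_mul]
          exact sub_mem (hR1K m) (mul_mem hqK (hLK m)))
        (fun m hm => by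
          rw [coeff_sub, coeff_C_mul] at hm
          by_cases h1 : coeff m Q1 = 0
          · rw [h1, zero_sub, neg_ne_zero] at hm
            exact hTd m (right_ne_zero_of_mul hm)
          · exact hQ1d m h1)
        (fun m hm => by
          rw [coeff_sub, coeff_C_mul] at hm
          by_cases h1 : coeff m R1 = 0
          · rw [h1, zero_sub, neg_ne_zero] at hm
            exact hLd m (right_ne_zero_of_mul hm)
          · exact hR1d m h1)
        (by
          have e : Q1 - C q * T + (R1 - C q * L) = (Q1 + R1) - C q * (T + L) := by ring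
          rw [e, map_sub, map_mul, h10, hTL, mul_zero, sub_zero])
      rw [map_sub, map_mul, hTlam, mul_zero, sub_zero] at h2
      exact h2

include hK hC hy hlam in
theorem all (d : ℕ) : Cl D K y lam d := by
  classical
  induction d with
  | zero =>
    intro Q R _ _ hQ hR h0
    have hR0 : R = 0 := by
      ext m
      by_contra h
      exact absurd (hR m h) (Nat.not_lt_zero _)
    have hQC : Q = C (coeff 0 Q) := by
      ext m
      rw [coeff_C]
      split_ifs with h
      · rw [h]
      · by_contra h1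
        have := hQ m h1
        rw [Finsupp.degree_eq_zero_iff] at this
        exact h this.symm
    rw [hR0, add_zero, hQC, eval_C] at h0
    rw [hQC, h0]
    simp
  | succ d ih => exact step D K hK hC y hy lam hlam d ih

end main

end LEMAaux

open LEMAaux MvPolynomial in
theorem lemA_proof : LemA := by
  intro Ω _ _ D K hK hC ι _ y hy lam hlam d P hP h0
  have h1 := all D K hK hC y hy lam hlam d (MvPolynomial.map (algebraMap ℚ Ω) P) 0
    (by
      intro m
      rw [coeff_map]
      exact SubfieldClass.ratCast_mem K _)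
    (by intro m; rw [coeff_zero]; exact zero_mem K)
    (by
      intro m hm
      rw [coeff_map] at hm
      have hm' : coeff m P ≠ 0 := by
        intro h; rw [h, map_zero] at hm; exact hm rfl
      have := hP hm'
      rw [weight_eq] at this
      exact this)
    (by intro m hm; rw [coeff_zero] at hm; exact absurd rfl hm)
    (by rw [add_zero, ← eval₂_eq_eval_map, ← aeval_def]; exact h0)
  have h2 : algebraMap ℚ Ω (MvPolynomial.aeval (fun i => (lam i : ℚ)) P) = 0 := by
    rw [← h1, ← eval₂_eq_eval_map, aeval_def, MvPolynomial.hom_eval₂]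
    congr 1
    funext i; simp
  exact (map_eq_zero_iff _ (algebraMap ℚ Ω).injective).1 h2

end Pool.Agent.H33R4
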