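import Mathlib
import Pool.Agent.H33R4.Spec

set_option autoImplicit false

/-! # Formal properties of `IsLog` -/

namespace Pool.Agent.H33R4

open Polynomial NumberField Pool.Agent.H637R2.Leo

namespace LOGB

variable {p : ℕ} {B : Type} [CommRing B]

theorem dvd_pow_sub {x l : B} (h : IsLog p x l) (k : ℕ) : (p : B) ^ k ∣ x ^ (p ^ k) - 1 := by
  have h1 : (p : B) ^ k ∣ x ^ (p ^ k) - 1 - (p : B) ^ k * l :=
    (pow_dvd_pow _ (by omega)).trans (h k)
  have h2 := dvd_add h1 (Dvd.intro l rfl : (p : B) ^ k ∣ (p : B) ^ k * l)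
  rwa [sub_add_cancel] at h2

theorem tfk (tf : ∀ b : B, (p : B) * b = 0 → b = 0) (k : ℕ) (b : B) (h : (p : B) ^ k * b = 0) :
    b = 0 := by
  induction k with
  | zero => rwa [pow_zero, one_mul] at h
  | succ k ih =>
    apply ih
    apply tf
    rw [← h]; ring

theorem canc (tf : ∀ b : B, (p : B) * b = 0 → b = 0) (k j : ℕ) (a : B)
    (h : (p : B) ^ (k + j) ∣ (p : B) ^ k * a) : (p : B) ^ j ∣ a := by
  obtain ⟨c, hc⟩ := h
  refine ⟨c, ?_⟩
  have h1 : (p : B) ^ k * (a - (p : B) ^ j * c) = 0 := by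
    rw [mul_sub, hc]; ring
  exact sub_eq_zero.1 (tfk tf k _ h1)

theorem one_step {x : B} {M : ℕ} (hM : 1 ≤ M) (h : (p : B) ^ M ∣ x - 1) :
    (p : B) ^ (M + 1) ∣ x ^ p - 1 := by
  rw [← geom_sum_mul, mul_comm, pow_succ]
  apply mul_dvd_mul h
  have hp : (p : B) ∣ x - 1 := (dvd_pow_self _ (by omega)).trans h
  have e : ∑ i ∈ Finset.range p, x ^ i = ∑ i ∈ Finset.range p, (x ^ i - 1) + p := by
    rw [Finset.sum_sub_distrib]
    simp
  rw [e]
  refine dvd_add (Finset.dvd_sum fun i _ => ?_) dvd_rfl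
  exact hp.trans (sub_one_dvd_pow_sub_one x i)

theorem steps {x : B} {N : ℕ} (hN : 1 ≤ N) (h : (p : B) ^ N ∣ x - 1) (k : ℕ) :
    (p : B) ^ (N + k) ∣ x ^ (p ^ k) - 1 := by
  induction k with
  | zero => simpa using h
  | succ k ih =>
    rw [pow_succ p k, pow_mul, ← add_assoc]
    exact one_step (by omega) ih

end LOGB

open LOGB in
theorem logB_proof : LogB := by
  intro p hp B _
  refine ⟨?_, ?_, ?_, ?_, ?_⟩
  · intro k
    simp
  · intro x y l m hx hy k
    have h1 : (p : B) ^ (2 * k) ∣ (x ^ (p ^ k) - 1) * (y ^ (p ^ k) - 1) := by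
      rw [two_mul, pow_add]
      exact mul_dvd_mul (dvd_pow_sub hx k) (dvd_pow_sub hy k)
    have e : (x * y) ^ (p ^ k) - 1 - (p : B) ^ k * (l + m) =
        (x ^ (p ^ k) - 1) * (y ^ (p ^ k) - 1) + (x ^ (p ^ k) - 1 - (p : B) ^ k * l) +
          (y ^ (p ^ k) - 1 - (p : B) ^ k * m) := by
      rw [mul_pow]; ring
    rw [e]
    exact dvd_add (dvd_add h1 (hx k)) (hy k)
  · intro x y l hx hxy k
    have h1 : (p : B) ^ (2 * k) ∣ y ^ (p ^ k) * (x ^ (p ^ k) - 1) ^ 2 := by
      apply Dvd.dvd.mul_left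
      rw [mul_comm 2 k, pow_mul]
      exact pow_dvd_pow_of_dvd (dvd_pow_sub hx k) 2
    have hq : x ^ (p ^ k) * y ^ (p ^ k) = 1 := by rw [← mul_pow, hxy, one_pow]
    have e : y ^ (p ^ k) - 1 - (p : B) ^ k * (-l) =
        -(x ^ (p ^ k) - 1 - (p : B) ^ k * l) + y ^ (p ^ k) * (x ^ (p ^ k) - 1) ^ 2 := by
      linear_combination (2 - x ^ (p ^ k)) * hq
    rw [e]
    exact dvd_add ((hx k).neg_right) h1
  · intro B' _ φ x l hx k
    have h1 := map_dvd φ (hx k)
    simpa using h1
  · intro tf sep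
    refine ⟨?_, ?_, ?_⟩
    · intro x l m hl hm
      refine sub_eq_zero.1 (sep _ fun k => canc tf k k _ ?_)
      have e : (p : B) ^ k * (l - m) = (x ^ (p ^ k) - 1 - (p : B) ^ k * m) -
          (x ^ (p ^ k) - 1 - (p : B) ^ k * l) := by ring
      rw [e, ← two_mul]
      exact dvd_sub (hm k) (hl k)
    · intro x l hl N hN h
      apply canc tf N N
      have h1 := steps hN h N
      have h2 := hl N
      rw [two_mul] at h2
      have e : (p : B) ^ N * l = (x ^ (p ^ N) - 1) - (x ^ (p ^ N) - 1 - (p : B) ^ N * l) := by ring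
      rw [e]
      exact dvd_sub h1 h2
    · intro x l hl D
      refine sub_eq_zero.1 (sep _ fun k => ?_)
      obtain ⟨c, hc⟩ := hl k
      obtain ⟨d, hd⟩ := dvd_pow_sub hl k
      have hq : 1 ≤ p ^ k := Nat.one_le_pow _ _ hp.pos
      have hDp : ∀ j : ℕ, D ((p : B) ^ j) = 0 := by
        intro j
        have : (p : B) ^ j = ((p ^ j : ℕ) : B) := by push_cast; rfl
        rw [this, Derivation.map_natCast]
      have hx : x ^ (p ^ k) = 1 + (p : B) ^ k * l + (p : B) ^ (2 * k) * c := by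
        linear_combination hc
      have h1 : D (x ^ (p ^ k)) = (p : B) ^ k * (x ^ (p ^ k - 1) * D x) := by
        rw [Derivation.leibniz_pow]
        simp
      have h2 : D (x ^ (p ^ k)) = (p : B) ^ k * D l + (p : B) ^ (2 * k) * D c := by
        rw [hx, map_add, map_add, Derivation.leibniz, Derivation.leibniz, hDp, hDp,
          Derivation.map_one_eq_zero]
        simp
      have h3 : (p : B) ^ k * (x ^ (p ^ k - 1) * D x - D l - (p : B) ^ k * D c) = 0 := by
        have e : (p : B) ^ (2 * k) = (p : B) ^ k * (p : B) ^ k := by rw [two_mul, pow_add]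
        rw [h1, e] at h2
        linear_combination h2
      have h4 := tfk tf k _ h3
      have h5 : x ^ (p ^ k) = x * x ^ (p ^ k - 1) := by
        rw [← pow_succ']
        congr 1
        omega
      refine ⟨x * D c - d * D x, ?_⟩
      have h6 : x * x ^ (p ^ k - 1) = 1 + (p : B) ^ k * d := by
        rw [← h5]
        linear_combination hd
      linear_combination x * h4 - D x * h6

end Pool.Agent.H33R4
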