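import Mathlib
import Pool.Agent.H33R4.Spec

set_option autoImplicit false

/-!
# Existence of the `p`-adic logarithm
-/

namespace Pool.Agent.H33R4

private theorem pow_exp {B : Type} [CommRing B] (z : B) (n : ℕ) :
    ∃ r : B, (1 + z) ^ n = 1 + n * z + r * z ^ 2 := by
  obtain ⟨r, hr⟩ := Polynomial.powAddExpansion (1 : B) z n
  exact ⟨r, by rw [hr]; ring⟩

private theorem log_step (p : ℕ) {B : Type} [CommRing B] (x : B) (k : ℕ) (e : B)
    (he : x ^ (p ^ k) = 1 + (p : B) ^ k * e) (hpe : (p : B) ∣ e) :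
    ∃ e' : B, x ^ (p ^ (k + 1)) = 1 + (p : B) ^ (k + 1) * e' ∧ (p : B) ∣ e' ∧
      (p : B) ^ k ∣ e' - e := by
  obtain ⟨a, rfl⟩ := hpe
  obtain ⟨r, hr⟩ := pow_exp ((p : B) ^ k * ((p : B) * a)) p
  refine ⟨(p : B) * a + (p : B) ^ (k + 1) * (r * a ^ 2), ?_, ?_, ?_⟩
  · rw [pow_succ p k, pow_mul, he, hr]
    ring
  · exact dvd_add (dvd_mul_right _ _) (dvd_mul_of_dvd_left (dvd_pow_self _ (Nat.succ_ne_zero k)) _)
  · refine ⟨(p : B) * (r * a ^ 2), ?_⟩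
    ring

theorem logEx_proof : LogEx := by
  intro p _ B _ hB x hx
  obtain ⟨a, ha⟩ := hx
  -- the sequence
  let P : ℕ → B → Prop := fun k e => x ^ (p ^ k) = 1 + (p : B) ^ k * e ∧ (p : B) ∣ e
  have h0 : P 0 ((p : B) * a) := by
    refine ⟨?_, dvd_mul_right _ _⟩
    rw [← ha]; simp
  have hstep : ∀ k : ℕ, ∀ e : {e : B // P k e}, ∃ e' : {e : B // P (k + 1) e},
      (p : B) ^ k ∣ e'.1 - e.1 := by
    rintro k ⟨e, he1, he2⟩
    obtain ⟨e', h1, h2, h3⟩ := log_step p x k e he1 he2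
    exact ⟨⟨e', h1, h2⟩, h3⟩
  choose nxt hnxt using hstep
  let s : (k : ℕ) → {e : B // P k e} := fun k =>
    Nat.rec (motive := fun k => {e : B // P k e}) ⟨(p : B) * a, h0⟩ (fun k e => nxt k e) k
  have hs : ∀ k, (p : B) ^ k ∣ (s (k + 1)).1 - (s k).1 := fun k => hnxt k (s k)
  obtain ⟨l, hl⟩ := hB.cmpl (fun k => (s k).1) hs
  refine ⟨l, fun k => ?_⟩
  obtain ⟨c, hc⟩ := hl k
  have hk := (s k).2.1
  refine ⟨-c, ?_⟩
  have hc' : (s k).1 = l - (p : B) ^ k * c := by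
    rw [← hc]; ring
  rw [hk, hc']
  ring

end Pool.Agent.H33R4
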