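import Mathlib
import Pool.Agent.H33R4.Spec

set_option autoImplicit false

/-! PLACES: real places and real roots. -/

namespace Pool.Agent.H33R4

open Polynomial NumberField

theorem places_proof : Places := by
  classical
  intro g hg hirr K _ _ θ hθ htop
  -- the minimal polynomial
  have hmin : minpoly ℚ θ = g.map (algebraMap ℤ ℚ) := by
    refine (minpoly.eq_of_irreducible_of_monic ?_ ?_ (hg.map _)).symm
    · exact (hg.irreducible_iff_irreducible_map_fraction_map (K := ℚ)).1 hirr
    · rw [aeval_map_algebraMap]; exact hθ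
  have hint : IsIntegral ℚ θ := Algebra.IsIntegral.isIntegral θ
  have hfin : Module.finrank ℚ K = g.natDegree := by
    have h1 := IntermediateField.adjoin.finrank hint
    rw [htop, IntermediateField.finrank_top', hmin, hg.natDegree_map] at h1
    exact h1
  refine ⟨hfin, ?_⟩
  have hadj : Algebra.adjoin ℚ {θ} = ⊤ := by
    have h1 := IntermediateField.adjoin_simple_toSubalgebra_of_isAlgebraic hint.isAlgebraic
    rw [htop, IntermediateField.top_toSubalgebra] at h1
    exact h1.symm
  have hg0 : g.map (Int.castRingHom ℝ) ≠ 0 := (hg.map _).ne_zero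
  have hroot : ∀ ψ : K →+* ℝ, ψ θ ∈ (g.map (Int.castRingHom ℝ)).roots.toFinset := by
    intro ψ
    rw [Multiset.mem_toFinset, mem_roots hg0, IsRoot.def, eval_map]
    have h1 := Polynomial.hom_eval₂ g (algebraMap ℤ K) ψ θ
    rw [← aeval_def, hθ, map_zero] at h1
    rw [h1]
    congr 1
    exact RingHom.ext_int _ _
  rw [← InfinitePlace.card_real_embeddings, ← Fintype.card_coe]
  let f : { φ : K →+* ℂ // ComplexEmbedding.IsReal φ } →
      { x // x ∈ (g.map (Int.castRingHom ℝ)).roots.toFinset } :=
    fun φ => ⟨φ.2.embedding θ, hroot _⟩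
  apply Fintype.card_of_bijective (f := f)
  constructor
  · intro φ φ' h
    have h1 : φ.2.embedding θ = φ'.2.embedding θ := congrArg Subtype.val h
    have h2 : φ.1 θ = φ'.1 θ := by
      rw [← φ.2.coe_embedding_apply, ← φ'.2.coe_embedding_apply, h1]
    have h3 : φ.1.toRatAlgHom = φ'.1.toRatAlgHom := by
      apply AlgHom.ext_of_adjoin_eq_top hadj
      intro x hx
      rw [Set.mem_singleton_iff] at hx
      rw [hx]
      exact h2
    apply Subtype.ext
    ext x
    exact DFunLike.congr_fun h3 x
  · rintro ⟨x, hx⟩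
    rw [Multiset.mem_toFinset, mem_roots hg0, IsRoot.def, eval_map] at hx
    have hx' : x ∈ (minpoly ℚ θ).aroots ℝ := by
      rw [mem_aroots, hmin]
      refine ⟨(hg.map _).ne_zero, ?_⟩
      rw [aeval_map_algebraMap, aeval_def, ← hx]
      congr 1
    let ψ0 : (IntermediateField.adjoin ℚ {θ}) →ₐ[ℚ] ℝ :=
      (IntermediateField.algHomAdjoinIntegralEquiv ℚ hint).symm ⟨x, hx'⟩
    have hψ0 : ψ0 (IntermediateField.AdjoinSimple.gen ℚ θ) = x :=
      IntermediateField.algHomAdjoinIntegralEquiv_symm_apply_gen ℚ hint ⟨x, hx'⟩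
    let e : K →ₐ[ℚ] (IntermediateField.adjoin ℚ {θ}) :=
      ((IntermediateField.topEquiv (F := ℚ) (E := K)).symm.trans
        (IntermediateField.equivOfEq htop.symm)).toAlgHom
    have he : e θ = IntermediateField.AdjoinSimple.gen ℚ θ := by
      apply Subtype.ext
      rfl
    let ψ : K →+* ℝ := (ψ0.comp e).toRingHom
    have hψ : ψ θ = x := by
      show ψ0 (e θ) = x
      rw [he, hψ0]
    have hre : ComplexEmbedding.IsReal (Complex.ofRealHom.comp ψ) := by
      rw [ComplexEmbedding.isReal_iff]
      ext y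
      simp [ComplexEmbedding.conjugate]
    refine ⟨⟨Complex.ofRealHom.comp ψ, hre⟩, ?_⟩
    apply Subtype.ext
    show hre.embedding θ = x
    have h5 := hre.coe_embedding_apply θ
    have h6 : (hre.embedding θ : ℂ) = (x : ℂ) := by
      rw [h5]
      show ((ψ θ : ℝ) : ℂ) = x
      rw [hψ]
    exact_mod_cast h6

end Pool.Agent.H33R4
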