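import Mathlib
import Pool.Agent.H33R4.Spec

set_option autoImplicit false

/-!
# Task PARTB: failure of Leopoldt gives a relation between logarithms
-/

namespace Pool.Agent.H33R4

open Polynomial NumberField Pool.Agent.H637R2.Leo Filter Topology

namespace PB

/-! ### logarithms of units -/

section log

variable {p : ℕ} {B : Type} [CommRing B]

theorem log_npow (hB : LogB) (hp : p.Prime) {x l : B} (h : IsLog p x l) (n : ℕ) :
    IsLog p (x ^ n) ((n : B) * l) := by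
  obtain ⟨h1, h2, -⟩ := hB p hp B
  induction n with
  | zero => simpa using h1
  | succ n ih =>
    have := h2 _ _ _ _ ih h
    rw [pow_succ]
    have e : ((n + 1 : ℕ) : B) * l = (n : B) * l + l := by push_cast; ring
    rw [e]
    exact this

theorem log_zpow (hB : LogB) (hp : p.Prime) {v : Bˣ} {l : B} (h : IsLog p (v : B) l) (n : ℤ) :
    IsLog p ((v ^ n : Bˣ) : B) ((n : B) * l) := by
  obtain ⟨h1, h2, h3, -⟩ := hB p hp B
  obtain ⟨k, rfl | rfl⟩ := n.eq_nat_or_neg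
  · have := log_npow hB hp h k
    rw [zpow_natCast, Units.val_pow_eq_pow_val]
    simpa using this
  · have := log_npow hB hp h k
    have h4 := h3 _ (((v ^ k)⁻¹ : Bˣ) : B) _ this (by
      rw [← Units.val_pow_eq_pow_val, Units.mul_inv])
    rw [zpow_neg, zpow_natCast]
    push_cast
    rw [neg_mul]
    exact h4

theorem log_prod (hB : LogB) (hp : p.Prime) {ι : Type} (s : Finset ι) (v : ι → Bˣ) (l : ι → B)
    (h : ∀ i, IsLog p (v i : B) (l i)) (c : ι → ℤ) :
    IsLog p ((∏ i ∈ s, v i ^ c i : Bˣ) : B) (∑ i ∈ s, (c i : B) * l i) := by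
  classical
  obtain ⟨h1, h2, -⟩ := hB p hp B
  induction s using Finset.induction_on with
  | empty => simpa using h1
  | insert a s ha ih =>
    rw [Finset.prod_insert ha, Finset.sum_insert ha, Units.val_mul]
    exact h2 _ _ _ _ (log_zpow hB hp (h a) (c a)) ih

end log

/-! ### the order `ℤ[θ]` -/

section order

variable {K : Type} [Field K] {θ : K} {g : ℤ[X]}

theorem integral (hg : g.Monic) (h : aeval θ g = 0) : IsIntegral ℤ θ := ⟨g, hg, h⟩

/-- `θ` as an algebraic integer -/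
noncomputable def th (hg : g.Monic) (h : aeval θ g = 0) : 𝓞 K := ⟨θ, integral hg h⟩

theorem th_eval (hg : g.Monic) (h : aeval θ g = 0) (P : ℤ[X]) :
    ((P.eval₂ (algebraMap ℤ (𝓞 K)) (th hg h) : 𝓞 K) : K) = aeval θ P := by
  rw [aeval_def]
  have := Polynomial.hom_eval₂ P (algebraMap ℤ (𝓞 K)) (algebraMap (𝓞 K) K) (th hg h)
  exact this.trans rfl

/-- evaluation at `θ` -/
noncomputable def ps (hg : g.Monic) (h : aeval θ g = 0) : AdjoinRoot g →+* 𝓞 K :=
  AdjoinRoot.lift (algebraMap ℤ (𝓞 K)) (th hg h) (by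
    apply RingOfIntegers.ext
    rw [th_eval, h]
    rfl)

theorem ps_mk (hg : g.Monic) (h : aeval θ g = 0) (P : ℤ[X]) :
    ((ps hg h (AdjoinRoot.mk g P) : 𝓞 K) : K) = aeval θ P := by
  unfold ps
  rw [AdjoinRoot.lift_mk, th_eval]

variable [NumberField K]

theorem minpoly_eq (hg : g.Monic) (h : aeval θ g = 0) (hd : Module.finrank ℚ K = g.natDegree)
    (ht : IntermediateField.adjoin ℚ {θ} = ⊤) : minpoly ℤ θ = g := by
  have hi := integral hg h
  have h1 : minpoly ℤ θ ∣ g := minpoly.isIntegrallyClosed_dvd hi h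
  have h2 : minpoly ℚ θ = (minpoly ℤ θ).map (algebraMap ℤ ℚ) :=
    minpoly.isIntegrallyClosed_eq_field_fractions' ℚ hi
  have h3 : (minpoly ℚ θ).natDegree = Module.finrank ℚ K := by
    rw [← IntermediateField.adjoin.finrank (hi.tower_top : IsIntegral ℚ θ), ht]
    exact IntermediateField.finrank_top'
  have h4 : (minpoly ℤ θ).natDegree = g.natDegree := by
    rw [← hd, ← h3, h2, (minpoly.monic hi).natDegree_map]
  exact (Polynomial.eq_of_monic_of_dvd_of_natDegree_le (minpoly.monic hi) hg h1 h4.ge).symm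

theorem ps_inj (hg : g.Monic) (h : aeval θ g = 0) (hd : Module.finrank ℚ K = g.natDegree)
    (ht : IntermediateField.adjoin ℚ {θ} = ⊤) : Function.Injective (ps hg h) := by
  rw [injective_iff_map_eq_zero]
  intro a ha
  obtain ⟨P, rfl⟩ := AdjoinRoot.mk_surjective a
  have h1 := ps_mk hg h P
  rw [ha] at h1
  have h2 : aeval θ P = 0 := by rw [← h1]; rfl
  have h3 := minpoly.isIntegrallyClosed_dvd (integral hg h) h2
  rw [minpoly_eq hg h hd ht] at h3
  exact AdjoinRoot.mk_eq_zero.mpr h3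

theorem exists_m (hg : g.Monic) (h : aeval θ g = 0)
    (ht : IntermediateField.adjoin ℚ {θ} = ⊤) :
    ∃ m : ℤ, m ≠ 0 ∧ ∀ x : 𝓞 K, ∃ y : AdjoinRoot g, ps hg h y = m * x := by
  have hi := integral hg h
  have hiq : IsIntegral ℚ θ := hi.tower_top
  have htop : Algebra.adjoin ℚ {θ} = ⊤ := by
    rw [← IntermediateField.adjoin_simple_toSubalgebra_of_isAlgebraic hiq.isAlgebraic, ht]
    rfl
  set Bs := PowerBasis.ofAdjoinEqTop hiq htop with hBs
  have hgen : Bs.gen = θ := by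
    rw [hBs]; exact PowerBasis.ofAdjoinEqTop_gen _ _
  have hgi : IsIntegral ℤ Bs.gen := by rw [hgen]; exact hi
  have hdi : IsIntegral ℤ (Algebra.discr ℚ Bs.basis) :=
    Algebra.discr_isIntegral ℚ fun i => by
      rw [Bs.basis_eq_pow]; exact hgi.pow _
  obtain ⟨m, hm⟩ := IsIntegrallyClosed.isIntegral_iff.mp hdi
  have hd0 := Algebra.discr_not_zero_of_basis ℚ Bs.basis
  refine ⟨m, ?_, ?_⟩
  · rintro rfl
    rw [map_zero] at hm
    exact hd0 hm.symm
  · intro x
    have h1 := Algebra.discr_mul_isIntegral_mem_adjoin (R := ℤ) (K := ℚ) (B := Bs) hgi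
      (z := (x : K)) x.2
    rw [hgen, Algebra.adjoin_singleton_eq_range_aeval] at h1
    obtain ⟨P, hP⟩ := h1
    refine ⟨AdjoinRoot.mk g P, ?_⟩
    apply RingOfIntegers.ext
    rw [ps_mk]
    have hP' : aeval θ P = Algebra.discr ℚ Bs.basis • (x : K) := hP
    rw [hP', ← hm]
    simp [Algebra.smul_def]

end order

/-! ### relations between units -/

section units

variable {K : Type} [Field K] [NumberField K]

theorem exists_rel {r : ℕ} (hr : Units.rank K = r) (E : Fin r → (𝓞 K)ˣ)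
    (hE : ∀ c : Fin r → ℤ, ∏ i, E i ^ c i = 1 → c = 0) (ε : (𝓞 K)ˣ) :
    ∃ (T : ℤ) (B : Fin r → ℤ), T ≠ 0 ∧ ε ^ T = ∏ i, E i ^ B i := by
  set v : Option (Fin r) → Additive (𝓞 K)ˣ := fun o => o.elim (Additive.ofMul ε)
    (fun i => Additive.ofMul (E i)) with hv
  have h1 : ¬ LinearIndependent ℤ v := by
    intro h
    have h2 := h.fintype_card_le_finrank
    rw [Units.finrank_eq, Fintype.card_option, Fintype.card_fin, hr] at h2
    omega
  rw [Fintype.not_linearIndependent_iff] at h1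
  obtain ⟨c, hc, i0, hi0⟩ := h1
  have h3 : ε ^ (c none) * ∏ i, E i ^ (c (some i)) = 1 := by
    rw [Fintype.sum_option] at hc
    have h4 := congrArg Additive.toMul hc
    rw [toMul_add, toMul_sum, toMul_zero] at h4
    exact h4
  refine ⟨c none, fun i => -c (some i), ?_, ?_⟩
  · intro h0
    rw [h0, zpow_zero, one_mul] at h3
    have h5 := hE _ h3
    cases i0 with
    | none => exact hi0 h0
    | some i => exact hi0 (congrFun h5 i)
  · rw [mul_eq_one_iff_eq_inv] at h3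
    rw [h3, ← Finset.prod_inv_distrib]
    refine Finset.prod_congr rfl fun i _ => ?_
    rw [zpow_neg]

/-- the criterion -/
theorem leopoldt_of {r : ℕ} (hr : Units.rank K = r) (p : ℕ) [Fact p.Prime] (E : Fin r → (𝓞 K)ˣ)
    (key : ∀ (c : ℕ → Fin r → ℤ) (w : Fin r → ℤ_[p]),
      (∀ j, Tendsto (fun k => ((c k j : ℤ) : ℤ_[p])) atTop (𝓝 (w j))) →
      (∀ N : ℕ, ∀ᶠ k in atTop,
        ((p : ℕ) : 𝓞 K) ^ N ∣ (((∏ j, E j ^ c k j : (𝓞 K)ˣ) : 𝓞 K) - 1)) → w = 0) :
    Leopoldt K p := by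
  have hE : ∀ c : Fin r → ℤ, ∏ i, E i ^ c i = 1 → c = 0 := by
    intro c hc
    have h1 := key (fun _ => c) (fun j => ((c j : ℤ) : ℤ_[p])) (fun j => tendsto_const_nhds)
      (fun N => Eventually.of_forall fun k => by rw [hc]; simp)
    funext j
    have h2 : ((c j : ℤ) : ℤ_[p]) = 0 := congrFun h1 j
    show c j = 0
    exact_mod_cast h2
  intro s ε _ hε a m hlim hm
  choose T B hT hrel using fun i => exists_rel hr E hE (ε i)
  -- common exponent
  set T0 : ℤ := ∏ i, T i with hT0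
  have hT0' : T0 ≠ 0 := Finset.prod_ne_zero_iff.2 fun i _ => hT i
  set B' : Fin s → Fin r → ℤ := fun i j => (∏ l ∈ Finset.univ.erase i, T l) * B i j with hB'
  have hrel' : ∀ i, ε i ^ T0 = ∏ j, E j ^ B' i j := by
    intro i
    rw [hT0, ← Finset.mul_prod_erase _ _ (Finset.mem_univ i), zpow_mul, hrel, ← Finset.prod_zpow]
    refine Finset.prod_congr rfl fun j _ => ?_
    rw [← zpow_mul]
    congr 1
    rw [hB']; ring
  have hcomb : ∀ c : Fin s → ℤ, (∏ i, ε i ^ c i) ^ T0 = ∏ j, E j ^ (∑ i, c i * B' i j) := by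
    intro c
    rw [← Finset.prod_zpow]
    have h1 : ∀ i, (ε i ^ c i) ^ T0 = ∏ j, E j ^ (c i * B' i j) := by
      intro i
      rw [← zpow_mul, mul_comm, zpow_mul, hrel', ← Finset.prod_zpow]
      refine Finset.prod_congr rfl fun j _ => ?_
      rw [← zpow_mul, mul_comm]
    rw [Finset.prod_congr rfl fun i _ => h1 i, Finset.prod_comm]
    refine Finset.prod_congr rfl fun j _ => ?_
    rw [prod_zpow_sum]
  apply padic_indep_of_int_indep p B'
  · -- independence over ℤ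
    intro c hc
    have h1 : ∏ i, ε i ^ (T0 * c i) = 1 := by
      have h2 : (∏ i, ε i ^ c i) ^ T0 = 1 := by
        rw [hcomb c]
        apply Finset.prod_eq_one
        intro j _
        rw [hc j, zpow_zero]
      rw [← h2, ← Finset.prod_zpow]
      refine Finset.prod_congr rfl fun i _ => ?_
      rw [← zpow_mul, mul_comm]
    have h3 := hε _ h1
    funext i
    have h4 := congrFun h3 i
    simp only [Pi.zero_apply] at h4
    rcases mul_eq_zero.1 h4 with h | h
    · exact absurd h hT0'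
    · exact h
  · -- the p-adic relation
    have h1 := key (fun k j => ∑ i, m k i * B' i j) (fun j => ∑ i, a i * (B' i j : ℤ_[p]))
      (fun j => by
        push_cast
        exact tendsto_finsetSum _ fun i _ => Tendsto.mul (hlim i) tendsto_const_nhds)
      (fun N => by
        filter_upwards [hm N] with k hk
        rw [← hcomb]
        obtain ⟨y, hy⟩ := hk
        -- powers of elements congruent to one
        have hz : ∀ (v : (𝓞 K)ˣ) (n : ℤ), ((p : ℕ) : 𝓞 K) ^ N ∣ ((v : 𝓞 K) - 1) →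
            ((p : ℕ) : 𝓞 K) ^ N ∣ (((v ^ n : (𝓞 K)ˣ) : 𝓞 K) - 1) := by
          intro v n hv
          obtain ⟨k, rfl | rfl⟩ := n.eq_nat_or_neg
          · rw [zpow_natCast, Units.val_pow_eq_pow_val]
            exact hv.trans (sub_one_dvd_pow_sub_one (v : 𝓞 K) k)
          · rw [zpow_neg, zpow_natCast]
            have h5 : (((v ^ k)⁻¹ : (𝓞 K)ˣ) : 𝓞 K) - 1 =
                -((((v ^ k)⁻¹ : (𝓞 K)ˣ) : 𝓞 K) * (((v ^ k : (𝓞 K)ˣ) : 𝓞 K) - 1)) := by
              rw [mul_sub, mul_one, Units.inv_mul]; ring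
            rw [h5]
            refine (dvd_neg).mpr (Dvd.dvd.mul_left ?_ _)
            rw [Units.val_pow_eq_pow_val]
            exact hv.trans (sub_one_dvd_pow_sub_one (v : 𝓞 K) k)
        exact hz _ _ ⟨y, hy⟩)
    intro j
    exact congrFun h1 j

end units

/-! ### congruences -/

section cong

variable {p : ℕ} [Fact p.Prime]

theorem tf_pow {B : Type} [CommRing B] (h : ∀ b : B, (p : B) * b = 0 → b = 0) (n : ℕ) (b : B)
    (hb : (p : B) ^ n * b = 0) : b = 0 := by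
  induction n with
  | zero => simpa using hb
  | succ n ih =>
    apply ih
    apply h
    rw [← hb]; ring

theorem ev_dvd {c : ℕ → ℤ} {w : ℤ_[p]} (h : Tendsto (fun k => ((c k : ℤ) : ℤ_[p])) atTop (𝓝 w))
    (N : ℕ) : ∀ᶠ k in atTop, (p : ℤ_[p]) ^ N ∣ ((c k : ℤ) : ℤ_[p]) - w := by
  have h1 : Tendsto (fun k => ‖((c k : ℤ) : ℤ_[p]) - w‖) atTop (𝓝 0) := by
    have := (h.sub_const w).norm
    simpa using this
  have hp0 : (0 : ℝ) < (p : ℝ) ^ (-(N : ℤ)) := by
    have : 0 < p := (Fact.out : p.Prime).pos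
    positivity
  filter_upwards [h1.eventually (gt_mem_nhds hp0)] with k hk
  have h2 := (PadicInt.norm_le_pow_iff_mem_span_pow (((c k : ℤ) : ℤ_[p]) - w) N).mp hk.le
  exact Ideal.mem_span_singleton.mp h2

theorem exists_c0 {g : ℤ[X]} {K : Type} [Field K] [NumberField K] {θ : K} (hg : g.Monic)
    (h : aeval θ g = 0) (hd : Module.finrank ℚ K = g.natDegree)
    (ht : IntermediateField.adjoin ℚ {θ} = ⊤) {S : Type} [CommRing S] (ι : ℤ_[p] →+* S)
    (tf : ∀ b : S, (p : S) * b = 0 → b = 0) (φ : AdjoinRoot g →+* S) :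
    ∃ c0 : ℕ, ∀ (N : ℕ) (ρ : AdjoinRoot g), ((p : ℕ) : 𝓞 K) ^ (N + c0) ∣ ps hg h ρ - 1 →
      (p : S) ^ N ∣ φ ρ - 1 := by
  obtain ⟨m, hm0, hm⟩ := exists_m hg h ht
  have hmp : (m : ℤ_[p]) ≠ 0 := by exact_mod_cast hm0
  obtain ⟨c0, v, hspec⟩ : ∃ (c0 : ℕ) (v : ℤ_[p]ˣ), (m : ℤ_[p]) = (v : ℤ_[p]) * (p : ℤ_[p]) ^ c0 :=
    ⟨_, _, PadicInt.unitCoeff_spec hmp⟩
  refine ⟨c0, fun N ρ hρ => ?_⟩
  obtain ⟨x, hx⟩ := hρ
  obtain ⟨y, hy⟩ := hm x
  -- in `ℤ[θ]`
  have h1 : (m : AdjoinRoot g) * (ρ - 1) = (p : AdjoinRoot g) ^ (N + c0) * y := by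
    apply ps_inj hg h hd ht
    rw [map_mul, map_mul, map_sub, map_one, map_intCast, map_pow, map_natCast, hx, hy]
    ring
  have h2 := congrArg φ h1
  rw [map_mul, map_mul, map_sub, map_one, map_intCast, map_pow, map_natCast] at h2
  have h3 : (m : S) = ι (v : ℤ_[p]) * (p : S) ^ c0 := by
    have := congrArg ι hspec
    rw [map_intCast, map_mul, map_pow, map_natCast] at this
    exact this
  have h4 : ι ((v⁻¹ : ℤ_[p]ˣ) : ℤ_[p]) * ι (v : ℤ_[p]) = 1 := by
    rw [← map_mul, Units.inv_mul, map_one]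
  refine ⟨ι ((v⁻¹ : ℤ_[p]ˣ) : ℤ_[p]) * φ y, ?_⟩
  have h5 : (p : S) ^ c0 * (φ ρ - 1 - (p : S) ^ N *
      (ι ((v⁻¹ : ℤ_[p]ˣ) : ℤ_[p]) * φ y)) = 0 := by
    rw [h3] at h2
    calc (p : S) ^ c0 * (φ ρ - 1 - (p : S) ^ N *
          (ι ((v⁻¹ : ℤ_[p]ˣ) : ℤ_[p]) * φ y))
        = (p : S) ^ c0 * (φ ρ - 1) * 1 - ι ((v⁻¹ : ℤ_[p]ˣ) : ℤ_[p]) *
          ((p : S) ^ (N + c0) * φ y) := by rw [pow_add]; ring
      _ = (p : S) ^ c0 * (φ ρ - 1) *
          (ι ((v⁻¹ : ℤ_[p]ˣ) : ℤ_[p]) * ι (v : ℤ_[p])) -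
          ι ((v⁻¹ : ℤ_[p]ˣ) : ℤ_[p]) *
          (ι (v : ℤ_[p]) * (p : S) ^ c0 * (φ ρ - 1)) := by
            rw [h4, h2]
      _ = 0 := by ring
  exact sub_eq_zero.mp (tf_pow tf c0 _ h5)

theorem final (hB : LogB) {g : ℤ[X]} {K : Type} [Field K] [NumberField K] {θ : K} (hg : g.Monic)
    (h : aeval θ g = 0) (hd : Module.finrank ℚ K = g.natDegree)
    (ht : IntermediateField.adjoin ℚ {θ} = ⊤) {r : ℕ} (hr : Units.rank K = r)
    {S : Type} [CommRing S] (ι : ℤ_[p] →+* S) (hG : PGood p S) (φ : AdjoinRoot g →+* S)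
    (u : Fin r → (AdjoinRoot g)ˣ) (M : ℕ) (l : Fin r → S)
    (hl : ∀ i, IsLog p ((φ (u i : AdjoinRoot g)) ^ M) (l i))
    (hcon : ∀ w : Fin r → ℤ_[p], w ≠ 0 → ∑ i, ι (w i) * l i ≠ 0) : Leopoldt K p := by
  classical
  have hp : p.Prime := Fact.out
  obtain ⟨-, -, -, -, hB5⟩ := hB p hp S
  obtain ⟨-, hsmall, -⟩ := hB5 hG.tf hG.sep
  obtain ⟨c0, hc0⟩ := exists_c0 hg h hd ht ι hG.tf φ
  refine leopoldt_of hr p (fun i => Units.map (ps hg h : AdjoinRoot g →* 𝓞 K) (u i)) ?_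
  intro c w hlim hdiv
  by_contra hne
  apply hcon w hne
  apply hG.sep
  intro N
  rcases Nat.eq_zero_or_pos N with rfl | hN
  · simp
  have hev : ∀ᶠ k in atTop, ∀ j, (p : ℤ_[p]) ^ N ∣ ((c k j : ℤ) : ℤ_[p]) - w j :=
    Filter.eventually_all.2 fun j => ev_dvd (hlim j) N
  obtain ⟨k, hk1, hk2⟩ := (hev.and (hdiv (N + c0))).exists
  -- the element of the order
  set ρ : (AdjoinRoot g)ˣ := ∏ j, u j ^ c k j with hρ
  have h1 : (∏ j, (Units.map (ps hg h : AdjoinRoot g →* 𝓞 K) (u j)) ^ c k j : (𝓞 K)ˣ) =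
      Units.map (ps hg h : AdjoinRoot g →* 𝓞 K) ρ := by
    rw [hρ, map_prod]
    refine Finset.prod_congr rfl fun j _ => ?_
    rw [map_zpow]
  rw [h1] at hk2
  have h2 : (p : S) ^ N ∣ φ (ρ : AdjoinRoot g) - 1 := hc0 N (ρ : AdjoinRoot g) hk2
  -- its image
  let V : Fin r → Sˣ := fun j => (Units.map (φ : AdjoinRoot g →* S) (u j)) ^ M
  have h3 : IsLog p ((∏ j, V j ^ c k j : Sˣ) : S) (∑ j, ((c k j : ℤ) : S) * l j) := by
    apply log_prod hB hp
    intro i
    have := hl i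
    simpa [V] using this
  have h4 : (∏ j, V j ^ c k j : Sˣ) = (Units.map (φ : AdjoinRoot g →* S) ρ) ^ M := by
    rw [hρ, map_prod, ← Finset.prod_pow]
    refine Finset.prod_congr rfl fun j _ => ?_
    show ((Units.map (φ : AdjoinRoot g →* S) (u j)) ^ M) ^ c k j = _
    rw [map_zpow, ← zpow_natCast, ← zpow_mul, mul_comm, zpow_mul, zpow_natCast]
  rw [h4] at h3
  have h5 : (p : S) ^ N ∣ (((Units.map (φ : AdjoinRoot g →* S) ρ) ^ M : Sˣ) : S) - 1 := by
    rw [Units.val_pow_eq_pow_val]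
    exact h2.trans (sub_one_dvd_pow_sub_one _ M)
  have h6 := hsmall _ _ h3 N hN h5
  have h7 : (p : S) ^ N ∣ ∑ j, (((c k j : ℤ) : S) - ι (w j)) * l j := by
    refine Finset.dvd_sum fun j _ => Dvd.dvd.mul_right ?_ _
    have h8 := map_dvd ι (hk1 j)
    rw [map_pow, map_natCast, map_sub, map_intCast] at h8
    exact h8
  have h9 : ∑ j, ι (w j) * l j = ∑ j, ((c k j : ℤ) : S) * l j -
      ∑ j, (((c k j : ℤ) : S) - ι (w j)) * l j := by
    rw [← Finset.sum_sub_distrib]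
    refine Finset.sum_congr rfl fun j _ => ?_
    ring
  rw [h9]
  exact dvd_sub h6 h7

end cong

end PB

open PB in
theorem partB_of (hB : LogB) (h1 : Good1) (h2 : Good2) : PartB := by
  intro p _ g hg r U W hUW K _ _ θ h hd ht hr hL M hM l hl
  by_contra hcon
  push Not at hcon
  apply hL
  have hG : PGood p (AdjoinRoot (g.map (Int.castRingHom ℤ_[p]))) :=
    h2 p ℤ_[p] _ (hg.map _) (h1.1 p)
  have hφmk : ∀ P : ℤ[X], AdjoinRoot.map (Int.castRingHom ℤ_[p]) g
      (g.map (Int.castRingHom ℤ_[p])) dvd_rfl (AdjoinRoot.mk g P) =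
      AdjoinRoot.mk (g.map (Int.castRingHom ℤ_[p])) (P.map (Int.castRingHom ℤ_[p])) := by
    intro P
    induction P using Polynomial.induction_on' with
    | add P Q hP hQ => rw [map_add, map_add, hP, hQ, Polynomial.map_add, map_add]
    | monomial n a =>
      rw [← Polynomial.C_mul_X_pow_eq_monomial]
      simp
  -- the units
  have hu : ∀ i, AdjoinRoot.mk g (U i) * AdjoinRoot.mk g (W i) = 1 := by
    intro i
    rw [← map_mul, ← map_one (AdjoinRoot.mk g)]
    exact AdjoinRoot.mk_eq_mk.mpr (hUW i)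
  let u : Fin r → (AdjoinRoot g)ˣ := fun i =>
    ⟨AdjoinRoot.mk g (U i), AdjoinRoot.mk g (W i), hu i, by rw [mul_comm]; exact hu i⟩
  refine final hB hg h hd ht hr (AdjoinRoot.of (g.map (Int.castRingHom ℤ_[p]))) hG
    (AdjoinRoot.map (Int.castRingHom ℤ_[p]) g (g.map (Int.castRingHom ℤ_[p])) dvd_rfl) u M l ?_ hcon
  intro i
  have h3 := hl i
  rw [← hφmk] at h3
  exact h3

end Pool.Agent.H33R4
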