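import Mathlib
import Pool.Agent.H33R4.Spec

set_option autoImplicit false

/-!
# Number of real roots of the explicit family for large `t`
-/

namespace Pool.Agent.H33R4

open Polynomial

namespace SIGaux

/-- the factors as real functions -/
noncomputable def ph {r₁ r₂ : ℕ} (a : Fin r₁ → ℤ) (b c : Fin r₂ → ℤ) (t : ℝ) :
    Fin r₁ ⊕ Fin r₂ → ℝ → ℝ
  | Sum.inl i => fun x => x - a i * t
  | Sum.inr k => fun x => (x - b k * t) ^ 2 + c k * t ^ 2

theorem eval_fam {r₁ r₂ : ℕ} (a : Fin r₁ → ℤ) (b c : Fin r₂ → ℤ) (t : ℤ) (x : ℝ) :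
    ((spec t (fam a b c)).map (Int.castRingHom ℝ)).eval x = ∏ i, ph a b c t i x - 1 := by
  unfold spec fam
  rw [Polynomial.map_sub, Polynomial.map_sub, Polynomial.eval_sub, Polynomial.map_one,
    Polynomial.map_one, Polynomial.eval_one, Polynomial.map_prod, Polynomial.map_prod,
    Polynomial.eval_prod]
  congr 1
  refine Finset.prod_congr rfl fun i _ => ?_
  rcases i with i | k
  · simp [fac, ph]
  · simp [fac, ph]

theorem one_le_prodR {ι : Type} (S : Finset ι) (g : ι → ℝ) (h : ∀ j ∈ S, 1 ≤ g j) :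
    1 ≤ ∏ j ∈ S, g j := by
  classical
  induction S using Finset.induction_on with
  | empty => simp
  | insert a S ha ih =>
    rw [Finset.prod_insert ha]
    exact one_le_mul_of_one_le_of_one_le (h a (Finset.mem_insert_self _ _))
      (ih fun j hj => h j (Finset.mem_insert_of_mem hj))

theorem log_diff {u v : ℝ} (hu : 0 < u) (hv : 0 < v) : Real.log u - Real.log v ≤ (u - v) / v := by
  have h := Real.log_le_sub_one_of_pos (div_pos hu hv)
  rw [Real.log_div hu.ne' hv.ne'] at h
  calc Real.log u - Real.log v ≤ u / v - 1 := h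
    _ = (u - v) / v := by field_simp

/-- all the facts about a factor on an interval of length two -/
theorem fact_lin {A s t x y : ℝ} (ht : 3 ≤ |t|) (hA : |t| ≤ |A - s|) (hx : |x - A| ≤ 1)
    (hy : |y - A| ≤ 1) : 0 < (x - s) * (y - s) ∧ 1 ≤ |x - s| ∧
      Real.log |x - s| - Real.log |y - s| ≤ 3 / (|t| - 1) * |x - y| := by
  have hx1 := abs_le.mp hx
  have hy1 := abs_le.mp hy
  have e1 : |t| - 1 ≤ |x - s| := by
    have : |A - s| ≤ |A - x| + |x - s| := abs_sub_le _ _ _
    rw [abs_sub_comm A x] at this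
    linarith
  have e2 : |t| - 1 ≤ |y - s| := by
    have : |A - s| ≤ |A - y| + |y - s| := abs_sub_le _ _ _
    rw [abs_sub_comm A y] at this
    linarith
  refine ⟨?_, by linarith, ?_⟩
  · rcases le_total 0 (A - s) with h | h
    · rw [abs_of_nonneg h] at hA
      apply mul_pos <;> linarith
    · rw [abs_of_nonpos h] at hA
      apply mul_pos_of_neg_of_neg <;> linarith
  · have hxs : 0 < |x - s| := by linarith
    have hys : 0 < |y - s| := by linarith
    refine (log_diff hxs hys).trans ?_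
    have h1 : |x - s| - |y - s| ≤ |x - y| := by
      have := abs_sub_abs_le_abs_sub (x - s) (y - s)
      simpa using this
    calc (|x - s| - |y - s|) / |y - s| ≤ |x - y| / |y - s| := by gcongr
      _ ≤ |x - y| / (|t| - 1) := by
          apply div_le_div_of_nonneg_left (abs_nonneg _) (by linarith) e2
      _ ≤ 3 / (|t| - 1) * |x - y| := by
          have h3 : 0 < |t| - 1 := by linarith
          rw [div_mul_eq_mul_div]
          gcongr
          nlinarith [abs_nonneg (x - y)]

theorem fact_quad {s c t x y : ℝ} (ht : 3 ≤ |t|) (hc : 1 ≤ c) (hxy : |x - y| ≤ 2) :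
    0 < ((x - s) ^ 2 + c * t ^ 2) * ((y - s) ^ 2 + c * t ^ 2) ∧
      1 ≤ |(x - s) ^ 2 + c * t ^ 2| ∧
      Real.log |(x - s) ^ 2 + c * t ^ 2| - Real.log |(y - s) ^ 2 + c * t ^ 2|
        ≤ 3 / (|t| - 1) * |x - y| := by
  have ht2 : t ^ 2 = |t| ^ 2 := (sq_abs t).symm
  have hct : |t| ^ 2 ≤ c * t ^ 2 := by rw [← ht2]; nlinarith [sq_nonneg t]
  have h9 : 9 ≤ |t| ^ 2 := by nlinarith
  have hx0 : 0 < (x - s) ^ 2 + c * t ^ 2 := by nlinarith [sq_nonneg (x - s)]
  have hy0 : 0 < (y - s) ^ 2 + c * t ^ 2 := by nlinarith [sq_nonneg (y - s)]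
  refine ⟨mul_pos hx0 hy0, ?_, ?_⟩
  · rw [abs_of_pos hx0]; nlinarith [sq_nonneg (x - s)]
  · rw [abs_of_pos hx0, abs_of_pos hy0]
    refine (log_diff hx0 hy0).trans ?_
    have e1 : (x - s) ^ 2 + c * t ^ 2 - ((y - s) ^ 2 + c * t ^ 2)
        ≤ |x - y| * (2 * |y - s| + 2) := by
      have : (x - s) ^ 2 + c * t ^ 2 - ((y - s) ^ 2 + c * t ^ 2)
          = (x - y) * (2 * (y - s) + (x - y)) := by ring
      rw [this]
      calc (x - y) * (2 * (y - s) + (x - y)) ≤ |(x - y) * (2 * (y - s) + (x - y))| := le_abs_self _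
        _ = |x - y| * |2 * (y - s) + (x - y)| := abs_mul _ _
        _ ≤ |x - y| * (2 * |y - s| + 2) := by
            gcongr
            calc |2 * (y - s) + (x - y)| ≤ |2 * (y - s)| + |x - y| := abs_add_le _ _
              _ ≤ 2 * |y - s| + 2 := by rw [abs_mul, abs_two]; linarith
    rw [div_le_iff₀ hy0]
    refine e1.trans ?_
    have h1 : 0 < |t| - 1 := by linarith
    have key : 2 * |y - s| + 2 ≤ 3 / (|t| - 1) * ((y - s) ^ 2 + c * t ^ 2) := by
      rw [div_mul_eq_mul_div, le_div_iff₀ h1]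
      have e3 : (y - s) ^ 2 = |y - s| ^ 2 := (sq_abs _).symm
      rw [e3]
      nlinarith [sq_nonneg (|y - s| - |t|), abs_nonneg (y - s), abs_nonneg t]
    calc |x - y| * (2 * |y - s| + 2)
        ≤ |x - y| * (3 / (|t| - 1) * ((y - s) ^ 2 + c * t ^ 2)) := by gcongr
      _ = 3 / (|t| - 1) * |x - y| * ((y - s) ^ 2 + c * t ^ 2) := by ring

theorem fact_all {r₁ r₂ : ℕ} {a : Fin r₁ → ℤ} {b c : Fin r₂ → ℤ} (ha : Function.Injective a)
    (hc : ∀ k, 0 < c k) {t : ℝ} (ht : 3 ≤ |t|) (i : Fin r₁) {x y : ℝ}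
    (hx : |x - a i * t| ≤ 1) (hy : |y - a i * t| ≤ 1) (j : Fin r₁ ⊕ Fin r₂)
    (hj : j ≠ Sum.inl i) : 0 < ph a b c t j x * ph a b c t j y ∧ 1 ≤ |ph a b c t j x| ∧
      Real.log |ph a b c t j x| - Real.log |ph a b c t j y| ≤ 3 / (|t| - 1) * |x - y| := by
  rcases j with l | k
  · have hne : a i ≠ a l := fun h => hj (by rw [ha h])
    have h1 : (1 : ℝ) ≤ |(a i : ℝ) - a l| := by
      have : (1 : ℤ) ≤ |a i - a l| := Int.one_le_abs (sub_ne_zero.mpr hne)
      exact_mod_cast this
    refine fact_lin ht ?_ hx hy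
    rw [← sub_mul, abs_mul]
    nlinarith [abs_nonneg t]
  · refine fact_quad ht ?_ ?_
    · have : (1 : ℤ) ≤ c k := hc k
      exact_mod_cast this
    · calc |x - y| = |(x - a i * t) - (y - a i * t)| := by ring_nf
        _ ≤ |x - a i * t| + |y - a i * t| := abs_sub _ _
        _ ≤ 2 := by linarith

open Finset in
theorem split {r₁ r₂ : ℕ} (a : Fin r₁ → ℤ) (b c : Fin r₂ → ℤ) (t : ℝ) (i : Fin r₁) (x : ℝ) :
    ∏ j, ph a b c t j x = (x - a i * t) * ∏ j ∈ univ.erase (Sum.inl i), ph a b c t j x := by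
  rw [← Finset.mul_prod_erase univ _ (mem_univ (Sum.inl i))]
  rfl

open Finset in
theorem uniq {r₁ r₂ : ℕ} {a : Fin r₁ → ℤ} {b c : Fin r₂ → ℤ} (ha : Function.Injective a)
    (hc : ∀ k, 0 < c k) {t : ℝ} (ht : (3 * (r₁ + r₂) + 3 : ℝ) ≤ |t|) (i : Fin r₁) {x y : ℝ}
    (hx : |x - a i * t| ≤ 1) (hy : |y - a i * t| ≤ 1) (hPx : ∏ j, ph a b c t j x = 1)
    (hPy : ∏ j, ph a b c t j y = 1) : x = y := by
  have h0 : (0 : ℝ) ≤ (r₁ : ℝ) + r₂ := by positivity
  have ht3 : 3 ≤ |t| := by linarith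
  set S := (univ : Finset (Fin r₁ ⊕ Fin r₂)).erase (Sum.inl i) with hS
  have hcard : (S.card : ℝ) ≤ r₁ + r₂ := by
    have : S.card ≤ Fintype.card (Fin r₁ ⊕ Fin r₂) := by
      rw [← Finset.card_univ]; exact Finset.card_le_card (Finset.erase_subset _ _)
    rw [Fintype.card_sum, Fintype.card_fin, Fintype.card_fin] at this
    exact_mod_cast this
  -- the logarithms of the other factors
  have hlog : ∀ z : ℝ, |z - a i * t| ≤ 1 → ∏ j, ph a b c t j z = 1 →
      z - a i * t ≠ 0 ∧ Real.log |z - a i * t| = - ∑ j ∈ S, Real.log |ph a b c t j z| := by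
    intro z hz hP
    rw [split a b c t i z] at hP
    have hz0 : z - a i * t ≠ 0 := by
      intro h; rw [h, zero_mul] at hP; exact zero_ne_one hP
    have hne : ∀ j ∈ S, |ph a b c t j z| ≠ 0 := fun j hj => by
      have := (fact_all (b := b) ha hc ht3 i hz hz j (Finset.ne_of_mem_erase hj)).2.1
      linarith
    refine ⟨hz0, ?_⟩
    have h1 : |z - a i * t| * ∏ j ∈ S, |ph a b c t j z| = 1 := by
      rw [← Finset.abs_prod, ← abs_mul, hP, abs_one]
    have h2 := congrArg Real.log h1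
    rw [Real.log_mul (abs_ne_zero.mpr hz0) (Finset.prod_ne_zero_iff.mpr hne), Real.log_one,
      Real.log_prod hne] at h2
    linarith
  have key : ∀ z w : ℝ, |z - a i * t| ≤ 1 → |w - a i * t| ≤ 1 → ∏ j, ph a b c t j z = 1 →
      ∏ j, ph a b c t j w = 1 → |w - a i * t| ≤ |z - a i * t| → z = w := by
    intro z w hz hw hPz hPw hle
    obtain ⟨hz0, hzl⟩ := hlog z hz hPz
    obtain ⟨hw0, hwl⟩ := hlog w hw hPw
    -- same sign
    have hQ : 0 < (∏ j ∈ S, ph a b c t j z) * ∏ j ∈ S, ph a b c t j w := by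
      rw [← Finset.prod_mul_distrib]
      exact Finset.prod_pos fun j hj =>
        (fact_all (b := b) ha hc ht3 i hz hw j (Finset.ne_of_mem_erase hj)).1
    have hsame : 0 < (z - a i * t) * (w - a i * t) := by
      have e1 := hPz
      have e2 := hPw
      rw [split a b c t i z] at e1
      rw [split a b c t i w] at e2
      have e3 : ((z - a i * t) * (w - a i * t)) *
          ((∏ j ∈ S, ph a b c t j z) * ∏ j ∈ S, ph a b c t j w) = 1 := by
        calc _ = ((z - a i * t) * ∏ j ∈ S, ph a b c t j z) *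
            ((w - a i * t) * ∏ j ∈ S, ph a b c t j w) := by ring
          _ = 1 := by rw [e1, e2, one_mul]
      by_contra hneg
      push Not at hneg
      have := mul_nonpos_of_nonpos_of_nonneg hneg hQ.le
      linarith
    have hdist : |z - w| = |z - a i * t| - |w - a i * t| := by
      rcases lt_or_gt_of_ne hz0 with h | h
      · have h' : w - a i * t < 0 := by
          by_contra h''
          push Not at h''
          have := mul_nonpos_of_nonpos_of_nonneg h.le h''
          linarith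
        rw [abs_of_neg h, abs_of_neg h'] at *
        rw [abs_of_nonpos (by linarith)]
        ring
      · have h' : 0 < w - a i * t := by
          by_contra h''
          push Not at h''
          have := mul_nonpos_of_nonneg_of_nonpos h.le h''
          linarith
        rw [abs_of_pos h, abs_of_pos h'] at *
        rw [abs_of_nonneg (by linarith)]
        ring
    -- lower bound for the difference of the logarithms
    have hzp : 0 < |z - a i * t| := abs_pos.mpr hz0
    have hwp : 0 < |w - a i * t| := abs_pos.mpr hw0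
    have hlow : |z - w| ≤ Real.log |z - a i * t| - Real.log |w - a i * t| := by
      have h1 := log_diff hwp hzp
      have h2 : (|w - a i * t| - |z - a i * t|) / |z - a i * t| ≤ -|z - w| := by
        rw [div_le_iff₀ hzp]
        rw [hdist]
        nlinarith
      linarith
    have hup : Real.log |z - a i * t| - Real.log |w - a i * t|
        ≤ ∑ j ∈ S, 3 / (|t| - 1) * |w - z| := by
      rw [hzl, hwl]
      have : -∑ j ∈ S, Real.log |ph a b c t j z| - -∑ j ∈ S, Real.log |ph a b c t j w|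
          = ∑ j ∈ S, (Real.log |ph a b c t j w| - Real.log |ph a b c t j z|) := by
        rw [Finset.sum_sub_distrib]; ring
      rw [this]
      exact Finset.sum_le_sum fun j hj =>
        (fact_all (b := b) ha hc ht3 i hw hz j (Finset.ne_of_mem_erase hj)).2.2
    rw [Finset.sum_const, nsmul_eq_mul] at hup
    have h3 : (S.card : ℝ) * (3 / (|t| - 1) * |w - z|) ≤ (3 * (r₁ + r₂) / (|t| - 1)) * |z - w| := by
      rw [abs_sub_comm w z]
      have h4 : 0 < |t| - 1 := by linarith
      calc (S.card : ℝ) * (3 / (|t| - 1) * |z - w|) ≤ (r₁ + r₂) * (3 / (|t| - 1) * |z - w|) := by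
            gcongr
        _ = (3 * (r₁ + r₂) / (|t| - 1)) * |z - w| := by ring
    have h5 : 3 * ((r₁ : ℝ) + r₂) / (|t| - 1) < 1 := by
      rw [div_lt_one (by linarith)]; linarith
    have h6 : |z - w| = 0 := by
      by_contra hne
      have hpos : 0 < |z - w| := lt_of_le_of_ne (abs_nonneg _) (Ne.symm hne)
      have := mul_lt_mul_of_pos_right h5 hpos
      linarith
    linarith [sub_eq_zero.mp (abs_eq_zero.mp h6)]
  rcases le_total |y - a i * t| |x - a i * t| with h | h
  · exact key x y hx hy hPx hPy h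
  · exact (key y x hy hx hPy hPx h).symm

theorem cont {r₁ r₂ : ℕ} (a : Fin r₁ → ℤ) (b c : Fin r₂ → ℤ) (t : ℝ) :
    Continuous fun x => ∏ j, ph a b c t j x := by
  refine continuous_finsetProd _ fun j _ => ?_
  rcases j with l | k
  · simp only [ph]; fun_prop
  · simp only [ph]; fun_prop

open Finset in
theorem exi {r₁ r₂ : ℕ} {a : Fin r₁ → ℤ} {b c : Fin r₂ → ℤ} (ha : Function.Injective a)
    (hc : ∀ k, 0 < c k) {t : ℝ} (ht : 3 ≤ |t|) (i : Fin r₁) :
    ∃ x : ℝ, |x - a i * t| ≤ 1 ∧ ∏ j, ph a b c t j x = 1 := by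
  set S := (univ : Finset (Fin r₁ ⊕ Fin r₂)).erase (Sum.inl i) with hS
  have h1 : |(a i * t + 1 : ℝ) - a i * t| ≤ 1 := by simp
  have h2 : |(a i * t - 1 : ℝ) - a i * t| ≤ 1 := by simp
  have hQ : 0 < (∏ j ∈ S, ph a b c t j (a i * t + 1)) * ∏ j ∈ S, ph a b c t j (a i * t - 1) := by
    rw [← Finset.prod_mul_distrib]
    exact Finset.prod_pos fun j hj =>
      (fact_all (b := b) ha hc ht i h1 h2 j (Finset.ne_of_mem_erase hj)).1
  have hA : ∀ z : ℝ, |z - a i * t| ≤ 1 → 1 ≤ |∏ j ∈ S, ph a b c t j z| := by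
    intro z hz
    rw [Finset.abs_prod]
    exact one_le_prodR _ _ fun j hj =>
      (fact_all (b := b) ha hc ht i hz hz j (Finset.ne_of_mem_erase hj)).2.1
  have h0 : ∏ j, ph a b c t j (a i * t) = 0 := by
    rw [split a b c t i]; simp
  rcases le_or_gt 0 (∏ j ∈ S, ph a b c t j (a i * t + 1)) with h | h
  · have hv : 1 ≤ ∏ j, ph a b c t j (a i * t + 1) := by
      rw [split a b c t i]
      have := hA _ h1
      rw [abs_of_nonneg h] at this
      simpa using this
    obtain ⟨x, hx, hx1⟩ := intermediate_value_Icc (show (a i * t : ℝ) ≤ a i * t + 1 by linarith)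
      (cont a b c t).continuousOn (show (1 : ℝ) ∈ Set.Icc _ _ from ⟨by rw [h0]; norm_num, hv⟩)
    exact ⟨x, by rw [abs_le]; constructor <;> linarith [hx.1, hx.2], hx1⟩
  · have hneg : ∏ j ∈ S, ph a b c t j (a i * t - 1) < 0 := by
      by_contra h'
      push Not at h'
      have := mul_nonpos_of_nonpos_of_nonneg h.le h'
      linarith
    have hv : 1 ≤ ∏ j, ph a b c t j (a i * t - 1) := by
      rw [split a b c t i]
      have := hA _ h2
      rw [abs_of_neg hneg] at this
      have e : (a i * t - 1 - a i * t : ℝ) = -1 := by ring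
      rw [e]
      linarith
    obtain ⟨x, hx, hx1⟩ := intermediate_value_Icc' (show (a i * t - 1 : ℝ) ≤ a i * t by linarith)
      (cont a b c t).continuousOn (show (1 : ℝ) ∈ Set.Icc _ _ from ⟨by rw [h0]; norm_num, hv⟩)
    exact ⟨x, by rw [abs_le]; constructor <;> linarith [hx.1, hx.2], hx1⟩

theorem loc {r₁ r₂ : ℕ} {a : Fin r₁ → ℤ} {b c : Fin r₂ → ℤ} (hc : ∀ k, 0 < c k)
    (hr : 1 ≤ r₁ + r₂) {t : ℝ} (ht : 3 ≤ |t|) {x : ℝ} (hx : ∏ j, ph a b c t j x = 1) :
    ∃ i, |x - a i * t| ≤ 1 := by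
  by_contra hcon
  push Not at hcon
  have h1 : ∀ j, 1 < |ph a b c t j x| := by
    intro j
    rcases j with l | k
    · exact hcon l
    · have h2 : (1 : ℝ) ≤ c k := by
        have : (1 : ℤ) ≤ c k := hc k
        exact_mod_cast this
      have ht2 : t ^ 2 = |t| ^ 2 := (sq_abs t).symm
      have h3 : 1 < (x - b k * t) ^ 2 + c k * t ^ 2 := by
        rw [ht2]
        nlinarith [sq_nonneg (x - b k * t), sq_nonneg |t|]
      change 1 < |(x - b k * t) ^ 2 + c k * t ^ 2|
      rw [abs_of_pos (by linarith)]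
      exact h3
  have hne : Nonempty (Fin r₁ ⊕ Fin r₂) := by
    rw [← Fintype.card_pos_iff, Fintype.card_sum, Fintype.card_fin, Fintype.card_fin]; omega
  obtain ⟨j₀⟩ := hne
  have h4 : 1 < |∏ j, ph a b c t j x| := by
    rw [Finset.abs_prod, ← Finset.mul_prod_erase Finset.univ _ (Finset.mem_univ j₀)]
    have h5 : 1 ≤ ∏ j ∈ Finset.univ.erase j₀, |ph a b c t j x| :=
      one_le_prodR _ _ fun j _ => (h1 j).le
    nlinarith [h1 j₀]
  rw [hx, abs_one] at h4
  exact lt_irrefl _ h4

end SIGaux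

open SIGaux in
theorem sig_proof : Sig := by
  classical
  intro r₁ r₂ a b c ha _ hc
  refine ⟨3 * (r₁ + r₂) + 3, fun t ht => ?_⟩
  have htR : (3 * (r₁ + r₂) + 3 : ℝ) ≤ |(t : ℝ)| := by
    have : ((3 * (r₁ + r₂) + 3 : ℕ) : ℤ) ≤ |t| := ht
    exact_mod_cast this
  have h0 : (0 : ℝ) ≤ (r₁ : ℝ) + r₂ := by positivity
  have ht3 : 3 ≤ |(t : ℝ)| := by linarith
  rcases Nat.eq_zero_or_pos (r₁ + r₂) with hr | hr
  · have h1 : r₁ = 0 := by omega
    have h2 : r₂ = 0 := by omega
    subst h1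
    subst h2
    have : spec t (fam a b c) = 0 := by
      unfold fam spec
      simp
    rw [this]
    simp
  set f := (spec t (fam a b c)).map (Int.castRingHom ℝ) with hf
  have hev : ∀ x, f.eval x = ∏ j, ph a b c t j x - 1 := eval_fam a b c t
  have hf0 : f ≠ 0 := by
    intro h
    have h1 : ∀ x, ∏ j, ph a b c t j x = 1 := fun x => by
      have := hev x
      rw [h, eval_zero] at this
      linarith
    rcases Nat.eq_zero_or_pos r₁ with hr1 | hr1
    · subst hr1
      obtain ⟨i, _⟩ := loc hc hr ht3 (h1 0)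
      exact i.elim0
    · have h2 := h1 (a ⟨0, hr1⟩ * t)
      rw [split a b c t ⟨0, hr1⟩] at h2
      simp at h2
  choose ρ hρ1 hρ2 using fun i => exi (b := b) ha hc ht3 i
  have hinj : Function.Injective ρ := by
    intro i l h
    by_contra hne
    have h1 : (1 : ℝ) ≤ |(a i : ℝ) - a l| := by
      have : (1 : ℤ) ≤ |a i - a l| := Int.one_le_abs (sub_ne_zero.mpr fun h => hne (ha h))
      exact_mod_cast this
    have h2 := hρ1 i
    have h3 := hρ1 l
    rw [h] at h2
    have h4 : |(a i : ℝ) * t - a l * t| ≤ 2 := by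
      calc |(a i : ℝ) * t - a l * t| = |(ρ l - a l * t) - (ρ l - a i * t)| := by ring_nf
        _ ≤ |ρ l - a l * t| + |ρ l - a i * t| := abs_sub _ _
        _ ≤ 2 := by linarith
    rw [← sub_mul, abs_mul] at h4
    nlinarith [abs_nonneg (t : ℝ)]
  have himg : f.roots.toFinset = Finset.univ.image ρ := by
    ext x
    rw [Multiset.mem_toFinset, mem_roots hf0, IsRoot.def, hev, sub_eq_zero, Finset.mem_image]
    constructor
    · intro hx
      obtain ⟨i, hi⟩ := loc hc hr ht3 hx
      exact ⟨i, Finset.mem_univ _, uniq ha hc htR i (hρ1 i) hi (hρ2 i) hx⟩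
    · rintro ⟨i, _, rfl⟩
      exact hρ2 i
  rw [himg, Finset.card_image_of_injective _ hinj, Finset.card_univ, Fintype.card_fin]

end Pool.Agent.H33R4
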