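import Mathlib
import Pool.Agent.H33R4.Fin2
import Pool.Agent.H33R4.DERL
import Pool.Agent.H33R4.DLOG
import Pool.Agent.H33R4.DUAL
import Pool.Agent.H33R4.EUL
import Pool.Agent.H33R4.EVZ
import Pool.Agent.H33R4.GOOD1
import Pool.Agent.H33R4.GOOD2
import Pool.Agent.H33R4.IRR
import Pool.Agent.H33R4.Inf
import Pool.Agent.H33R4.LEMA
import Pool.Agent.H33R4.LOGB
import Pool.Agent.H33R4.LOGEX
import Pool.Agent.H33R4.PLACES
import Pool.Agent.H33R4.PartB
import Pool.Agent.H33R4.REL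
import Pool.Agent.H33R4.SIG

set_option autoImplicit false

namespace Pool.Agent.H33R4

open Polynomial NumberField Pool.Agent.H637R2.Leo

/-- **Theorem A.** -/
theorem family (p : ℕ) [Fact p.Prime] (n r : ℕ) (f : ℤ[X][X]) (hf : f.Monic)
    (u w : Fin r → ℤ[X][X])
    (huw : ∀ i, f ∣ u i * w i - 1) (F : Type) [Field F] [CharZero F] (e : ℕ) (he : 0 < e)
    (ϑ : Fin n → LaurentSeries F) (hinj : Function.Injective ϑ)
    (hsplit : spec (HahnSeries.single (-(e : ℤ)) (1 : F)) f = ∏ j, (X - C (ϑ j)))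
    (hrank : LinearIndependent ℚ (fun (i : Fin r) (j : Fin n) =>
      ((HahnSeries.order (ev2 (HahnSeries.single (-(e : ℤ)) (1 : F)) (ϑ j) (u i)) : ℤ) : ℚ))) :
    {t : ℤ | Bad p n r f t}.Finite :=
  fin_all lemA_proof rel_proof eul_proof (dLog_of logB_proof good2_proof derL_proof) good1_proof
    good2_proof logEx_proof logB_proof evZ_proof dual_proof
    (partB_of logB_proof good1_proof good2_proof) p n r f hf u w huw F e he ϑ hinj hsplit hrank

lemma fac_monic {r₁ r₂ : ℕ} (a : Fin r₁ → ℤ) (b c : Fin r₂ → ℤ) (i : Fin r₁ ⊕ Fin r₂) :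
    (fac a b c i).Monic ∧ 0 < (fac a b c i).degree := by
  rcases i with i | k
  · refine ⟨monic_X_sub_C _, ?_⟩
    show 0 < (X - C (C (a i) * X) : ℤ[X][X]).degree
    rw [Polynomial.degree_X_sub_C]
    exact zero_lt_one
  · have h2 : ((X - C (C (b k) * X) : ℤ[X][X]) ^ 2).degree = 2 := by
      rw [Polynomial.degree_pow, Polynomial.degree_X_sub_C]
      rfl
    have h3 : (C (C (c k) * X ^ 2) : ℤ[X][X]).degree < ((X - C (C (b k) * X) : ℤ[X][X]) ^ 2).degree := by
      rw [h2]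
      exact lt_of_le_of_lt Polynomial.degree_C_le (by norm_num)
    refine ⟨Polynomial.Monic.add_of_left ((monic_X_sub_C _).pow 2) h3, ?_⟩
    show 0 < ((X - C (C (b k) * X)) ^ 2 + C (C (c k) * X ^ 2) : ℤ[X][X]).degree
    rw [Polynomial.degree_add_eq_left_of_degree_lt h3, h2]
    norm_num

lemma fam_monic {r₁ r₂ : ℕ} (a : Fin r₁ → ℤ) (b c : Fin r₂ → ℤ) (h : 1 ≤ r₁ + r₂) :
    (fam a b c).Monic := by
  have hm : (∏ i, fac a b c i).Monic := Polynomial.monic_prod_of_monic _ _ (fun i _ => (fac_monic a b c i).1)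
  unfold fam
  apply Polynomial.Monic.sub_of_left hm
  rw [Polynomial.degree_one, ← Polynomial.natDegree_pos_iff_degree_pos,
    Polynomial.natDegree_prod_of_monic _ _ (fun i _ => (fac_monic a b c i).1)]
  have hne : Nonempty (Fin r₁ ⊕ Fin r₂) := by
    rcases Nat.eq_zero_or_pos r₁ with h0 | h0
    · exact ⟨Sum.inr ⟨0, by omega⟩⟩
    · exact ⟨Sum.inl ⟨0, h0⟩⟩
  obtain ⟨i⟩ := hne
  apply Finset.sum_pos'
  · intro i _
    exact Nat.zero_le _
  · exact ⟨i, Finset.mem_univ _, Polynomial.natDegree_pos_iff_degree_pos.2 (fac_monic a b c i).2⟩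

/-- **Theorem B.** the explicit families of every signature -/
theorem explicit (p : ℕ) [Fact p.Prime] (r₁ r₂ : ℕ) (h : 1 ≤ r₁ + r₂) (a : Fin r₁ → ℤ)
    (b c : Fin r₂ → ℤ) (ha : Function.Injective a)
    (hbc : Function.Injective (fun k => (b k, c k))) (hc : ∀ k, 0 < c k) :
    ∃ S : Finset ℤ, ∀ t ∉ S, Irreducible (spec t (fam a b c)) ∧
      ∀ (K : Type) [Field K] [NumberField K] (θ : K), aeval θ (spec t (fam a b c)) = 0 →
        IntermediateField.adjoin ℚ {θ} = ⊤ →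
        InfinitePlace.nrRealPlaces K = r₁ ∧ InfinitePlace.nrComplexPlaces K = r₂ ∧ Leopoldt K p := by
  classical
  obtain ⟨ϑ, hinj, hsplit, hind⟩ := inf_proof r₁ r₂ a b c ha hbc hc h
  obtain ⟨T₁, hT₁⟩ := irr_proof r₁ r₂ a b c ha hbc hc h
  obtain ⟨T₂, hT₂⟩ := sig_proof r₁ r₂ a b c ha hbc hc
  have hne : Nonempty (Fin r₁ ⊕ Fin r₂) := by
    rcases Nat.eq_zero_or_pos r₁ with h0 | h0
    · exact ⟨Sum.inr ⟨0, by omega⟩⟩
    · exact ⟨Sum.inl ⟨0, h0⟩⟩
  obtain ⟨i₀⟩ := hne
  have hcard : Fintype.card {i : Fin r₁ ⊕ Fin r₂ // i ≠ i₀} = r₁ + r₂ - 1 := by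
    rw [Fintype.card_subtype_compl]
    simp
  let eq : {i : Fin r₁ ⊕ Fin r₂ // i ≠ i₀} ≃ Fin (r₁ + r₂ - 1) := Fintype.equivFinOfCardEq hcard
  have hA := family p (r₁ + 2 * r₂) (r₁ + r₂ - 1) (fam a b c) (fam_monic a b c h)
    (fun k => fac a b c (eq.symm k).1) (fun k => ∏ l ∈ Finset.univ.erase (eq.symm k).1, fac a b c l)
    (fun k => by
      rw [Finset.mul_prod_erase _ _ (Finset.mem_univ _)]
      exact dvd_rfl) ℂ 1 one_pos ϑ hinj hsplit (by
      rw [Fintype.linearIndependent_iff]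
      intro g hg
      have h1 := hind i₀ (fun i => if hi : i ≠ i₀ then g (eq ⟨i, hi⟩) else 0) (by simp) (by
        intro j
        have h2 := congrFun hg j
        rw [Finset.sum_apply, Pi.zero_apply] at h2
        rw [← Finset.add_sum_erase _ _ (Finset.mem_univ i₀)]
        simp only [ne_eq, not_true_eq_false, dite_false, zero_mul, zero_add]
        rw [← h2]
        symm
        rw [← Equiv.sum_comp eq]
        rw [← Finset.sum_coe_sort (Finset.univ.erase i₀)]
        symm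
        refine Fintype.sum_equiv (Equiv.subtypeEquivRight (by simp)) _ _ ?_
        rintro ⟨i, hi⟩
        have hi' : i ≠ i₀ := Finset.ne_of_mem_erase hi
        simp [hi', Pi.smul_apply]
        left
        rfl)
      intro k
      have h3 := congrFun h1 (eq.symm k).1
      simpa [(eq.symm k).2] using h3)
  refine ⟨hA.toFinset ∪ Finset.Ioo (-((max T₁ T₂ : ℕ) : ℤ)) (max T₁ T₂ : ℕ), fun t ht => ?_⟩
  rw [Finset.mem_union, not_or, Set.Finite.mem_toFinset, Finset.mem_Ioo, ← abs_lt, not_lt] at ht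
  obtain ⟨hbad, htT⟩ := ht
  have hirr := hT₁ t (le_trans (by exact_mod_cast le_max_left _ _) htT)
  have hsig := hT₂ t (le_trans (by exact_mod_cast le_max_right _ _) htT)
  refine ⟨hirr, ?_⟩
  intro K _ _ θ hθ hgen
  obtain ⟨hd, hreal⟩ := places_proof _ (spec_monic t (fam_monic a b c h)) hirr K θ hθ hgen
  have hdeg : (spec t (fam a b c)).natDegree = r₁ + 2 * r₂ := by
    have h1 : (spec t (fam a b c)).natDegree = (fam a b c).natDegree := (fam_monic a b c h).natDegree_map _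
    have h2 : (spec (HahnSeries.single (-((1 : ℕ) : ℤ)) (1 : ℂ)) (fam a b c)).natDegree = (fam a b c).natDegree :=
      (fam_monic a b c h).natDegree_map _
    rw [h1, ← h2, hsplit, Polynomial.natDegree_prod_of_monic _ _ (fun j _ => monic_X_sub_C _)]
    simp
  rw [hdeg] at hd
  rw [hsig] at hreal
  have h1 := InfinitePlace.card_add_two_mul_card_eq_rank K
  have h2 := InfinitePlace.card_eq_nrRealPlaces_add_nrComplexPlaces K
  rw [hd, hreal] at h1
  have hcomp : InfinitePlace.nrComplexPlaces K = r₂ := by omega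
  refine ⟨hreal, hcomp, ?_⟩
  by_contra hL
  apply hbad
  refine ⟨K, inferInstance, inferInstance, θ, hθ, hd, hgen, ?_, hL⟩
  unfold Units.rank
  rw [h2, hreal, hcomp]

end Pool.Agent.H33R4
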