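import Mathlib
import Pool.Agent.H33R4.PartB
import Pool.Agent.H33R4.Fin1
import Pool.Agent.H33R4.Form3

set_option autoImplicit false

namespace Pool.Agent.H33R4

open Polynomial NumberField Filter Topology Pool.Agent.H637R2.Leo

/-- The units `E i` of the number field `K` are independent over `ℤ_p` in the product of the
completions above `p`: the only `z ∈ ℤ_p^r` for which integer vectors `m_k → z` exist with
`∏ E_i ^ (m_k)_i → 1` `p`-adically is `z = 0`. -/
def PIndep (K : Type) [Field K] [NumberField K] (p : ℕ) [Fact p.Prime] {r : ℕ}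
    (E : Fin r → (𝓞 K)ˣ) : Prop :=
  ∀ (m : ℕ → Fin r → ℤ) (z : Fin r → ℤ_[p]),
    (∀ i, Tendsto (fun k => ((m k i : ℤ) : ℤ_[p])) atTop (𝓝 (z i))) →
    (∀ N : ℕ, ∀ᶠ k in atTop,
      ((p : ℕ) : 𝓞 K) ^ N ∣ (((∏ i, E i ^ m k i : (𝓞 K)ˣ) : 𝓞 K) - 1)) → z = 0

namespace PB

theorem final' {p : ℕ} [Fact p.Prime] (hB : LogB) {g : ℤ[X]} {K : Type} [Field K] [NumberField K]
    {θ : K} (hg : g.Monic)
    (h : aeval θ g = 0) (hd : Module.finrank ℚ K = g.natDegree)
    (ht : IntermediateField.adjoin ℚ {θ} = ⊤) {r : ℕ}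
    {S : Type} [CommRing S] (ι : ℤ_[p] →+* S) (hG : PGood p S) (φ : AdjoinRoot g →+* S)
    (u : Fin r → (AdjoinRoot g)ˣ) (M : ℕ) (l : Fin r → S)
    (hl : ∀ i, IsLog p ((φ (u i : AdjoinRoot g)) ^ M) (l i))
    (hcon : ∀ w : Fin r → ℤ_[p], w ≠ 0 → ∑ i, ι (w i) * l i ≠ 0) :
    PIndep K p (fun i => Units.map (ps hg h : AdjoinRoot g →* 𝓞 K) (u i)) := by
  classical
  have hp : p.Prime := Fact.out
  obtain ⟨-, -, -, -, hB5⟩ := hB p hp S
  obtain ⟨-, hsmall, -⟩ := hB5 hG.tf hG.sep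
  obtain ⟨c0, hc0⟩ := exists_c0 hg h hd ht ι hG.tf φ
  intro c w hlim hdiv
  by_contra hne
  apply hcon w hne
  apply hG.sep
  intro N
  rcases Nat.eq_zero_or_pos N with rfl | hN
  · simp
  have hev : ∀ᶠ k in atTop, ∀ j, (p : ℤ_[p]) ^ N ∣ ((c k j : ℤ) : ℤ_[p]) - w j :=
    Filter.eventually_all.2 fun j => ev_dvd (hlim j) N
  obtain ⟨k, hk1, hk2⟩ := (hev.and (hdiv (N + c0))).exists
  -- the element of the order
  set ρ : (AdjoinRoot g)ˣ := ∏ j, u j ^ c k j with hρ
  have h1 : (∏ j, (Units.map (ps hg h : AdjoinRoot g →* 𝓞 K) (u j)) ^ c k j : (𝓞 K)ˣ) =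
      Units.map (ps hg h : AdjoinRoot g →* 𝓞 K) ρ := by
    rw [hρ, map_prod]
    refine Finset.prod_congr rfl fun j _ => ?_
    rw [map_zpow]
  rw [h1] at hk2
  have h2 : (p : S) ^ N ∣ φ (ρ : AdjoinRoot g) - 1 := hc0 N (ρ : AdjoinRoot g) hk2
  -- its image
  let V : Fin r → Sˣ := fun j => (Units.map (φ : AdjoinRoot g →* S) (u j)) ^ M
  have h3 : IsLog p ((∏ j, V j ^ c k j : Sˣ) : S) (∑ j, ((c k j : ℤ) : S) * l j) := by
    apply log_prod hB hp
    intro i
    have := hl i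
    simpa [V] using this
  have h4 : (∏ j, V j ^ c k j : Sˣ) = (Units.map (φ : AdjoinRoot g →* S) ρ) ^ M := by
    rw [hρ, map_prod, ← Finset.prod_pow]
    refine Finset.prod_congr rfl fun j _ => ?_
    show ((Units.map (φ : AdjoinRoot g →* S) (u j)) ^ M) ^ c k j = _
    rw [map_zpow, ← zpow_natCast, ← zpow_mul, mul_comm, zpow_mul, zpow_natCast]
  rw [h4] at h3
  have h5 : (p : S) ^ N ∣ (((Units.map (φ : AdjoinRoot g →* S) ρ) ^ M : Sˣ) : S) - 1 := by
    rw [Units.val_pow_eq_pow_val]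
    exact h2.trans (sub_one_dvd_pow_sub_one _ M)
  have h6 := hsmall _ _ h3 N hN h5
  have h7 : (p : S) ^ N ∣ ∑ j, (((c k j : ℤ) : S) - ι (w j)) * l j := by
    refine Finset.dvd_sum fun j _ => Dvd.dvd.mul_right ?_ _
    have h8 := map_dvd ι (hk1 j)
    rw [map_pow, map_natCast, map_sub, map_intCast] at h8
    exact h8
  have h9 : ∑ j, ι (w j) * l j = ∑ j, ((c k j : ℤ) : S) * l j -
      ∑ j, (((c k j : ℤ) : S) - ι (w j)) * l j := by
    rw [← Finset.sum_sub_distrib]
    refine Finset.sum_congr rfl fun j _ => ?_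
    ring
  rw [h9]
  exact dvd_sub h6 h7

end PB

lemma adj_map_mk {A B : Type} [CommRing A] [CommRing B] (φ : A →+* B) (f : A[X]) (g : B[X])
    (h : g ∣ f.map φ) (P : A[X]) :
    AdjoinRoot.map φ f g h (AdjoinRoot.mk f P) = AdjoinRoot.mk g (P.map φ) := by
  induction P using Polynomial.induction_on' with
  | add P Q hP hQ => rw [map_add, map_add, hP, hQ, Polynomial.map_add, map_add]
  | monomial n a =>
    rw [← Polynomial.C_mul_X_pow_eq_monomial]
    simp

/-- the specialisation `T ↦ t` -/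
noncomputable def st (f : ℤ[X][X]) (t : ℤ) : AdjoinRoot f →+* AdjoinRoot (spec t f) :=
  AdjoinRoot.map (Polynomial.eval₂RingHom (Int.castRingHom ℤ) t) f (spec t f)
    (show spec t f ∣ f.map (Polynomial.eval₂RingHom (Int.castRingHom ℤ) t) from dvd_rfl)

lemma st_mk (f : ℤ[X][X]) (t : ℤ) (P : ℤ[X][X]) :
    st f t (AdjoinRoot.mk f P) = AdjoinRoot.mk (spec t f) (spec t P) := by
  unfold st
  rw [adj_map_mk]
  rfl

/-- `t` is bad for `f`, the units `u` and `p` -/
def Bad' (p : ℕ) [Fact p.Prime] (f : ℤ[X][X]) {r : ℕ} (u : Fin r → (AdjoinRoot f)ˣ) (t : ℤ) : Prop :=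
  ∃ (K : Type) (_ : Field K) (_ : NumberField K) (φ : AdjoinRoot f →+* 𝓞 K),
    φ (AdjoinRoot.of f X) = t ∧ Module.finrank ℚ K = f.natDegree ∧
    IntermediateField.adjoin ℚ {((φ (AdjoinRoot.root f) : 𝓞 K) : K)} = ⊤ ∧
    ¬ PIndep K p (fun i => Units.map (φ : AdjoinRoot f →* 𝓞 K) (u i))

theorem fin_class' (hA : LemA) (hR : Rel) (hE : Eul) (hD : DLog) (h1 : Good1) (h2 : Good2)
    (hLE : LogEx) (hLB : LogB) (hZ : EvZ) (hDu : Dual)
    (p : ℕ) [Fact p.Prime] (n r : ℕ) (f : ℤ[X][X]) (hf : f.Monic) (u : Fin r → (AdjoinRoot f)ˣ)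
    (F : Type) [Field F] [CharZero F] (e : ℕ) (he : 0 < e)
    (ϑ : Fin n → LaurentSeries F) (hinj : Function.Injective ϑ)
    (hsplit : spec (HahnSeries.single (-(e : ℤ)) (1 : F)) f = ∏ j, (X - C (ϑ j)))
    (hrank : ∀ U : Fin r → ℤ[X][X], (∀ i, AdjoinRoot.mk f (U i) = u i) →
      LinearIndependent ℚ (fun (i : Fin r) (j : Fin n) =>
      ((HahnSeries.order (ev2 (HahnSeries.single (-(e : ℤ)) (1 : F)) (ϑ j) (U i)) : ℤ) : ℚ)))
    (t₁ : ℤ) : {t : ℤ | (p : ℤ) ^ 2 ∣ t - t₁ ∧ Bad' p f u t}.Finite := by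
  have hp : p.Prime := Fact.out
  choose U hU using fun i => AdjoinRoot.mk_surjective (u i : AdjoinRoot f)
  choose W hW using fun i => AdjoinRoot.mk_surjective ((u i)⁻¹ : (AdjoinRoot f)ˣ).1
  have huw : ∀ i, f ∣ U i * W i - 1 := by
    intro i
    rw [← AdjoinRoot.mk_eq_zero, map_sub, map_mul, hU, hW, map_one, sub_eq_zero]
    exact Units.mul_inv _
  set T₁ := par p t₁ with hT₁
  have hgood : PGood p (PowerSeries ℤ_[p]) := h1.2 p _ (h1.1 p)
  have hgoodB : PGood p (AdjoinRoot (spec T₁ f)) := h2 p _ _ (spec_monic _ hf) hgood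
  obtain ⟨M, hM, hMu⟩ := exists_exponent p f hf t₁ r U W huw
  choose L hL using fun i => hLE p hp _ hgoodB _ (hMu i)
  have dR_par : dR p (par p t₁) = p := by
    unfold par
    rw [map_add, Derivation.leibniz, Derivation.map_natCast, Derivation.map_intCast]
    simp only [smul_eq_mul]
    have : dR p PowerSeries.X = 1 := PowerSeries.derivative_X (R := ℤ_[p])
    rw [this]
    ring
  obtain ⟨h, hh0, hh⟩ := hDu (PowerSeries ℤ_[p]) (spec T₁ f) (spec_monic _ hf) r L
    (fun h hh => form hA hR hE hD h1 p n r f hf U W huw F e he ϑ hinj hsplit (hrank U hU) T₁ dR_par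
      M hM L hL h hh)
  have hfin := (hZ p).2 h hh0
  have hkey : ∀ t ∈ {t : ℤ | (p : ℤ) ^ 2 ∣ t - t₁ ∧ Bad' p f u t},
      ((((t - t₁) / p : ℤ)) : ℤ_[p]) ∈ {s : ℤ_[p] | (p : ℤ_[p]) ∣ s ∧ ∃ φ, IsEval p s φ ∧ φ h = 0} := by
    rintro t ⟨⟨m, hm⟩, K, _, _, ψ, hψT, hKn, hgen, hnot⟩
    have hp0 : (p : ℤ) ≠ 0 := by exact_mod_cast hp.ne_zero
    have hs : (t - t₁) / p = p * m := by
      rw [hm, pow_two, mul_assoc, Int.mul_ediv_cancel_left _ hp0]
    have hdvd : (p : ℤ_[p]) ∣ ((((t - t₁) / p : ℤ)) : ℤ_[p]) := by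
      rw [hs]
      push_cast
      exact dvd_mul_right _ _
    obtain ⟨φ, hφ⟩ := (hZ p).1 _ hdvd
    refine ⟨hdvd, φ, hφ, ?_⟩
    have hφT : φ T₁ = ((t : ℤ) : ℤ_[p]) := by
      rw [hT₁, par_map, hφ.1, hs]
      have : t = t₁ + p * (p * m) := by
        have := hm
        rw [pow_two] at this
        linarith
      rw [this]
      push_cast
      ring
    set g : ℤ[X] := spec t f with hgdef
    have hgm : g.Monic := spec_monic _ hf
    set ψr : 𝓞 K := ψ (AdjoinRoot.root f) with hψr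
    -- `ψ` on polynomials
    have hψof : ∀ P : ℤ[X], ψ (AdjoinRoot.of f P) = ((P.eval t : ℤ) : 𝓞 K) := by
      intro P
      have e1 : ψ (AdjoinRoot.of f P) = (ψ.comp (AdjoinRoot.of f)) P := rfl
      have e2 : (ψ.comp (AdjoinRoot.of f)) = (Int.castRingHom (𝓞 K)).comp (Polynomial.evalRingHom t) := by
        apply Polynomial.ringHom_ext
        · intro a; simp
        · simp [hψT]
      rw [e1, e2]
      simp
    have hψmk : ∀ P : ℤ[X][X], ψ (AdjoinRoot.mk f P) = (spec t P).eval₂ (Int.castRingHom (𝓞 K)) ψr := by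
      intro P
      induction P using Polynomial.induction_on' with
      | add P Q hP hQ =>
        rw [map_add, map_add, hP, hQ]
        unfold spec
        rw [Polynomial.map_add, Polynomial.eval₂_add]
      | monomial n a =>
        rw [← Polynomial.C_mul_X_pow_eq_monomial, map_mul, map_mul, map_pow, map_pow, AdjoinRoot.mk_C,
          AdjoinRoot.mk_X, hψof]
        unfold spec
        rw [Polynomial.map_mul, Polynomial.map_pow, Polynomial.map_X, Polynomial.map_C,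
          Polynomial.eval₂_mul, Polynomial.eval₂_pow, Polynomial.eval₂_X, Polynomial.eval₂_C]
        rfl
    have hroot : aeval (ψr : K) g = 0 := by
      have e1 := hψmk f
      rw [AdjoinRoot.mk_self, map_zero] at e1
      have e2 := congrArg (algebraMap (𝓞 K) K) e1
      rw [map_zero, Polynomial.hom_eval₂] at e2
      rw [aeval_def]
      rw [e2]
      rfl
    -- `ψ` factors
    have hfac : ∀ x, PB.ps hgm hroot (st f t x) = ψ x := by
      intro x
      obtain ⟨P, rfl⟩ := AdjoinRoot.mk_surjective x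
      rw [st_mk, hψmk]
      apply RingOfIntegers.ext
      rw [PB.ps_mk, aeval_def]
      have e2 := Polynomial.hom_eval₂ (spec t P) (Int.castRingHom (𝓞 K)) (algebraMap (𝓞 K) K) ψr
      rw [show (algebraMap (𝓞 K) K) (Polynomial.eval₂ (Int.castRingHom (𝓞 K)) ψr (spec t P)) =
        ((Polynomial.eval₂ (Int.castRingHom (𝓞 K)) ψr (spec t P) : 𝓞 K) : K) from rfl] at e2
      rw [e2]
      rfl
    -- the ring over `ℤ_p`
    have hmap : ∀ P : ℤ[X][X], (spec T₁ P).map φ = (spec t P).map (Int.castRingHom ℤ_[p]) := by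
      intro P
      rw [spec_map, spec_map, hφT]
      rfl
    by_contra hne
    apply hnot
    have hG : PGood p (AdjoinRoot ((spec T₁ f).map φ)) := h2 p ℤ_[p] _ ((spec_monic _ hf).map _) (h1.1 p)
    have hfin2 := PB.final' hLB hgm hroot (by rw [hKn]; exact (hf.natDegree_map _).symm) hgen
      (AdjoinRoot.of ((spec T₁ f).map φ)) hG
      (AdjoinRoot.map (Int.castRingHom ℤ_[p]) g ((spec T₁ f).map φ) (by rw [hmap]))
      (fun i => Units.map (st f t : AdjoinRoot f →* _) (u i)) M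
      (fun i => AdjoinRoot.map φ _ _ dvd_rfl (L i)) (fun i => by
        have h3 := (hLB p hp _).2.2.2.1 _ (AdjoinRoot.map φ (spec T₁ f) ((spec T₁ f).map φ) dvd_rfl)
          _ _ (hL i)
        rw [map_pow, adj_map_mk, hmap (U i)] at h3
        have h5 : (AdjoinRoot.map (Int.castRingHom ℤ_[p]) g ((spec T₁ f).map φ) (by rw [hmap]))
            ((Units.map (st f t : AdjoinRoot f →* _) (u i) : (AdjoinRoot g)ˣ) : AdjoinRoot g)
            = AdjoinRoot.mk ((spec T₁ f).map φ) ((spec t (U i)).map (Int.castRingHom ℤ_[p])) := by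
          have h6 : ((Units.map (st f t : AdjoinRoot f →* _) (u i) : (AdjoinRoot g)ˣ) : AdjoinRoot g)
              = AdjoinRoot.mk g (spec t (U i)) := by
            show st f t (u i : AdjoinRoot f) = _
            rw [← hU i, st_mk]
          rw [h6, adj_map_mk]
        rw [h5]
        exact h3)
      (by
        intro w hw0 hw
        obtain ⟨i, hi⟩ := Function.ne_iff.1 hw0
        have h5 := hh ℤ_[p] φ w hw i
        exact hne ((mul_eq_zero.1 h5).resolve_right hi))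
    have hEq : (fun i => Units.map (PB.ps hgm hroot : AdjoinRoot g →* 𝓞 K)
        ((fun i => Units.map (st f t : AdjoinRoot f →* _) (u i)) i))
        = (fun i => Units.map (ψ : AdjoinRoot f →* 𝓞 K) (u i)) := by
      funext i
      apply Units.ext
      exact hfac (u i)
    rw [hEq] at hfin2
    exact hfin2
  refine Set.Finite.of_finite_image (f := fun t : ℤ => ((((t - t₁) / p : ℤ)) : ℤ_[p]))
    (hfin.subset ?_) ?_
  · rintro _ ⟨t, ht, rfl⟩
    exact hkey t ht
  · rintro t ⟨⟨m, hm⟩, _⟩ t' ⟨⟨m', hm'⟩, _⟩ heq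
    have hp0 : (p : ℤ) ≠ 0 := by exact_mod_cast hp.ne_zero
    simp only [Int.cast_inj] at heq
    rw [hm, hm', pow_two, mul_assoc, mul_assoc, Int.mul_ediv_cancel_left _ hp0,
      Int.mul_ediv_cancel_left _ hp0] at heq
    have : t - t₁ = t' - t₁ := by
      rw [hm, hm', pow_two, mul_assoc, mul_assoc, heq]
    linarith

end Pool.Agent.H33R4
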