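import Mathlib
import Pool.Agent.H33R4.Form3
import Pool.Agent.Helper165.P1.NP

set_option autoImplicit false

namespace Pool.Agent.H33R4

open Polynomial NumberField Pool.Agent.Helper165.P1

theorem np_splits {E : Type} [Field E] [IsAlgClosed E] [CharZero E] (n : ℕ) :
    ∀ P : (NP.LS E)[X], P.Monic → P.natDegree = n →
      ∃ (m : ℕ) (hm : 0 < m), (P.map (NP.expandHom m hm)).Splits := by
  induction n with
  | zero =>
    intro P hP hd
    refine ⟨1, one_pos, ?_⟩
    have : P = 1 := hP.natDegree_eq_zero.1 hd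
    rw [this, Polynomial.map_one]
    exact Polynomial.Splits.one
  | succ n ih =>
    intro P hP hd
    obtain ⟨m, hm, x, hx⟩ := NP.NP_root (n + 1) P hP hd (Nat.succ_pos n)
    have hPm : (P.map (NP.expandHom m hm)).Monic := hP.map _
    obtain ⟨q, hq⟩ := Polynomial.dvd_iff_isRoot.2 hx
    have hqm : q.Monic := by
      have := hPm
      rw [hq] at this
      exact (monic_X_sub_C x).of_mul_monic_left this
    have hqd : q.natDegree = n := by
      have h1 : (P.map (NP.expandHom m hm)).natDegree = n + 1 := by rw [hP.natDegree_map, hd]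
      rw [hq, (monic_X_sub_C x).natDegree_mul hqm, Polynomial.natDegree_X_sub_C] at h1
      omega
    obtain ⟨m', hm', hs⟩ := ih q hqm hqd
    refine ⟨m' * m, Nat.mul_pos hm' hm, ?_⟩
    rw [← NP.expandHom_comp m m' hm hm', ← Polynomial.map_map, hq, Polynomial.map_mul]
    apply Polynomial.Splits.mul _ hs
    rw [Polynomial.map_sub, Polynomial.map_X, Polynomial.map_C]
    exact Polynomial.Splits.X_sub_C _

theorem puis (hE : Eul) (f : ℤ[X][X]) (hf : f.Monic)
    (hsep : (f.map (algebraMap ℤ[X] (FractionRing ℤ[X]))).Separable) :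
    ∃ e : ℕ, 0 < e ∧ ∃ ϑ : Fin f.natDegree → LaurentSeries ℂ, Function.Injective ϑ ∧
      spec (HahnSeries.single (-(e : ℤ)) (1 : ℂ)) f = ∏ j, (X - C (ϑ j)) := by
  obtain ⟨m, hm, hs⟩ := np_splits (E := ℂ) _ (spec (HahnSeries.single (-1 : ℤ) (1 : ℂ)) f)
    (spec_monic _ hf) rfl
  have h1 : (spec (HahnSeries.single (-1 : ℤ) (1 : ℂ)) f).map (NP.expandHom m hm)
      = spec (HahnSeries.single (-(m : ℤ)) (1 : ℂ)) f := by
    rw [spec_map, NP.expandHom_single, show (m : ℤ) * (-1) = -(m : ℤ) by ring]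
  rw [h1] at hs
  have hmon : (spec (HahnSeries.single (-(m : ℤ)) (1 : ℂ)) f).Monic := spec_monic _ hf
  have hcard : (spec (HahnSeries.single (-(m : ℤ)) (1 : ℂ)) f).roots.card = f.natDegree := by
    rw [← hs.natDegree_eq_card_roots]
    exact hf.natDegree_map _
  obtain ⟨θ, hθ⟩ := exists_enum _ _ hcard
  have hprod : spec (HahnSeries.single (-(m : ℤ)) (1 : ℂ)) f = ∏ j, (X - C (θ j)) := by
    have h2 := hs.eq_prod_roots_of_monic hmon
    rw [h2, hθ, Multiset.map_map]
    rfl
  refine ⟨m, hm, θ, ?_, hprod⟩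
  have hinj := E_inj hE ℂ m hm
  have e1 : spec (HahnSeries.single (-(m : ℤ)) (1 : ℂ)) f = (f.map (algebraMap ℤ[X] (FractionRing ℤ[X]))).map
      (IsFractionRing.lift hinj : FractionRing ℤ[X] →+* LaurentSeries ℂ) := by
    unfold spec
    rw [Polynomial.map_map]
    congr 1
    ext x
    · simp
    · simp
  have h3 : (spec (HahnSeries.single (-(m : ℤ)) (1 : ℂ)) f).Separable := by
    rw [e1, Polynomial.separable_map]
    exact hsep
  rw [hprod] at h3
  exact Polynomial.separable_prod_X_sub_C_iff.1 h3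

end Pool.Agent.H33R4
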