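import Mathlib
import Pool.Agent.H33R4.Form2

set_option autoImplicit false

namespace Pool.Agent.H33R4

open Polynomial NumberField

/-- RANKI: units independent modulo constants have orders at infinity of full rank -/
def RankI : Prop := ∀ (f : ℤ[X][X]), f.Monic → ∀ (r : ℕ) (u : Fin r → (AdjoinRoot f)ˣ),
  (∀ c : Fin r → ℤ, IsIntegral ℤ ((∏ i, u i ^ c i : (AdjoinRoot f)ˣ) : AdjoinRoot f) → c = 0) →
  ∀ (e : ℕ), 0 < e → ∀ (n : ℕ) (ϑ : Fin n → LaurentSeries ℂ), Function.Injective ϑ →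
  spec (HahnSeries.single (-(e : ℤ)) (1 : ℂ)) f = ∏ j, (X - C (ϑ j)) →
  ∀ (U : Fin r → ℤ[X][X]), (∀ i, AdjoinRoot.mk f (U i) = u i) →
  LinearIndependent ℚ (fun (i : Fin r) (j : Fin n) =>
      ((HahnSeries.order (ev2 (HahnSeries.single (-(e : ℤ)) (1 : ℂ)) (ϑ j) (U i)) : ℤ) : ℚ))

end Pool.Agent.H33R4
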