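import Mathlib
import Pool.Agent.H33R4.PB2
import Pool.Agent.H33R4.Puis
import Pool.Agent.H33R4.Expl
import Pool.Agent.H33R4.Spec2

set_option autoImplicit false

namespace Pool.Agent.H33R4

open Polynomial NumberField Pool.Agent.H637R2.Leo

theorem specialization_of (hRI : RankI) (p : ℕ) [Fact p.Prime] (f : ℤ[X][X]) (hf : f.Monic)
    (hsep : (f.map (algebraMap ℤ[X] (FractionRing ℤ[X]))).Separable) (r : ℕ)
    (u : Fin r → (AdjoinRoot f)ˣ)
    (hind : ∀ c : Fin r → ℤ,
      IsIntegral ℤ ((∏ i, u i ^ c i : (AdjoinRoot f)ˣ) : AdjoinRoot f) → c = 0) :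
    ∃ S : Finset ℤ, ∀ t ∉ S, ∀ (K : Type) [Field K] [NumberField K] (φ : AdjoinRoot f →+* 𝓞 K),
      φ (AdjoinRoot.of f X) = t → Module.finrank ℚ K = f.natDegree →
      IntermediateField.adjoin ℚ {((φ (AdjoinRoot.root f) : 𝓞 K) : K)} = ⊤ →
      PIndep K p (fun i => Units.map (φ : AdjoinRoot f →* 𝓞 K) (u i)) ∧
        (Units.rank K = r → Leopoldt K p) := by
  obtain ⟨e, he, ϑ, hinj, hsplit⟩ := puis eul_proof f hf hsep
  have hrank := hRI f hf r u hind e he _ ϑ hinj hsplit
  have hp : p.Prime := Fact.out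
  have hfin : {t : ℤ | Bad' p f u t}.Finite := by
    have hfin : (⋃ t₁ ∈ (Finset.range (p ^ 2)),
        {t : ℤ | (p : ℤ) ^ 2 ∣ t - (t₁ : ℤ) ∧ Bad' p f u t}).Finite := by
      apply Set.Finite.biUnion (Finset.finite_toSet _)
      intro t₁ _
      exact fin_class' lemA_proof rel_proof eul_proof (dLog_of logB_proof good2_proof derL_proof)
        good1_proof good2_proof logEx_proof logB_proof evZ_proof dual_proof p _ r f hf u ℂ e he ϑ hinj
        hsplit hrank t₁
    refine hfin.subset ?_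
    intro t ht
    simp only [Set.mem_iUnion]
    have hpos : (0 : ℤ) < (p : ℤ) ^ 2 := by
      have : (0 : ℤ) < p := by exact_mod_cast hp.pos
      positivity
    refine ⟨(t % (p : ℤ) ^ 2).toNat, ?_, ?_, ht⟩
    · rw [Finset.mem_range]
      have h3 := Int.emod_lt_of_pos t hpos
      have h4 := Int.emod_nonneg t hpos.ne'
      zify
      rw [Int.toNat_of_nonneg h4]
      exact h3
    · rw [Int.toNat_of_nonneg (Int.emod_nonneg t hpos.ne')]
      exact Int.dvd_self_sub_emod
  refine ⟨hfin.toFinset, fun t ht K _ _ φ hφ hK hgen => ?_⟩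
  have hP : PIndep K p (fun i => Units.map (φ : AdjoinRoot f →* 𝓞 K) (u i)) := by
    by_contra hne
    apply ht
    rw [Set.Finite.mem_toFinset]
    exact ⟨K, inferInstance, inferInstance, φ, hφ, hK, hgen, hne⟩
  exact ⟨hP, fun hr => PB.leopoldt_of hr p _ hP⟩

end Pool.Agent.H33R4
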