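import Mathlib
import Pool.Agent.H33R4.Spec2

/-! Task RANKI (helper666): orders at infinity of units which are independent modulo constants. -/
set_option autoImplicit false

namespace Pool.Agent.H33R4

open Polynomial NumberField

namespace RANKIaux

noncomputable section

/-- `ℤ[T] → ℂ((τ))`, `T ↦ s` -/
def eps (s : LaurentSeries ℂ) : ℤ[X] →+* LaurentSeries ℂ :=
  Polynomial.eval₂RingHom (Int.castRingHom (LaurentSeries ℂ)) s

/-- the embeddings of `A` -/
def EE (f : ℤ[X][X]) (s t : LaurentSeries ℂ) (h : f.eval₂ (eps s) t = 0) :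
    AdjoinRoot f →+* LaurentSeries ℂ := AdjoinRoot.lift (eps s) t h

theorem EE_mk (f : ℤ[X][X]) (s t : LaurentSeries ℂ) (h : f.eval₂ (eps s) t = 0) (P : ℤ[X][X]) :
    EE f s t h (AdjoinRoot.mk f P) = ev2 s t P := by
  unfold EE ev2 spec
  rw [AdjoinRoot.lift_mk, eval_map]
  rfl

/-- the order as a homomorphism -/
def ordHom : (LaurentSeries ℂ)ˣ →* Multiplicative ℤ :=
  MonoidHom.mk' (fun x => Multiplicative.ofAdd (HahnSeries.order (x : LaurentSeries ℂ))) (by
    intro a b
    rw [Units.val_mul, HahnSeries.order_mul a.ne_zero b.ne_zero, ofAdd_add])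

/-- the image of a polynomial over `ℤ` in `ℂ((τ))` at a negative exponent -/
theorem coeff_eps (e : ℕ) (he : 0 < e) (q : ℤ[X]) (d : ℕ) :
    (eps (HahnSeries.single (-(e : ℤ)) (1 : ℂ)) q).coeff (-((e * d : ℕ) : ℤ)) = (q.coeff d : ℂ) := by
  unfold eps
  rw [coe_eval₂RingHom, eval₂_eq_sum_range]
  have h1 : ∀ k : ℕ, (Int.castRingHom (LaurentSeries ℂ)) (q.coeff k) *
      (HahnSeries.single (-(e : ℤ)) (1 : ℂ)) ^ k = HahnSeries.single (-((e * k : ℕ) : ℤ)) (q.coeff k : ℂ) := by
    intro k
    rw [HahnSeries.single_pow, one_pow]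
    have h2 : (Int.castRingHom (LaurentSeries ℂ)) (q.coeff k) = HahnSeries.single 0 (q.coeff k : ℂ) := by
      have := map_intCast (HahnSeries.C : ℂ →+* HahnSeries ℤ ℂ) (q.coeff k)
      rw [eq_intCast, ← this]; rfl
    rw [h2, HahnSeries.single_mul_single, mul_one, zero_add]
    congr 1
    push_cast
    simp [mul_comm]
  rw [Finset.sum_congr rfl fun k _ => h1 k]
  have h3 : ∀ (S : Finset ℕ) (a : ℤ), (∑ k ∈ S, (HahnSeries.single (-((e * k : ℕ) : ℤ))
      (q.coeff k : ℂ) : LaurentSeries ℂ)).coeff a =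
      ∑ k ∈ S, ((HahnSeries.single (-((e * k : ℕ) : ℤ)) (q.coeff k : ℂ) : LaurentSeries ℂ)).coeff a := by
    intro S a
    induction S using Finset.induction_on with
    | empty => simp
    | insert x S hx ih => rw [Finset.sum_insert hx, Finset.sum_insert hx, HahnSeries.coeff_add, ih]
  rw [h3]
  have h4 : ∀ k : ℕ, ((HahnSeries.single (-((e * k : ℕ) : ℤ)) (q.coeff k : ℂ) :
      LaurentSeries ℂ)).coeff (-((e * d : ℕ) : ℤ)) = if k = d then (q.coeff d : ℂ) else 0 := by
    intro k
    by_cases hk : k = d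
    · subst hk; simp
    · rw [if_neg hk]
      apply HahnSeries.coeff_single_of_ne
      intro h
      apply hk
      have : e * d = e * k := by exact_mod_cast neg_injective h
      exact (Nat.eq_of_mul_eq_mul_left he this).symm
  rw [Finset.sum_congr rfl fun k _ => h4 k, Finset.sum_ite_eq' (Finset.range (q.natDegree + 1)) d]
  split_ifs with h
  · rfl
  · rw [Finset.mem_range, not_lt] at h
    rw [coeff_eq_zero_of_natDegree_lt (by omega)]
    simp

theorem coeff_ofPS (w : PowerSeries ℂ) (n : ℕ) (hn : 0 < n) :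
    (HahnSeries.ofPowerSeries ℤ ℂ w).coeff (-(n : ℤ)) = 0 := by
  rw [PowerSeries.coeff_coe, if_pos (by omega)]

theorem exists_ofPS (x : LaurentSeries ℂ) (hx : HahnSeries.order x = 0) :
    ∃ w : PowerSeries ℂ, HahnSeries.ofPowerSeries ℤ ℂ w = x := by
  refine ⟨x.powerSeriesPart, ?_⟩
  rw [LaurentSeries.ofPowerSeries_powerSeriesPart, hx, neg_zero]
  change (1 : LaurentSeries ℂ) * x = x
  rw [one_mul]

/-- the characteristic polynomial at infinity -/
theorem charpoly_eq (f : ℤ[X][X]) (hf : f.Monic) (s : LaurentSeries ℂ) (n : ℕ)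
    (ϑ : Fin n → LaurentSeries ℂ) (hϑ : Function.Injective ϑ)
    (hroot : ∀ j, f.eval₂ (eps s) (ϑ j) = 0) (hn : n = f.natDegree) (v : AdjoinRoot f) :
    ((Algebra.leftMulMatrix (AdjoinRoot.powerBasis' hf).basis v).charpoly).map (eps s) =
      ∏ j, (X - C (EE f s (ϑ j) (hroot j) v)) := by
  subst hn
  have hdim : (AdjoinRoot.powerBasis' hf).dim = f.natDegree := rfl
  set B : Module.Basis (Fin f.natDegree) ℤ[X] (AdjoinRoot f) := (AdjoinRoot.powerBasis' hf).basis with hB
  have hBk : ∀ k, B k = (AdjoinRoot.root f) ^ (k : ℕ) := by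
    intro k
    rw [hB]
    exact (AdjoinRoot.powerBasis' hf).basis_eq_pow k
  set M : Matrix (Fin f.natDegree) (Fin f.natDegree) ℤ[X] := Algebra.leftMulMatrix B v with hM
  change (M.charpoly).map (eps s) = _
  have hMk : ∀ k, v * B k = ∑ l, M l k • B l := by
    intro k
    have := B.sum_repr (v * B k)
    rw [← this]
    refine Finset.sum_congr rfl fun l _ => ?_
    rw [hM, Algebra.leftMulMatrix_eq_repr_mul]
  set W : Matrix (Fin f.natDegree) (Fin f.natDegree) (LaurentSeries ℂ) := Matrix.vandermonde ϑ with hW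
  have hWdet : IsUnit W.det := (Matrix.det_vandermonde_ne_zero_iff.2 hϑ).isUnit
  have hEB : ∀ j k, EE f s (ϑ j) (hroot j) (B k) = W j k := by
    intro j k
    rw [hBk, map_pow, hW, Matrix.vandermonde_apply]
    congr 1
    unfold EE
    exact AdjoinRoot.lift_root _
  have hEs : ∀ j (q : ℤ[X]) (a : AdjoinRoot f), EE f s (ϑ j) (hroot j) (q • a)
      = eps s q * EE f s (ϑ j) (hroot j) a := by
    intro j q a
    rw [Algebra.smul_def, map_mul]
    congr 1
    unfold EE
    exact AdjoinRoot.lift_of _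
  have hDW : Matrix.diagonal (fun j => EE f s (ϑ j) (hroot j) v) * W = W * M.map (eps s) := by
    refine Matrix.ext fun j k => ?_
    rw [Matrix.diagonal_mul, Matrix.mul_apply, ← hEB j k, ← map_mul, hMk,
      map_sum (EE f s (ϑ j) (hroot j))]
    refine Finset.sum_congr rfl fun l _ => ?_
    rw [hEs, hEB, Matrix.map_apply, mul_comm]
  have hu := Matrix.isUnit_iff_isUnit_det W |>.2 hWdet
  obtain ⟨w, hw⟩ := hu
  have h1 : M.map (eps s) = w⁻¹.val * Matrix.diagonal (fun j => EE f s (ϑ j) (hroot j) v) * w.val := by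
    rw [mul_assoc, hw, hDW, ← hw, ← mul_assoc, Units.inv_mul, one_mul]
  have h2 := Matrix.charpoly_units_conj' w (Matrix.diagonal (fun j => EE f s (ϑ j) (hroot j) v))
  rw [← Matrix.coe_units_inv] at h2
  rw [← Matrix.charpoly_map, h1, h2, Matrix.charpoly_diagonal]

theorem const_of_coeff (e : ℕ) (he : 0 < e) (q : ℤ[X]) (w : PowerSeries ℂ)
    (hw : eps (HahnSeries.single (-(e : ℤ)) (1 : ℂ)) q = HahnSeries.ofPowerSeries ℤ ℂ w) :
    C (q.coeff 0) = q := by
  rcases Nat.eq_zero_or_pos q.natDegree with h0 | h0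
  · exact (eq_C_of_natDegree_eq_zero h0).symm
  · exfalso
    have h1 := coeff_eps e he q q.natDegree
    rw [hw, coeff_ofPS w _ (Nat.mul_pos he h0)] at h1
    have h2 : q.coeff q.natDegree = 0 := by exact_mod_cast h1.symm
    have h3 : q = 0 := by
      rw [← leadingCoeff_eq_zero]; exact h2
    rw [h3] at h0
    simp at h0

end

end RANKIaux

open RANKIaux in
theorem rankI_proof : RankI := by
  intro f hf r u hind e he n ϑ hϑ hspec U hU
  set s : LaurentSeries ℂ := HahnSeries.single (-(e : ℤ)) (1 : ℂ) with hs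
  have hmap : f.map (eps s) = ∏ j, (X - C (ϑ j)) := hspec
  have hroot : ∀ j, f.eval₂ (eps s) (ϑ j) = 0 := by
    intro j
    rw [← eval_map, hmap, eval_prod]
    exact Finset.prod_eq_zero (Finset.mem_univ j) (by simp)
  have hn : n = f.natDegree := by
    have h1 : (f.map (eps s)).natDegree = f.natDegree := hf.natDegree_map _
    rw [hmap, natDegree_prod_of_monic _ _ fun j _ => monic_X_sub_C _] at h1
    simpa using h1
  rw [← LinearIndependent.iff_fractionRing ℤ ℚ, Fintype.linearIndependent_iff]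
  intro c hc
  have hord : ∀ j, ∑ i, c i * HahnSeries.order (ev2 s (ϑ j) (U i)) = 0 := by
    intro j
    have h1 := congrFun hc j
    rw [Finset.sum_apply] at h1
    simp only [Pi.smul_apply, zsmul_eq_mul, Pi.zero_apply] at h1
    exact_mod_cast h1
  set v : (AdjoinRoot f)ˣ := ∏ i, u i ^ c i with hv
  have hvord : ∀ j, HahnSeries.order (EE f s (ϑ j) (hroot j) (v : AdjoinRoot f)) = 0 := by
    intro j
    have h1 : ordHom (Units.map (EE f s (ϑ j) (hroot j)).toMonoidHom v) = 1 := by
      rw [hv, map_prod, map_prod]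
      have h2 : ∀ i, ordHom (Units.map (EE f s (ϑ j) (hroot j)).toMonoidHom (u i ^ c i)) =
          Multiplicative.ofAdd (c i * HahnSeries.order (ev2 s (ϑ j) (U i))) := by
        intro i
        rw [map_zpow, map_zpow]
        have h3 : ordHom (Units.map (EE f s (ϑ j) (hroot j)).toMonoidHom (u i)) =
            Multiplicative.ofAdd (HahnSeries.order (ev2 s (ϑ j) (U i))) := by
          change Multiplicative.ofAdd (HahnSeries.order (EE f s (ϑ j) (hroot j) (u i : AdjoinRoot f))) = _
          rw [← hU i, EE_mk]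
        rw [h3, ← ofAdd_zsmul, smul_eq_mul]
      rw [Finset.prod_congr rfl fun i _ => h2 i, ← ofAdd_sum, hord j, ofAdd_zero]
    exact h1
  choose w hw using fun j => exists_ofPS _ (hvord j)
  set χ := (Algebra.leftMulMatrix (AdjoinRoot.powerBasis' hf).basis (v : AdjoinRoot f)).charpoly with hχ
  have hχm : χ.Monic := Matrix.charpoly_monic _
  have hχv : aeval (v : AdjoinRoot f) χ = 0 := by
    apply Algebra.leftMulMatrix_injective (AdjoinRoot.powerBasis' hf).basis
    rw [← aeval_algHom_apply, hχ, Matrix.aeval_self_charpoly, map_zero]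
  have hχmap : χ.map (eps s) = (∏ j, (X - C (w j))).map (HahnSeries.ofPowerSeries ℤ ℂ) := by
    rw [hχ, charpoly_eq f hf s n ϑ hϑ hroot hn, Polynomial.map_prod]
    refine Finset.prod_congr rfl fun j _ => ?_
    rw [Polynomial.map_sub, map_X, map_C, hw]
  have hcoef : ∀ k, C ((χ.coeff k).coeff 0) = χ.coeff k := by
    intro k
    refine const_of_coeff e he (χ.coeff k) ((∏ j, (X - C (w j))).coeff k) ?_
    rw [← hs]
    have h1 := congrArg (fun P => Polynomial.coeff P k) hχmap
    simpa only [coeff_map] using h1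
  set χ0 : ℤ[X] := χ.map (constantCoeff : ℤ[X] →+* ℤ) with hχ0
  have hχ0C : χ0.map (C : ℤ →+* ℤ[X]) = χ := by
    ext1 k
    rw [coeff_map, hχ0, coeff_map]
    exact hcoef k
  have hint : IsIntegral ℤ (v : AdjoinRoot f) := by
    refine ⟨χ0, hχm.map _, ?_⟩
    have h1 : algebraMap ℤ (AdjoinRoot f) = (algebraMap ℤ[X] (AdjoinRoot f)).comp (C : ℤ →+* ℤ[X]) :=
      RingHom.ext_int _ _
    rw [h1, ← eval₂_map, hχ0C]
    exact hχv
  have := hind c hint
  intro i
  rw [this]; rfl

end Pool.Agent.H33R4
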