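import Mathlib
import Pool.Agent.H33R4.Spec
import Pool.Agent.H33R4.EUL

set_option autoImplicit false

/-!
# REL: relations between logarithmic derivatives and orders at infinity
-/

namespace Pool.Agent.H33R4

open Polynomial

namespace Relaux

/-! ### general facts -/

theorem spec_map {A B : Type} [CommRing A] [CommRing B] (φ : A →+* B) (x : A) (P : ℤ[X][X]) :
    (spec x P).map φ = spec (φ x) P := by
  unfold spec
  rw [Polynomial.map_map]
  congr 1
  ext a <;> simp

theorem ev2_map {A B : Type} [CommRing A] [CommRing B] (φ : A →+* B) (x y : A) (P : ℤ[X][X]) :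
    φ (ev2 x y P) = ev2 (φ x) (φ y) P := by
  unfold ev2
  rw [← spec_map, Polynomial.eval_map, Polynomial.eval₂_at_apply]

theorem ev2_add {A : Type} [CommRing A] (x y : A) (P Q : ℤ[X][X]) :
    ev2 x y (P + Q) = ev2 x y P + ev2 x y Q := by
  unfold ev2 spec
  rw [Polynomial.map_add, Polynomial.eval_add]

theorem ev2_monomial {A : Type} [CommRing A] (x y : A) (n : ℕ) (a : ℤ[X]) :
    ev2 x y (monomial n a) = aeval x a * y ^ n := by
  unfold ev2 spec
  rw [Polynomial.map_monomial, Polynomial.eval_monomial]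
  congr 1

theorem ev2_der (P : ℤ[X][X]) : ∃ PT : ℤ[X][X], ∀ (A : Type) [CommRing A] (δ : Derivation ℤ A A)
    (x y : A), δ (ev2 x y P) = ev2 x y PT * δ x + ev2 x y (derivative P) * δ y := by
  induction P using Polynomial.induction_on' with
  | add P Q hP hQ =>
    obtain ⟨P', hP'⟩ := hP
    obtain ⟨Q', hQ'⟩ := hQ
    refine ⟨P' + Q', fun A _ δ x y => ?_⟩
    rw [ev2_add, map_add, hP', hQ', ev2_add, derivative_add, ev2_add]
    ring
  | monomial n a =>
    refine ⟨monomial n (derivative a), fun A _ δ x y => ?_⟩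
    rw [ev2_monomial, ev2_monomial, derivative_monomial, ev2_monomial, Derivation.leibniz,
      Derivation.leibniz_pow, Derivation.map_aeval]
    simp only [smul_eq_mul, nsmul_eq_mul, map_mul, map_natCast]
    ring

/-- coefficientwise map -/
noncomputable def mp {F k : Type} [Field F] [Field k] (μ : F →+* k) :
    LaurentSeries F →+* LaurentSeries k where
  toFun x := HahnSeries.map x μ
  map_one' := by
    ext g
    rw [HahnSeries.map_coeff]
    by_cases h : g = 0
    · subst h; simp
    · simp [HahnSeries.coeff_one, h]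
  map_mul' x y := by
    ext g
    exact congrArg (fun z : LaurentSeries k => z.coeff g)
      (HahnSeries.map_mul (μ : F →ₙ+* k) (x := x) (y := y))
  map_zero' := by
    ext g
    simp
  map_add' x y := by
    ext g
    simp

theorem mp_coeff {F k : Type} [Field F] [Field k] (μ : F →+* k) (x : LaurentSeries F) (g : ℤ) :
    (mp μ x).coeff g = μ (x.coeff g) := rfl

theorem mp_single {F k : Type} [Field F] [Field k] (μ : F →+* k) (g : ℤ) (a : F) :
    mp μ (HahnSeries.single g a) = HahnSeries.single g (μ a) := by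
  ext m
  rw [mp_coeff]
  by_cases h : m = g
  · subst h; simp
  · rw [HahnSeries.coeff_single_of_ne h, HahnSeries.coeff_single_of_ne h, map_zero]

theorem mp_order {F k : Type} [Field F] [Field k] (μ : F →+* k) (x : LaurentSeries F) :
    (mp μ x).order = x.order := by
  by_cases hx : x = 0
  · rw [hx, map_zero, HahnSeries.order_zero, HahnSeries.order_zero]
  · have hx' : mp μ x ≠ 0 := (_root_.map_ne_zero _).2 hx
    apply le_antisymm
    · apply HahnSeries.order_le_of_coeff_ne_zero
      rw [mp_coeff]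
      exact (_root_.map_ne_zero μ).2 (fun h => hx (HahnSeries.coeff_order_eq_zero.1 h))
    · apply HahnSeries.order_le_of_coeff_ne_zero
      intro h
      apply hx'
      rw [← HahnSeries.coeff_order_eq_zero, mp_coeff, h, map_zero]

/-- a common field extension -/
theorem compositum (A B : Type) [Field A] [Field B] [CharZero A] [CharZero B] :
    ∃ (k : Type) (_ : Field k) (_ : A →+* k) (_ : B →+* k), True := by
  have hinj : Function.Injective (Algebra.TensorProduct.includeLeft : A →ₐ[ℚ] TensorProduct ℚ A B) :=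
    Algebra.TensorProduct.includeLeft_injective (algebraMap ℚ B).injective
  have hnt : Nontrivial (TensorProduct ℚ A B) := hinj.nontrivial
  obtain ⟨m, hm⟩ := Ideal.exists_maximal (TensorProduct ℚ A B)
  refine ⟨TensorProduct ℚ A B ⧸ m, Ideal.Quotient.field m,
    (Ideal.Quotient.mk m).comp (Algebra.TensorProduct.includeLeft : A →ₐ[ℚ] TensorProduct ℚ A B).toRingHom,
    (Ideal.Quotient.mk m).comp (Algebra.TensorProduct.includeRight : B →ₐ[ℚ] TensorProduct ℚ A B).toRingHom,
    trivial⟩

/-- the subfield of constants -/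
def cst {Ω : Type} [Field Ω] (D : Derivation ℤ Ω Ω) : Subfield Ω where
  carrier := {x | D x = 0}
  mul_mem' {a b} ha hb := by
    simp only [Set.mem_ofPred_eq] at *
    rw [Derivation.leibniz, ha, hb, smul_zero, smul_zero, add_zero]
  one_mem' := by
    simp only [Set.mem_ofPred_eq]
    exact D.map_one_eq_zero
  add_mem' {a b} ha hb := by
    simp only [Set.mem_ofPred_eq] at *
    rw [map_add, ha, hb, add_zero]
  zero_mem' := by
    simp only [Set.mem_ofPred_eq, map_zero]
  neg_mem' {a} ha := by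
    simp only [Set.mem_ofPred_eq] at *
    rw [map_neg, ha, neg_zero]
  inv_mem' a ha := by
    simp only [Set.mem_ofPred_eq] at *
    rw [Derivation.leibniz_inv, ha, smul_zero]

theorem mem_cst {Ω : Type} [Field Ω] (D : Derivation ℤ Ω Ω) (x : Ω) : x ∈ cst D ↔ D x = 0 :=
  Iff.rfl

/-- `T` is transcendental over the constants -/
theorem trans {Ω : Type} [Field Ω] [CharZero Ω] (D : Derivation ℤ Ω Ω) (T : Ω) (h : D T ≠ 0) :
    Function.Injective (Polynomial.eval₂RingHom (cst D).subtype T) := by
  let D' : Derivation (cst D) Ω Ω :=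
    { toFun := D
      map_add' := map_add D
      map_smul' := fun c x => by
        rw [RingHom.id_apply, Algebra.smul_def, Derivation.leibniz]
        have : D (algebraMap (cst D) Ω c) = 0 := c.2
        rw [this, smul_zero, add_zero, smul_eq_mul, Algebra.smul_def]
      map_one_eq_zero' := D.map_one_eq_zero
      leibniz' := fun a b => D.leibniz a b }
  have hD' : ∀ x, D' x = D x := fun _ => rfl
  have h1 : ¬ IsIntegral (cst D) T := by
    intro hint
    have hsep := (minpoly.irreducible hint).separable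
    have h2 := hsep.aeval_derivative_ne_zero (minpoly.aeval (cst D) T)
    have h3 : D' (aeval T (minpoly (cst D) T)) = 0 := by rw [minpoly.aeval, map_zero]
    rw [Derivation.map_aeval, hD', smul_eq_mul] at h3
    exact (mul_ne_zero h2 h) h3
  have h4 : Transcendental (cst D) T := fun h5 => h1 h5.isIntegral
  have h6 := transcendental_iff_injective.1 h4
  exact h6

theorem trans2 {A k : Type} [Field A] [Field k] (κ : A →+* k) (e : ℕ) (he : 0 < e) :
    Function.Injective (Polynomial.eval₂RingHom ((HahnSeries.C : k →+* LaurentSeries k).comp κ)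
      (HahnSeries.single (-(e : ℤ)) (1 : k) : LaurentSeries k)) := by
  rw [injective_iff_map_eq_zero]
  intro P hP
  ext i
  have h1 : (Polynomial.eval₂RingHom ((HahnSeries.C : k →+* LaurentSeries k).comp κ)
      (HahnSeries.single (-(e : ℤ)) (1 : k) : LaurentSeries k) P).coeff (-(e : ℤ) * i) = κ (P.coeff i) := by
    rw [Polynomial.coe_eval₂RingHom, Polynomial.eval₂_eq_sum_range]
    have h2 : ∀ j : ℕ, ((HahnSeries.C : k →+* LaurentSeries k).comp κ) (P.coeff j) *
        (HahnSeries.single (-(e : ℤ)) (1 : k) : LaurentSeries k) ^ j =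
        HahnSeries.single (-(e : ℤ) * j) (κ (P.coeff j)) := by
      intro j
      rw [HahnSeries.single_pow, one_pow, RingHom.comp_apply, HahnSeries.C_apply,
        HahnSeries.single_mul_single, mul_one, zero_add]
      rw [nsmul_eq_mul, mul_comm]
    simp only [h2]
    rw [HahnSeries.coeff_sum]
    have h3 : ∀ j ∈ Finset.range (P.natDegree + 1), j ≠ i →
        (HahnSeries.single (-(e : ℤ) * j) (κ (P.coeff j)) : LaurentSeries k).coeff
          (-(e : ℤ) * i) = 0 := by
      intro j _ hj
      apply HahnSeries.coeff_single_of_ne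
      intro h
      have he' : (-(e : ℤ)) ≠ 0 := by omega
      have := mul_left_cancel₀ he' h
      exact hj (by exact_mod_cast this.symm)
    rw [Finset.sum_eq_single i h3]
    · rw [HahnSeries.coeff_single_same]
    · intro hi
      rw [HahnSeries.coeff_single_same, Polynomial.coeff_eq_zero_of_natDegree_lt, map_zero]
      rw [Finset.mem_range] at hi
      omega
  rw [hP, HahnSeries.coeff_zero] at h1
  rw [Polynomial.coeff_zero]
  exact (map_eq_zero κ).1 h1.symm

/-- the extension step -/
theorem lift {Ω Λ k0 : Type} [Field Ω] [Field Λ] [Field k0] (j1 : k0 →+* Ω) (j2 : k0 →+* Λ)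
    (t0 : k0) (f : ℤ[X][X]) (hf : f.Monic) (n : ℕ) (θ : Fin n → Ω)
    (hθ : spec (j1 t0) f = ∏ j, (X - C (θ j))) (η : Fin n → Λ) (hη : Function.Injective η)
    (hspl : spec (j2 t0) f = ∏ j, (X - C (η j))) :
    ∃ (M : Subfield Ω) (ψ : M →+* Λ) (π : Equiv.Perm (Fin n)),
      (∀ x : k0, ∃ a : M, (a : Ω) = j1 x ∧ ψ a = j2 x) ∧
      ∀ j, ∃ a : M, (a : Ω) = θ j ∧ ψ a = η (π j) := by
  let a1 : Algebra k0 Ω := j1.toAlgebra
  let a2 : Algebra k0 Λ := j2.toAlgebra
  have hmon : (spec t0 f).Monic := hf.map _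
  have hroot : ∀ j, aeval (θ j) (spec t0 f) = 0 := by
    intro j
    rw [aeval_def, ← eval_map]
    have h1 : (spec t0 f).map (algebraMap k0 Ω) = spec (j1 t0) f := spec_map j1 t0 f
    rw [h1, hθ, eval_prod]
    exact Finset.prod_eq_zero (Finset.mem_univ j) (by simp)
  have hK : ∀ s ∈ Set.range θ, IsIntegral k0 s ∧ ((minpoly k0 s).map (algebraMap k0 Λ)).Splits := by
    rintro s ⟨j, rfl⟩
    refine ⟨⟨spec t0 f, hmon, ?_⟩, ?_⟩
    · rw [← aeval_def]; exact hroot j
    · have h2 : (spec t0 f).map (algebraMap k0 Λ) = spec (j2 t0) f := spec_map j2 t0 f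
      have h3 : ((spec t0 f).map (algebraMap k0 Λ)).Splits := by
        rw [h2, hspl]
        exact Splits.prod fun j _ => Splits.X_sub_C _
      exact h3.of_dvd (hmon.map _).ne_zero (Polynomial.map_dvd _ (minpoly.dvd k0 _ (hroot j)))
  obtain ⟨ψ⟩ := IntermediateField.nonempty_algHom_adjoin_of_splits hK
  have hmem : ∀ j, θ j ∈ IntermediateField.adjoin k0 (Set.range θ) := fun j =>
    IntermediateField.subset_adjoin _ _ ⟨j, rfl⟩
  let θ' : Fin n → IntermediateField.adjoin k0 (Set.range θ) := fun j => ⟨θ j, hmem j⟩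
  -- the images are the roots
  have h4 : spec (algebraMap k0 (IntermediateField.adjoin k0 (Set.range θ)) t0) f =
      ∏ j, (X - C (θ' j)) := by
    apply Polynomial.map_injective
      (algebraMap (IntermediateField.adjoin k0 (Set.range θ)) Ω)
      (algebraMap (IntermediateField.adjoin k0 (Set.range θ)) Ω).injective
    rw [spec_map, Polynomial.map_prod]
    simp only [Polynomial.map_sub, Polynomial.map_X, Polynomial.map_C]
    exact hθ
  have h5 : spec (j2 t0) f = ∏ j, (X - C (ψ (θ' j))) := by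
    have h6 := congrArg (Polynomial.map (ψ : _ →+* Λ)) h4
    rw [spec_map, Polynomial.map_prod] at h6
    simp only [Polynomial.map_sub, Polynomial.map_X, Polynomial.map_C] at h6
    rw [show (ψ : _ →+* Λ) (algebraMap k0 (IntermediateField.adjoin k0 (Set.range θ)) t0) = j2 t0
      from ψ.commutes t0] at h6
    exact h6
  have h6 : Function.Injective (fun j => ψ (θ' j)) := by
    rw [← Polynomial.separable_prod_X_sub_C_iff, ← h5, hspl,
      Polynomial.separable_prod_X_sub_C_iff]
    exact hη
  have h7 : ∀ j, ∃ i, η i = ψ (θ' j) := by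
    intro j
    have h8 : (spec (j2 t0) f).eval (ψ (θ' j)) = 0 := by
      rw [h5, eval_prod]
      exact Finset.prod_eq_zero (Finset.mem_univ j) (by simp)
    rw [hspl, eval_prod, Finset.prod_eq_zero_iff] at h8
    obtain ⟨i, -, hi⟩ := h8
    refine ⟨i, ?_⟩
    rw [eval_sub, eval_X, eval_C, sub_eq_zero] at hi
    exact hi.symm
  choose π hπ using h7
  have hπi : Function.Injective π := by
    intro i j hij
    apply h6
    show ψ (θ' i) = ψ (θ' j)
    rw [← hπ i, ← hπ j, hij]
  refine ⟨(IntermediateField.adjoin k0 (Set.range θ)).toSubfield, (ψ : _ →+* Λ),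
    Equiv.ofBijective π (Finite.injective_iff_bijective.1 hπi), fun x => ?_, fun j => ?_⟩
  · exact ⟨algebraMap k0 (IntermediateField.adjoin k0 (Set.range θ)) x, rfl, ψ.commutes x⟩
  · exact ⟨θ' j, rfl, (hπ j).symm⟩

/-- a derivation from a function -/
def mkD {A : Type} [CommRing A] (g : A → A) (hadd : ∀ x y, g (x + y) = g x + g y)
    (hl : ∀ x y, g (x * y) = x * g y + y * g x) : Derivation ℤ A A :=
  Derivation.mk' (AddMonoidHom.mk' g hadd).toIntLinearMap hl

theorem mkD_apply {A : Type} [CommRing A] (g : A → A) (hadd : ∀ x y, g (x + y) = g x + g y)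
    (hl : ∀ x y, g (x * y) = x * g y + y * g x) (x : A) : mkD g hadd hl x = g x := rfl

theorem E_single {k : Type} [Field k] (E : LaurentSeries k → LaurentSeries k)
    (hE : ∀ a m, (E a).coeff m = (m : k) * a.coeff m) (g : ℤ) (a : k) :
    E (HahnSeries.single g a) = HahnSeries.single g ((g : k) * a) := by
  ext m
  rw [hE]
  by_cases h : m = g
  · subst h; rw [HahnSeries.coeff_single_same, HahnSeries.coeff_single_same]
  · rw [HahnSeries.coeff_single_of_ne h, HahnSeries.coeff_single_of_ne h, mul_zero]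

/-- the intertwining relation -/
theorem inter {Ω Λ : Type} [Field Ω] [Field Λ] (D : Derivation ℤ Ω Ω) (E : Derivation ℤ Λ Λ)
    (M : Subfield Ω) (ψ : M →+* Λ) (m : Λ) (S : Set Ω)
    (hS : ∀ x ∈ S, ∃ a b : M, (a : Ω) = x ∧ (b : Ω) = D x ∧ ψ b = m * E (ψ a)) :
    ∀ x ∈ Subfield.closure S, ∃ a b : M, (a : Ω) = x ∧ (b : Ω) = D x ∧ ψ b = m * E (ψ a) := by
  intro x hx
  induction hx using Subfield.closure_induction with
  | mem x hx => exact hS x hx
  | one =>
    refine ⟨1, 0, rfl, ?_, ?_⟩
    · rw [D.map_one_eq_zero]; rfl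
    · rw [map_zero, map_one, E.map_one_eq_zero, mul_zero]
  | add x y _ _ hx hy =>
    obtain ⟨a, b, ha, hb, hab⟩ := hx
    obtain ⟨a', b', ha', hb', hab'⟩ := hy
    refine ⟨a + a', b + b', ?_, ?_, ?_⟩
    · rw [← ha, ← ha']; rfl
    · rw [map_add, ← hb, ← hb']; rfl
    · rw [map_add, hab, hab', map_add, map_add]; ring
  | neg x _ hx =>
    obtain ⟨a, b, ha, hb, hab⟩ := hx
    refine ⟨-a, -b, ?_, ?_, ?_⟩
    · rw [← ha]; rfl
    · rw [map_neg, ← hb]; rfl
    · rw [map_neg, hab, map_neg, map_neg]; ring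
  | inv x _ hx =>
    obtain ⟨a, b, ha, hb, hab⟩ := hx
    refine ⟨a⁻¹, -(a⁻¹ ^ 2 * b), ?_, ?_, ?_⟩
    · rw [← ha]; rfl
    · rw [Derivation.leibniz_inv, ← hb, ← ha, smul_eq_mul, neg_mul]; rfl
    · rw [map_neg, map_mul, map_pow, map_inv₀, hab, Derivation.leibniz_inv, smul_eq_mul]; ring
  | mul x y _ _ hx hy =>
    obtain ⟨a, b, ha, hb, hab⟩ := hx
    obtain ⟨a', b', ha', hb', hab'⟩ := hy
    refine ⟨a * a', a * b' + a' * b, ?_, ?_, ?_⟩
    · rw [← ha, ← ha']; rfl
    · rw [Derivation.leibniz, ← hb, ← hb', ← ha, ← ha']; rfl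
    · rw [map_add, map_mul, map_mul, map_mul, hab, hab', Derivation.leibniz, smul_eq_mul,
        smul_eq_mul]
      ring

end Relaux

open Relaux in
theorem rel_of (hE : Eul) : Rel := by
  intro Ω _ _ D T q hq hDT f hf n θ hθ F _ _ e he ϑ hϑ hsplit
  have hq0 : (q : Ω) ≠ 0 := by exact_mod_cast hq.ne'
  have hDT0 : D T ≠ 0 := by rw [hDT]; exact hq0
  obtain ⟨k, _, κ, μ, -⟩ := compositum (cst D) F
  have hck : CharZero k := charZero_of_injective_ringHom μ.injective
  obtain ⟨E, hE1, hE2⟩ : ∃ E : @Derivation ℤ (LaurentSeries k) (LaurentSeries k) _ _ _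
      (Ring.toIntAlgebra (LaurentSeries k)) _ _,
      (∀ a m, (E a).coeff m = (m : k) * a.coeff m) ∧
      (∀ (ι : Type) [Fintype ι] (c : ι → k) (u : ι → LaurentSeries k) (g : LaurentSeries k),
        (∀ i, u i ≠ 0) → ∑ i, HahnSeries.C (c i) * (E (u i) / u i) = E g →
        ∑ i, c i * ((HahnSeries.order (u i) : ℤ) : k) = 0) := by
    obtain ⟨E, hE1, hE2⟩ := hE k
    exact ⟨mkD (fun x => E x) (fun x y => map_add E x y) (fun x y => E.leibniz x y), hE1, hE2⟩
  -- the base field
  let j1 : FractionRing (cst D)[X] →+* Ω := IsFractionRing.lift (trans D T hDT0)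
  let j2 : FractionRing (cst D)[X] →+* LaurentSeries k := IsFractionRing.lift (trans2 κ e he)
  have hj1 : ∀ P : (cst D)[X], j1 (algebraMap _ _ P) =
      Polynomial.eval₂RingHom (cst D).subtype T P := fun P => IsFractionRing.lift_algebraMap _ P
  have hj2 : ∀ P : (cst D)[X], j2 (algebraMap _ _ P) =
      Polynomial.eval₂RingHom ((HahnSeries.C : k →+* LaurentSeries k).comp κ)
        (HahnSeries.single (-(e : ℤ)) (1 : k) : LaurentSeries k) P :=
    fun P => IsFractionRing.lift_algebraMap _ P
  have hj1X : j1 (algebraMap _ _ (X : (cst D)[X])) = T := by rw [hj1]; simp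
  have hj2X : j2 (algebraMap _ _ (X : (cst D)[X])) = HahnSeries.single (-(e : ℤ)) (1 : k) := by
    rw [hj2]; simp
  set τ : LaurentSeries k := HahnSeries.single (-(e : ℤ)) (1 : k) with hτ
  have hμτ : mp μ (HahnSeries.single (-(e : ℤ)) (1 : F)) = τ := by
    rw [mp_single, map_one]
  have hη : Function.Injective (fun j => mp μ (ϑ j)) := fun i j hij =>
    hϑ ((mp μ).injective hij)
  have hspl : spec τ f = ∏ j, (X - C (mp μ (ϑ j))) := by
    rw [← hμτ, ← spec_map, hsplit, Polynomial.map_prod]
    simp only [Polynomial.map_sub, Polynomial.map_X, Polynomial.map_C]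
  obtain ⟨M, ψ, π, hM1, hM2⟩ := lift j1 j2 (algebraMap _ _ (X : (cst D)[X])) f hf n θ
    (by rw [hj1X]; exact hθ) (fun j => mp μ (ϑ j)) hη (by rw [hj2X]; exact hspl)
  refine ⟨π, ?_⟩
  -- generators in `M`
  obtain ⟨T', hT', hψT⟩ := hM1 (algebraMap _ _ (X : (cst D)[X]))
  rw [hj1X] at hT'
  rw [hj2X] at hψT
  have hC : ∀ c : cst D, ∃ a : M, (a : Ω) = c ∧ ψ a = HahnSeries.C (κ c) := by
    intro c
    obtain ⟨a, ha1, ha2⟩ := hM1 (algebraMap _ _ (C c : (cst D)[X]))
    refine ⟨a, ?_, ?_⟩
    · rw [ha1, hj1]; simp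
    · rw [ha2, hj2]; simp
  choose θ' hθ' hψθ using hM2
  -- the multiplier
  have he0 : (e : k) ≠ 0 := by exact_mod_cast he.ne'
  have hqk : (q : k) ≠ 0 := by exact_mod_cast hq.ne'
  set m : LaurentSeries k := HahnSeries.single (e : ℤ) (-((q : k) / e)) with hm
  have hm0 : m ≠ 0 := by
    rw [hm, Ne, HahnSeries.single_eq_zero_iff, neg_eq_zero]
    exact div_ne_zero hqk he0
  have hmτ : m * E τ = (q : LaurentSeries k) := by
    rw [hτ, E_single E hE1, hm, HahnSeries.single_mul_single, add_neg_cancel]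
    have h1 : -((q : k) / e) * (((-(e : ℤ) : ℤ) : k) * 1) = (q : k) := by
      push_cast
      field_simp
    rw [h1]
    exact map_natCast (HahnSeries.C : k →+* LaurentSeries k) q
  have hsub : ∀ a b : M, (a : Ω) = b → a = b := fun a b h => Subtype.ext h
  -- the intertwining relation on generators
  have hgen : ∀ x ∈ ({x : Ω | D x = 0} ∪ {T} ∪ Set.range θ),
      ∃ a b : M, (a : Ω) = x ∧ (b : Ω) = D x ∧ ψ b = m * E (ψ a) := by
    rintro x ((hx | hx) | ⟨j, rfl⟩)
    · have hx' : D x = 0 := hx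
      obtain ⟨a, ha1, ha2⟩ := hC ⟨x, hx'⟩
      refine ⟨a, 0, ha1, ?_, ?_⟩
      · rw [hx']; rfl
      · rw [map_zero, ha2, HahnSeries.C_apply, E_single E hE1]
        simp
    · have hx' : x = T := hx
      refine ⟨T', (q : M), ?_, ?_, ?_⟩
      · rw [hT', hx']
      · rw [hx', hDT]; simp
      · rw [hψT, hmτ, map_natCast]
    · obtain ⟨PT, hPT⟩ := ev2_der f
      have r0 : ev2 T (θ j) f = 0 := by
        unfold ev2
        rw [hθ, eval_prod]
        exact Finset.prod_eq_zero (Finset.mem_univ j) (by simp)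
      have r1 : ev2 τ (mp μ (ϑ (π j))) f = 0 := by
        unfold ev2
        rw [hspl, eval_prod]
        exact Finset.prod_eq_zero (Finset.mem_univ (π j)) (by simp)
      have r2 : ev2 τ (mp μ (ϑ (π j))) (derivative f) ≠ 0 := by
        have h1 : ev2 τ (mp μ (ϑ (π j))) (derivative f) =
            aeval (mp μ (ϑ (π j))) (derivative (spec τ f)) := by
          unfold ev2 spec
          rw [Polynomial.derivative_map, Polynomial.coe_aeval_eq_eval]
        rw [h1]
        have hsep : (spec τ f).Separable := by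
          rw [hspl, Polynomial.separable_prod_X_sub_C_iff]
          exact hη
        apply hsep.aeval_derivative_ne_zero
        rw [Polynomial.coe_aeval_eq_eval]
        exact r1
      have hs : ψ (ev2 T' (θ' j) (derivative f)) = ev2 τ (mp μ (ϑ (π j))) (derivative f) := by
        rw [ev2_map, hψT, hψθ]
      have hu : ψ (ev2 T' (θ' j) PT) = ev2 τ (mp μ (ϑ (π j))) PT := by
        rw [ev2_map, hψT, hψθ]
      have hs0 : ev2 T' (θ' j) (derivative f) ≠ 0 := by
        intro h
        apply r2
        rw [← hs, h, map_zero]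
      have cs : ((ev2 T' (θ' j) (derivative f) : M) : Ω) = ev2 T (θ j) (derivative f) := by
        have := ev2_map M.subtype T' (θ' j) (derivative f)
        rw [Subfield.coe_subtype, hT', hθ'] at this
        exact this
      have cu : ((ev2 T' (θ' j) PT : M) : Ω) = ev2 T (θ j) PT := by
        have := ev2_map M.subtype T' (θ' j) PT
        rw [Subfield.coe_subtype, hT', hθ'] at this
        exact this
      have hs0' : ev2 T (θ j) (derivative f) ≠ 0 := by
        rw [← cs]
        intro h
        exact hs0 (hsub _ _ (by rw [h]; rfl))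
      have d1 := hPT Ω D T (θ j)
      rw [r0, map_zero, hDT] at d1
      have d2 := hPT (LaurentSeries k) E τ (mp μ (ϑ (π j)))
      rw [r1, map_zero] at d2
      refine ⟨θ' j, -(ev2 T' (θ' j) PT * q) / ev2 T' (θ' j) (derivative f), hθ' j, ?_, ?_⟩
      · have c1 : ((-(ev2 T' (θ' j) PT * q) / ev2 T' (θ' j) (derivative f) : M) : Ω) =
            -(ev2 T (θ j) PT * q) / ev2 T (θ j) (derivative f) := by
          rw [← cs, ← cu]
          push_cast
          rfl
        rw [c1, div_eq_iff hs0']
        linear_combination d1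
      · rw [map_div₀, map_neg, map_mul, map_natCast, hu, hs, hψθ, div_eq_iff r2, ← hmτ]
        linear_combination m * d2
  have hint := inter D E M ψ m _ hgen
  intro ι _ v j hv c hc g hg hrel
  -- the elements
  have hTK : T ∈ Subfield.closure ({x : Ω | D x = 0} ∪ {T} ∪ Set.range θ) :=
    Subfield.subset_closure (Or.inl (Or.inr rfl))
  have hθK : ∀ i, θ i ∈ Subfield.closure ({x : Ω | D x = 0} ∪ {T} ∪ Set.range θ) := fun i =>
    Subfield.subset_closure (Or.inr ⟨i, rfl⟩)
  have hxK : ∀ i, ev2 T (θ (j i)) (v i) ∈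
      Subfield.closure ({x : Ω | D x = 0} ∪ {T} ∪ Set.range θ) := by
    intro i
    have := ev2_map (Subfield.closure ({x : Ω | D x = 0} ∪ {T} ∪ Set.range θ)).subtype
      ⟨T, hTK⟩ ⟨θ (j i), hθK (j i)⟩ (v i)
    have h2 : ev2 T (θ (j i)) (v i) = _ := this.symm
    rw [h2]
    exact Subtype.property _
  choose a b ha hb hab using fun i => hint _ (hxK i)
  obtain ⟨ag, bg, hag, hbg, habg⟩ := hint g hg
  choose C' hC1 hC2 using fun i => hC ⟨c i, hc i⟩
  have hψa : ∀ i, ψ (a i) = mp μ (ev2 (HahnSeries.single (-(e : ℤ)) (1 : F)) (ϑ (π (j i))) (v i)) := by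
    intro i
    have h1 : a i = ev2 T' (θ' (j i)) (v i) := by
      apply hsub
      have := ev2_map M.subtype T' (θ' (j i)) (v i)
      rw [Subfield.coe_subtype, hT', hθ'] at this
      rw [ha, this]
    rw [h1, ev2_map, hψT, hψθ, ev2_map, hμτ]
  have hψ0 : ∀ i, ψ (a i) ≠ 0 := by
    intro i h
    apply hv i
    rw [← ha i, (map_eq_zero ψ).1 h]
    rfl
  have hM : ∑ i, C' i * (b i / a i) = bg := by
    apply hsub
    rw [hbg, ← hrel]
    have h1 : ((∑ i, C' i * (b i / a i) : M) : Ω) = ∑ i, (C' i : Ω) * ((b i : Ω) / (a i : Ω)) := by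
      push_cast
      rfl
    rw [h1]
    refine Finset.sum_congr rfl fun i _ => ?_
    rw [hC1, ha, hb]
  have hL := congrArg ψ hM
  rw [map_sum, habg] at hL
  have hL2 : ∑ i, HahnSeries.C (κ ⟨c i, hc i⟩) * (E (ψ (a i)) / ψ (a i)) = E (ψ ag) := by
    apply mul_left_cancel₀ hm0
    rw [← hL, Finset.mul_sum]
    refine Finset.sum_congr rfl fun i _ => ?_
    rw [map_mul, map_div₀, hC2, hab]
    ring
  have h3 := hE2 ι (fun i => κ ⟨c i, hc i⟩) (fun i => ψ (a i)) (ψ ag) hψ0 hL2
  have h4 : κ (∑ i, (⟨c i, hc i⟩ : cst D) * ((HahnSeries.order (ev2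
      (HahnSeries.single (-(e : ℤ)) (1 : F)) (ϑ (π (j i))) (v i)) : ℤ) : cst D)) = 0 := by
    rw [map_sum, ← h3]
    refine Finset.sum_congr rfl fun i _ => ?_
    rw [map_mul, map_intCast, hψa, mp_order]
  have h5 := (map_eq_zero κ).1 h4
  have h6 := congrArg (cst D).subtype h5
  rw [map_sum, map_zero] at h6
  rw [← h6]
  refine Finset.sum_congr rfl fun i _ => ?_
  rfl

theorem rel_proof : Rel := rel_of eul_proof

end Pool.Agent.H33R4
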